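import Mathlib
import Pool.Agent.H904L2.Coeffs
import Pool.Agent.X184.SP.A

/-!
# Products of fractional powers: the coefficients

Adapted from `Pool/Agent/H904L2/Coeffs.lean` (square roots).
-/

set_option autoImplicit false

open Polynomial H904L2
open scoped Real

namespace Pool.Agent.X184.SP

section
variable {ι : Type} [Fintype ι]

/-- `∏ (1 - a_i x)^(e_i)` -/
noncomputable def G (a : ι → ℂ) (e : ι → ℝ) (x : ℂ) : ℂ := ∏ i, (1 - a i * x) ^ ((e i : ℝ) : ℂ)

lemma G_diff (a : ι → ℂ) (e : ι → ℝ) (x : ℂ) (h : ∀ i, ‖a i * x‖ < 1) :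
    DifferentiableAt ℂ (G a e) x := by
  unfold G
  refine DifferentiableAt.fun_finsetProd fun i _ => ?_
  refine DifferentiableAt.cpow ?_ (differentiableAt_const _) (H904L2.Coeffs.slit (h i))
  fun_prop

lemma G_zero (a : ι → ℂ) (e : ι → ℝ) : G a e 0 = 1 := by simp [G]

lemma G_pow (a : ι → ℂ) {p : ℕ} (hp : 0 < p) (k : ι → ℕ) (x : ℂ) :
    G a (fun i => (k i : ℝ) / p) x ^ p = (∏ i, (1 - C (a i) * X) ^ (k i) : ℂ[X]).eval x := by
  rw [G, ← Finset.prod_pow, eval_prod]
  refine Finset.prod_congr rfl fun i _ => ?_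
  rw [← Complex.cpow_nat_mul]
  have h1 : (p : ℂ) * (((k i : ℝ) / p : ℝ) : ℂ) = (k i : ℂ) := by
    have : (p : ℂ) ≠ 0 := by exact_mod_cast hp.ne'
    push_cast
    field_simp
  rw [h1, Complex.cpow_natCast]
  simp

lemma avg (a : ι → ℂ) (e : ι → ℝ) (R : ℝ) (hR : 0 < R) (h : ∀ i, ‖a i‖ < R) (n : ℕ) :
    Real.circleAverage (fun z => Fe a e z * z ^ n) 0 R =
      iteratedDeriv n (G a e) 0 / n.factorial := by
  have hR' : (R : ℂ) ≠ 0 := by exact_mod_cast hR.ne'
  have h1 : Real.circleAverage (fun z => Fe a e z * z ^ n) 0 R =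
      Real.circleAverage (fun z => G a e z * (z⁻¹) ^ n) 0 R⁻¹ := by
    rw [Real.circleAverage_eq_circleAverage_zero_one,
      ← Real.circleAverage_zero_one_congr_inv,
      Real.circleAverage_eq_circleAverage_zero_one (c := 0) (R := R⁻¹)]
    congr 1
    funext z
    simp only [add_zero, Complex.ofReal_inv, mul_inv_rev, inv_inv]
    have : Fe a e (R * z⁻¹) = G a e ((R : ℂ)⁻¹ * z) := by
      unfold Fe G
      refine Finset.prod_congr rfl fun i _ => ?_
      congr 2
      rw [div_eq_mul_inv, mul_inv_rev, inv_inv, mul_comm z]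
    rw [this, mul_comm z⁻¹]
  have hball : DifferentiableOn ℂ (G a e) (Metric.closedBall 0 R⁻¹) := by
    intro x hx
    refine (G_diff a e x fun i => ?_).differentiableWithinAt
    rw [mem_closedBall_zero_iff] at hx
    rw [norm_mul]
    calc ‖a i‖ * ‖x‖ ≤ ‖a i‖ * R⁻¹ := by gcongr
      _ < R * R⁻¹ := by
        have := h i
        gcongr
      _ = 1 := mul_inv_cancel₀ hR.ne'
  have hc := hball.circleIntegral_one_div_sub_center_pow_smul (inv_pos.2 hR) n
  rw [h1, Real.circleAverage_eq_circleIntegral (inv_pos.2 hR).ne']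
  have h2 : (∮ z in C(0, R⁻¹), (z - 0)⁻¹ • (G a e z * (z⁻¹) ^ n)) =
      ∮ z in C(0, R⁻¹), (1 / (z - 0) ^ (n + 1)) • G a e z := by
    congr 1
    funext z
    simp only [sub_zero, smul_eq_mul, one_div, inv_pow]
    rw [pow_succ, mul_inv_rev]
    ring
  rw [h2, hc, smul_smul]
  have hpi : (2 * (π : ℂ) * Complex.I) ≠ 0 := Complex.two_pi_I_ne_zero
  have hf : (n.factorial : ℂ) ≠ 0 := by exact_mod_cast n.factorial_ne_zero
  rw [smul_eq_mul]
  field_simp

lemma G_analytic (a : ι → ℂ) (e : ι → ℝ) : AnalyticAt ℂ (G a e) 0 := by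
  have hev : (∀ᶠ x in nhds (0 : ℂ), ∀ i, ‖a i * x‖ < 1) := by
    rw [Filter.eventually_all]
    intro i
    have hcont : Continuous fun x : ℂ => ‖a i * x‖ := by fun_prop
    refine (hcont.tendsto 0).eventually_lt_const ?_
    simp
  rw [Complex.analyticAt_iff_eventually_differentiableAt]
  filter_upwards [hev] with x hx using G_diff a e x hx

end

/-- the Taylor series at `0` -/
noncomputable def TS (f : ℂ → ℂ) : PowerSeries ℂ :=
  PowerSeries.mk fun n => iteratedDeriv n f 0 / n.factorial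

lemma TS_mul {f g : ℂ → ℂ} (hf : AnalyticAt ℂ f 0) (hg : AnalyticAt ℂ g 0) :
    TS (f * g) = TS f * TS g := by
  ext n
  rw [PowerSeries.coeff_mul]
  simp only [TS, PowerSeries.coeff_mk]
  rw [iteratedDeriv_mul hf.contDiffAt hg.contDiffAt, Finset.sum_div,
    Finset.Nat.sum_antidiagonal_eq_sum_range_succ_mk]
  refine Finset.sum_congr rfl fun i hi => ?_
  rw [Finset.mem_range, Nat.lt_succ_iff] at hi
  rw [Nat.cast_choose _ hi]
  have hf : (n.factorial : ℂ) ≠ 0 := by exact_mod_cast n.factorial_ne_zero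
  field_simp

lemma TS_eval (P : ℂ[X]) : TS (fun x => P.eval x) = (P : PowerSeries ℂ) := by
  ext n
  simp only [TS, PowerSeries.coeff_mk]
  rw [H904L2.Coeffs.iteratedDeriv_eval_zero, Polynomial.coeff_coe]
  have hf : (n.factorial : ℂ) ≠ 0 := by exact_mod_cast n.factorial_ne_zero
  field_simp

lemma TS_pow {f : ℂ → ℂ} (hf : AnalyticAt ℂ f 0) (p : ℕ) : TS (f ^ p) = TS f ^ p := by
  induction p with
  | zero =>
    have h := TS_eval 1
    simp only [eval_one, Polynomial.coe_one] at h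
    rw [pow_zero, pow_zero]
    exact h
  | succ p ih => rw [pow_succ, pow_succ, TS_mul (hf.pow p) hf, ih]

theorem exists_coeffs {ι : Type} [Fintype ι] (a : ι → ℂ) {p : ℕ} (hp : 0 < p) (k : ι → ℕ) :
    ∃ c : ℕ → ℂ, c 0 = 1 ∧
      (PowerSeries.mk c) ^ p = ((∏ i, (1 - C (a i) * X) ^ (k i) : ℂ[X]) : PowerSeries ℂ) ∧
      ∀ R : ℝ, 0 < R → (∀ i, ‖a i‖ < R) → ∀ n : ℕ,
        Real.circleAverage (fun z => Fe a (fun i => (k i : ℝ) / p) z * z ^ n) 0 R = c n := by
  refine ⟨fun n => iteratedDeriv n (G a (fun i => (k i : ℝ) / p)) 0 / n.factorial,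
    by simp [G_zero], ?_, fun R hR h n => avg a _ R hR h n⟩
  have h1 := TS_pow (G_analytic a (fun i => (k i : ℝ) / p)) p
  change (TS (G a (fun i => (k i : ℝ) / p))) ^ p = _
  rw [← h1, ← TS_eval]
  congr 1
  funext x
  exact G_pow a hp k x

/-- the linear functional attached to the fractional power -/
noncomputable def Lf {ι : Type} [Fintype ι] (a : ι → ℂ) (e : ι → ℝ) (R : ℝ) (hR : 0 < R)
    (hc : ContinuousOn (Fe a e) (Metric.sphere 0 R)) : ℂ[X] →ₗ[ℂ] ℂ where
  toFun p := Real.circleAverage (fun z => Fe a e z * p.eval z) 0 R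
  map_add' p q := by
    have h : ∀ p : ℂ[X], CircleIntegrable (fun z => Fe a e z * p.eval z) 0 R := fun p =>
      ContinuousOn.circleIntegrable hR.le (hc.mul p.continuous.continuousOn)
    rw [← Real.circleAverage_fun_add (h p) (h q)]
    congr 1
    ext z
    simp [mul_add]
  map_smul' r p := by
    simp only [RingHom.id_apply]
    rw [← Real.circleAverage_fun_smul]
    congr 1
    ext z
    simp only [eval_smul, smul_eq_mul]
    ring

theorem continuousOn_Fe {ι : Type} [Fintype ι] (a : ι → ℂ) (e : ι → ℝ) (R : ℝ) (hR : 0 < R)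
    (h : ∀ i, ‖a i‖ < R) : ContinuousOn (Fe a e) (Metric.sphere 0 R) := by
  unfold Fe
  apply continuousOn_finsetProd
  intro i _ z hz
  have hz' : ‖z‖ = R := by simpa using hz
  have hz0 : z ≠ 0 := by
    intro h0
    rw [h0, norm_zero] at hz'
    linarith
  apply ContinuousAt.continuousWithinAt
  have h1 : ContinuousAt (fun z : ℂ => 1 - a i / z) z := by fun_prop (disch := assumption)
  refine ContinuousAt.comp (g := fun w : ℂ => w ^ ((e i : ℝ) : ℂ)) ?_ h1
  apply continuousAt_cpow_const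
  left
  have h2 : ‖a i / z‖ < 1 := by
    rw [norm_div, hz']
    exact (div_lt_one hR).2 (h i)
  have h3 : (a i / z).re ≤ ‖a i / z‖ := Complex.re_le_norm _
  simp only [Complex.sub_re, Complex.one_re]
  linarith

/-- uniqueness of the root with constant coefficient one -/
lemma root_unique {f g : PowerSeries ℂ} {p : ℕ} (hp : 0 < p) (h : f ^ p = g ^ p)
    (hf : PowerSeries.constantCoeff f = 1) (hg : PowerSeries.constantCoeff g = 1) : f = g := by
  have h1 := Commute.mul_geom_sum₂ (Commute.all f g) p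
  rw [h, sub_self] at h1
  rcases mul_eq_zero.mp h1 with h2 | h2
  · exact sub_eq_zero.mp h2
  · exfalso
    have h3 := congrArg (PowerSeries.constantCoeff (R := ℂ)) h2
    simp only [map_sum, map_mul, map_pow, hf, hg, one_pow, mul_one, Finset.sum_const,
      Finset.card_range, map_zero] at h3
    simp at h3
    omega

end Pool.Agent.X184.SP
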