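import Mathlib
import Pool.Agent.X184.SZ.H
import Pool.Agent.X184.SP.B

/-!
# Products of fractional powers: the rationality criterion
-/

set_option autoImplicit false

open Polynomial H904L2 Pool.Agent.X184.SZ
open scoped Real

namespace Pool.Agent.X184.SP

/-- the bound for the Hankel determinants of one power series -/
theorem det_single {ι : Type} [Fintype ι] [Nonempty ι] (a : ι → ℂ) (ha : ∀ i, a i ≠ 0)
    {p : ℕ} (hp : 0 < p) (k : ι → ℕ) (hk : ∀ i, 0 < k i ∧ k i ≤ p)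
    (c : ℕ → ℂ) (hc0 : c 0 = 1)
    (hc : (PowerSeries.mk c) ^ p = ((∏ i, (1 - C (a i) * X) ^ (k i) : ℂ[X]) : PowerSeries ℂ))
    (φ : ℂ → ℝ) (hφ : ContDiff ℝ 1 φ) (hφc : HasCompactSupport φ) (T : ℝ) (hT : 0 < T)
    (hφT : ∀ z, ‖z‖ ≤ Real.exp (-T) → φ z = 0) (ε : ℝ)
    (hφK : ∀ i, ∀ t : ℝ, t ≤ Real.log ‖a i‖ →
      max t 0 - φ (Complex.exp (t + (a i).arg * Complex.I)) ≤ ε) (η' : ℝ) (hη' : ε < η') :
    ∃ b C : ℝ, 0 ≤ C ∧ ∀ N : ℕ, 0 < N →
      ‖(Matrix.of fun i j : Fin N => c ((i : ℕ) + (j : ℕ))).det‖ ≤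
        Real.exp (N * b + (N : ℝ) ^ 2 * ((2 * π)⁻¹ * (∫ z, dirE φ z) +
          2 * Real.circleAverage φ 0 1 + 2 * η')) * ((N.factorial : ℝ) * C ^ N) := by
  classical
  set F : ℝ := (2 * π)⁻¹ * (∫ z, dirE φ z) + 2 * Real.circleAverage φ 0 1 with hFdef
  -- the function log⁺ - φ
  set h : ℂ → ℝ := fun w => Real.posLog ‖w‖ - φ w with hh
  have hcont : Continuous h := by
    have h1 : Continuous fun w : ℂ => Real.posLog ‖w‖ := Real.continuous_posLog.comp continuous_norm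
    exact h1.sub hφ.continuous
  have hexp : ∀ (t y : ℝ), ‖Complex.exp (t + y * Complex.I)‖ = Real.exp t := by
    intro t y
    rw [Complex.norm_exp]
    simp
  have hε0 : 0 ≤ ε := by
    obtain ⟨i⟩ := (inferInstance : Nonempty ι)
    have h1 := hφK i (min (Real.log ‖a i‖) (-T)) (min_le_left _ _)
    have h2 : φ (Complex.exp (((min (Real.log ‖a i‖) (-T) : ℝ) : ℂ) + (a i).arg * Complex.I)) = 0 := by
      apply hφT
      rw [hexp]
      exact Real.exp_le_exp.2 (min_le_right _ _)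
    rw [h2] at h1
    have h3 : (0:ℝ) ≤ max (min (Real.log ‖a i‖) (-T)) 0 := le_max_right _ _
    linarith
  obtain ⟨δ, ρ, hδ, hρ, hclose⟩ := Kset_close a T h hcont ε η' hη'
    (by
      intro z hz
      have h1 : φ z = 0 := hφT z hz.le
      have h2 : Real.posLog ‖z‖ = 0 := by
        rw [hz, Real.posLog_eq_zero_iff, abs_of_pos (Real.exp_pos _)]
        exact Real.exp_le_one_iff.2 (by linarith)
      simp only [hh, h1, h2]
      linarith)
    (by
      intro i t _ ht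
      have h1 := hφK i t ht
      have h2 : Real.posLog ‖Complex.exp (t + (a i).arg * Complex.I)‖ = max t 0 := by
        rw [hexp, Real.posLog, Real.log_exp, max_comm]
      simp only [hh, h2]
      exact h1)
  -- the radius
  obtain ⟨R, hR0, hRa, hRT⟩ : ∃ R : ℝ, 0 < R ∧ (∀ i, ‖a i‖ < R) ∧ Real.exp (-T) < R := by
    refine ⟨(∑ i, ‖a i‖) + Real.exp (-T) + 1, ?_, ?_, ?_⟩
    · have := Finset.sum_nonneg (s := Finset.univ) (fun i _ => norm_nonneg (a i))
      have := Real.exp_pos (-T)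
      linarith
    · intro i
      have := Finset.single_le_sum (f := fun i => ‖a i‖) (fun i _ => norm_nonneg (a i)) (Finset.mem_univ i)
      have := Real.exp_pos (-T)
      linarith
    · have := Finset.sum_nonneg (s := Finset.univ) (fun i _ => norm_nonneg (a i))
      linarith
  have hpR : (0:ℝ) < p := by exact_mod_cast hp
  set e : ι → ℝ := fun i => (k i : ℝ) / p with hedef
  have he : ∀ i, 0 < e i ∧ e i ≤ 1 := by
    intro i
    obtain ⟨h1, h2⟩ := hk i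
    have h1' : (0:ℝ) < k i := by exact_mod_cast h1
    have h2' : (k i : ℝ) ≤ p := by exact_mod_cast h2
    exact ⟨div_pos h1' hpR, (div_le_one hpR).mpr h2'⟩
  obtain ⟨C, hC0, hC⟩ := contour_bound a e he ha T δ R hδ hRa hRT
  set L := Lf a e R hR0 (continuousOn_Fe a e R hR0 hRa) with hL
  have hLb : ∀ p : ℂ[X], ∀ B : ℝ, (∀ z ∈ Kset a T δ, ‖p.eval z‖ ≤ B) → ‖L p‖ ≤ C * B := hC
  -- coefficients
  obtain ⟨c', hc'0, hc'sq, hc'⟩ := exists_coeffs a hp k
  have hcc : ∀ n, c' n = c n := by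
    have h1 : PowerSeries.mk c' = PowerSeries.mk c := by
      apply root_unique hp (hc'sq.trans hc.symm)
      · rw [← PowerSeries.coeff_zero_eq_constantCoeff_apply, PowerSeries.coeff_mk, hc'0]
      · rw [← PowerSeries.coeff_zero_eq_constantCoeff_apply, PowerSeries.coeff_mk, hc0]
    intro n
    have h3 := congrArg (PowerSeries.coeff n) h1
    simpa using h3
  have hLX : ∀ n : ℕ, L (X ^ n) = c n := by
    intro n
    have h1 := hc' R hR0 hRa n
    rw [← hcc n, ← h1]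
    change Real.circleAverage (fun z => Fe a e z * (X ^ n : ℂ[X]).eval z) 0 R = _
    simp only [eval_pow, eval_X]
    rfl
  -- the energy bound on the compact set
  have hE : ∀ N : ℕ, 0 < N → ∀ z : Fin N → ℂ, Function.Injective z →
      (∀ i, z i ∈ Kset a T δ) →
      ∑ i, ∑ j ∈ Finset.univ.erase i, Real.log ‖z i - z j‖ ≤
        N * Real.log (1 / ρ) - (N : ℝ) ^ 2 * (-(F + 2 * η')) := by
    intro N hN z hz hzK
    have h1 := energy_bound φ hφ hφc hN z hz hρ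
    have h2 : ∑ i, Real.circleAverage (fun w => Real.posLog ‖w‖ - φ w) (z i) ρ ≤ N * η' := by
      calc ∑ i, Real.circleAverage (fun w => Real.posLog ‖w‖ - φ w) (z i) ρ
          ≤ ∑ _i : Fin N, η' := Finset.sum_le_sum (fun i _ => hclose (z i) (hzK i))
        _ = N * η' := by simp
    have h3 : 2 * (N : ℝ) * ∑ i, Real.circleAverage (fun w => Real.posLog ‖w‖ - φ w) (z i) ρ ≤
        2 * (N : ℝ) * (N * η') := by
      apply mul_le_mul_of_nonneg_left h2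
      positivity
    calc _ ≤ _ := h1
      _ ≤ N * Real.log (1 / ρ) + (N : ℝ) ^ 2 * F + 2 * N * (N * η') := by
          rw [hFdef]
          linarith
      _ = _ := by ring
  refine ⟨Real.log (1 / ρ), C, hC0, fun N hN => ?_⟩
  have h1 := det_le L (Kset a T δ) (Kset_isCompact a T δ) (Kset_infinite a T δ) C hLb
    (Real.log (1 / ρ)) (-(F + 2 * η')) hE N hN
  have h2 : (Matrix.of fun i j : Fin N => L (X ^ ((i : ℕ) + (j : ℕ)))) =
      (Matrix.of fun i j : Fin N => c ((i : ℕ) + (j : ℕ))) := by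
    ext i j
    simp [hLX]
  rw [h2] at h1
  refine h1.trans (le_of_eq ?_)
  congr 2
  ring

/-- the power series are rational -/
theorem AT1R {R S : Type} [CommRing R] [Fintype S] [Nonempty S] (e : S → R →+* ℂ)
    (hnorm : ∀ x : R, ∏ s, ‖e s x‖ < 1 → ∀ s, e s x = 0)
    {ι : S → Type} [∀ s, Fintype (ι s)] [∀ s, Nonempty (ι s)] (a : ∀ s, ι s → ℂ)
    (ha : ∀ s i, a s i ≠ 0) {p : ℕ} (hp : 0 < p) (k : ∀ s, ι s → ℕ)
    (hk' : ∀ s i, 0 < k s i ∧ k s i ≤ p) (c : ℕ → R) (hc0 : c 0 = 1)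
    (hc : ∀ s, (PowerSeries.mk fun n => e s (c n)) ^ p =
      ((∏ i, (1 - C (a s i) * X) ^ (k s i) : ℂ[X]) : PowerSeries ℂ))
    (φ : S → ℂ → ℝ) (hφ : ∀ s, ContDiff ℝ 1 (φ s)) (hφc : ∀ s, HasCompactSupport (φ s))
    (T : S → ℝ) (hT : ∀ s, 0 < T s) (hφT : ∀ s z, ‖z‖ ≤ Real.exp (-T s) → φ s z = 0)
    (ε : S → ℝ)
    (hφK : ∀ s i, ∀ t : ℝ, t ≤ Real.log ‖a s i‖ →
      max t 0 - φ s (Complex.exp (t + (a s i).arg * Complex.I)) ≤ ε s)
    (hF : ∑ s, ((2 * π)⁻¹ * (∫ z, dirE (φ s) z) + 2 * Real.circleAverage (φ s) 0 1 +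
      2 * ε s) < 0) :
    ∀ s, ∃ P Q : ℂ[X], Q ≠ 0 ∧
      (Q : PowerSeries ℂ) * PowerSeries.mk (fun n => e s (c n)) = (P : PowerSeries ℂ) := by
  classical
  have hk : (0:ℝ) < Fintype.card S := by exact_mod_cast Fintype.card_pos
  set F : S → ℝ := fun s => (2 * π)⁻¹ * (∫ z, dirE (φ s) z) + 2 * Real.circleAverage (φ s) 0 1
    with hFdef
  set t : ℝ := -(∑ s, (F s + 2 * ε s)) / (4 * Fintype.card S) with ht
  have ht0 : 0 < t := by
    rw [ht]
    apply div_pos _ (by positivity)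
    have : ∑ s, (F s + 2 * ε s) < 0 := hF
    linarith
  have hsingle : ∀ s, ∃ b C : ℝ, 0 ≤ C ∧ ∀ N : ℕ, 0 < N →
      ‖(Matrix.of fun i j : Fin N => e s (c ((i : ℕ) + (j : ℕ)))).det‖ ≤
        Real.exp (N * b + (N : ℝ) ^ 2 * (F s + 2 * (ε s + t))) * ((N.factorial : ℝ) * C ^ N) :=
    fun s => det_single (a s) (ha s) hp (k s) (hk' s) (fun n => e s (c n)) (by rw [hc0, map_one]) (hc s) (φ s)
      (hφ s) (hφc s) (T s) (hT s) (hφT s) (ε s) (hφK s) (ε s + t) (by linarith)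
  choose b C hC hdet using hsingle
  obtain ⟨N0, hN0⟩ := numericS b (fun s => F s + 2 * (ε s + t)) C hC (by
    have h1 : ∑ s, (F s + 2 * (ε s + t)) = ∑ s, (F s + 2 * ε s) + 2 * t * Fintype.card S := by
      rw [show (∑ s, (F s + 2 * (ε s + t))) = ∑ s, ((F s + 2 * ε s) + 2 * t) from
        Finset.sum_congr rfl fun s _ => by ring, Finset.sum_add_distrib, Finset.sum_const,
        Finset.card_univ, nsmul_eq_mul]
      ring
    rw [h1, ht]
    have h2 : ∑ s, (F s + 2 * ε s) < 0 := hF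
    have h3 : 2 * (-(∑ s, (F s + 2 * ε s)) / (4 * Fintype.card S)) * Fintype.card S =
        -(∑ s, (F s + 2 * ε s)) / 2 := by
      field_simp
      ring
    rw [h3]
    linarith)
  intro s
  apply kronecker (fun n => e s (c n)) (max N0 1)
  intro N hN
  have hN1 : N0 ≤ N := (le_max_left _ _).trans hN
  have hN2 : 0 < N := (le_max_right N0 1).trans hN
  set D := (Matrix.of fun i j : Fin N => c ((i : ℕ) + (j : ℕ))).det with hD
  have h3 : ∀ s, (Matrix.of fun i j : Fin N => e s (c ((i : ℕ) + (j : ℕ)))).det = e s D := by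
    intro s
    rw [hD, RingHom.map_det]
    congr 1
  have h4 : ∏ s, ‖e s D‖ < 1 := by
    refine lt_of_le_of_lt ?_ (hN0 N hN1)
    apply Finset.prod_le_prod
    · intro s _
      exact norm_nonneg _
    · intro s _
      rw [← h3 s]
      exact hdet s N hN2
  change (Matrix.of fun i j : Fin N => e s (c ((i : ℕ) + (j : ℕ)))).det = 0
  rw [h3 s]
  exact hnorm D h4 s

/-- the rationality criterion -/
theorem AT2P {R S : Type} [CommRing R] [Fintype S] [Nonempty S] (e : S → R →+* ℂ)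
    (hnorm : ∀ x : R, ∏ s, ‖e s x‖ < 1 → ∀ s, e s x = 0)
    {ι : S → Type} [∀ s, Fintype (ι s)] [∀ s, Nonempty (ι s)] {n : ℝ}
    (hn : ∀ s, (Fintype.card (ι s) : ℝ) = n) (a : ∀ s, ι s → ℂ)
    (ha : ∀ s i, a s i ≠ 0) {p : ℕ} (hp : 0 < p) (k : ∀ s, ι s → ℕ)
    (hk' : ∀ s i, 0 < k s i ∧ k s i ≤ p) (c : ℕ → R) (hc0 : c 0 = 1)
    (hc : ∀ s, (PowerSeries.mk fun n => e s (c n)) ^ p =
      ((∏ i, (1 - C (a s i) * X) ^ (k s i) : ℂ[X]) : PowerSeries ℂ))
    (hs : n * ∑ s, ∑ i, hf (Real.posLog ‖a s i‖) < Fintype.card S / 16) :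
    ∀ s, ∃ P Q : ℂ[X], Q ≠ 0 ∧ Q ^ p * ∏ i, (1 - C (a s i) * X) ^ (k s i) = P ^ p := by
  have hn1 : 1 ≤ n := by
    obtain ⟨s⟩ := (inferInstance : Nonempty S)
    rw [← hn s]
    exact_mod_cast Fintype.card_pos
  have h1 : ∀ s, ∃ (Ψ : ℂ → ℝ) (T ε : ℝ), 0 < T ∧ ContDiff ℝ 1 Ψ ∧
      (∀ w, Ψ (w + 2 * π * Complex.I) = Ψ w) ∧ (∀ w : ℂ, T ≤ |w.re| → Ψ w = 0) ∧
      (∀ i, ∀ t : ℝ, t ≤ Real.posLog ‖a s i‖ →
        max t 0 - Ψ (t + (a s i).arg * Complex.I) ≤ ε) ∧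
      (2 * π)⁻¹ * (∫ w in strip, dirE Ψ w) +
        2 * ((2 * π)⁻¹ * ∫ x in (-π)..π, Ψ (x * Complex.I)) + 2 * ε ≤
          cst (Fintype.card (ι s)) (∑ i, hf (Real.posLog ‖a s i‖)) :=
    fun s => exists_PsiQ2 (fun i => (a s i).arg) (fun i => Real.posLog ‖a s i‖)
      (fun i => Real.posLog_nonneg)
  choose Ψ T ε hT hΨ hper hsupp hK hF using h1
  have h2 : ∀ s, ∃ φ : ℂ → ℝ, ContDiff ℝ 1 φ ∧ HasCompactSupport φ ∧
      (∀ w, φ (Complex.exp w) = Ψ s w) ∧ (∀ z, ‖z‖ ≤ Real.exp (-T s) → φ z = 0) ∧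
      (∫ z, dirE φ z = ∫ w in strip, dirE (Ψ s) w) ∧
      Real.circleAverage φ 0 1 = (2 * π)⁻¹ * ∫ x in (-π)..π, Ψ s (x * Complex.I) :=
    fun s => exists_phi (Ψ s) (hΨ s) (hper s) (T s) (hT s) (hsupp s)
  choose φ hφ hφc hφe hφ0 hφD hφA using h2
  have h3 := AT1R e hnorm a ha hp k hk' c hc0 hc φ hφ hφc T hT hφ0 ε
    (by
      intro s i t ht
      rw [hφe]
      apply hK s i t
      exact ht.trans (le_max_right _ _))
    (by
      refine lt_of_le_of_lt ?_ (sum_cst hn1 (fun s => ∑ i, hf (Real.posLog ‖a s i‖)) hs)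
      apply Finset.sum_le_sum
      intro s _
      rw [hφD, hφA, ← hn s]
      exact hF s)
  intro s
  obtain ⟨P, Q, hQ, hPQ⟩ := h3 s
  refine ⟨P, Q, hQ, ?_⟩
  have h4 : ((Q : PowerSeries ℂ) * PowerSeries.mk (fun n => e s (c n))) ^ p =
      (P : PowerSeries ℂ) ^ p := by
    rw [hPQ]
  rw [mul_pow, hc s] at h4
  have h5 : ((Q ^ p * ∏ i, (1 - C (a s i) * X) ^ (k s i) : ℂ[X]) : PowerSeries ℂ) =
      ((P ^ p : ℂ[X]) : PowerSeries ℂ) := by
    rw [Polynomial.coe_mul, Polynomial.coe_pow, Polynomial.coe_pow]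
    exact h4
  exact Polynomial.coe_inj.1 h5

end Pool.Agent.X184.SP
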