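import Mathlib

/-!
# `p`-th roots of power series
-/

set_option autoImplicit false

open Polynomial

namespace Pool.Agent.X184.SP

section
variable {R : Type*} [CommRing R]

/-- evaluation of a polynomial at a power series -/
noncomputable abbrev evs (h : R[X]) (s : PowerSeries R) : PowerSeries R := aeval s h

lemma evs_sub (h : R[X]) (s t : PowerSeries R) : ∃ w, evs h s - evs h t = (s - t) * w := by
  have h1 := Polynomial.sub_dvd_eval_sub s t (h.map (algebraMap R (PowerSeries R)))
  obtain ⟨w, hw⟩ := h1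
  refine ⟨w, ?_⟩
  rw [← hw, eval_map_algebraMap, eval_map_algebraMap]

/-- the fixed point map -/
noncomputable def Phi (h : R[X]) (v s : PowerSeries R) : PowerSeries R := v - s ^ 2 * evs h s

lemma Phi_sub (h : R[X]) (v : PowerSeries R) {s t : PowerSeries R} (hs : PowerSeries.X ∣ s)
    (ht : PowerSeries.X ∣ t) {n : ℕ} (hst : PowerSeries.X ^ n ∣ s - t) :
    PowerSeries.X ^ (n + 1) ∣ Phi h v s - Phi h v t := by
  obtain ⟨w, hw⟩ := evs_sub h s t
  have e : Phi h v s - Phi h v t = (s - t) * -((s + t) * evs h s + t ^ 2 * w) := by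
    unfold Phi
    linear_combination (-t ^ 2) * hw
  rw [e, pow_succ]
  apply mul_dvd_mul hst
  rw [dvd_neg]
  apply dvd_add
  · exact Dvd.dvd.mul_right (dvd_add hs ht) _
  · rw [sq, mul_assoc]
    exact Dvd.dvd.mul_right ht _

lemma X_dvd_of {s : PowerSeries R} (h : PowerSeries.constantCoeff s = 0) : PowerSeries.X ∣ s :=
  PowerSeries.X_dvd_iff.mpr h

/-- the solution of `s + s ^ 2 * h(s) = v` -/
lemma exists_fix (h : R[X]) (v : PowerSeries R) (hv : PowerSeries.constantCoeff v = 0) :
    ∃ s : PowerSeries R, s + s ^ 2 * evs h s = v ∧ PowerSeries.constantCoeff s = 0 := by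
  set S : ℕ → PowerSeries R := fun n => (Phi h v)^[n] 0 with hS
  have hS1 : ∀ n, S (n + 1) = Phi h v (S n) := fun n => Function.iterate_succ_apply' _ _ _
  have hX : ∀ n, PowerSeries.X ∣ S n := by
    intro n
    induction n with
    | zero => exact dvd_zero _
    | succ n ih =>
      rw [hS1]
      unfold Phi
      apply dvd_sub (X_dvd_of hv)
      rw [sq, mul_assoc]
      exact Dvd.dvd.mul_right ih _
  have hstep : ∀ n, PowerSeries.X ^ (n + 1) ∣ S (n + 1) - S n := by
    intro n
    induction n with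
    | zero =>
      rw [zero_add, pow_one]
      exact dvd_sub (hX 1) (hX 0)
    | succ n ih =>
      rw [hS1 (n + 1), hS1 n]
      have h1 := Phi_sub h v (hX (n + 1)) (hX n) ih
      rwa [hS1 n] at h1
  have hst : ∀ n k, PowerSeries.X ^ (n + 1) ∣ S (n + k) - S n := by
    intro n k
    induction k with
    | zero => rw [add_zero, sub_self]; exact dvd_zero _
    | succ k ih =>
      have e : S (n + (k + 1)) - S n = (S (n + k + 1) - S (n + k)) + (S (n + k) - S n) := by
        rw [add_assoc]; ring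
      rw [e]
      exact dvd_add ((pow_dvd_pow _ (by omega)).trans (hstep (n + k))) ih
  set s : PowerSeries R := PowerSeries.mk fun n => PowerSeries.coeff n (S n) with hs
  have hlim : ∀ n, PowerSeries.X ^ (n + 1) ∣ s - S n := by
    intro n
    rw [PowerSeries.X_pow_dvd_iff]
    intro m hm
    have h1 := (PowerSeries.X_pow_dvd_iff.mp (hst m (n - m))) m (by omega)
    rw [show m + (n - m) = n by omega, map_sub] at h1
    rw [map_sub, hs, PowerSeries.coeff_mk]
    rw [sub_eq_zero] at h1 ⊢
    exact h1.symm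
  have hs0 : PowerSeries.X ∣ s := by
    have h1 := hlim 0
    rw [zero_add, pow_one] at h1
    have h2 := dvd_add h1 (hX 0)
    rwa [sub_add_cancel] at h2
  refine ⟨s, ?_, PowerSeries.X_dvd_iff.mp hs0⟩
  have h1 : ∀ n, PowerSeries.X ^ n ∣ s - Phi h v s := by
    intro n
    have h2 := hlim (n + 1)
    have h3 := Phi_sub h v (hX n) hs0 (n := n + 1) (by
      rw [← dvd_neg, neg_sub]; exact hlim n)
    have e : s - Phi h v s = (s - S (n + 1)) + (Phi h v (S n) - Phi h v s) := by
      rw [hS1]; ring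
    rw [e]
    exact dvd_add ((pow_dvd_pow _ (by omega)).trans h2) ((pow_dvd_pow _ (by omega)).trans h3)
  have h2 : s - Phi h v s = 0 := by
    ext n
    rw [map_zero]
    exact (PowerSeries.X_pow_dvd_iff.mp (h1 (n + 1))) n (by omega)
  unfold Phi at h2
  linear_combination h2

/-- the binomial expansion -/
lemma exists_binom (p : ℕ) (hp : 2 ≤ p) : ∃ h : R[X], ∀ s : PowerSeries R,
    (1 + p * s) ^ p = 1 + p ^ 2 * (s + s ^ 2 * evs h s) := by
  refine ⟨∑ k ∈ Finset.range (p - 1), C ((p.choose (k + 2) * p ^ k : ℕ) : R) * X ^ k, ?_⟩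
  intro s
  have e1 : evs (∑ k ∈ Finset.range (p - 1), C ((p.choose (k + 2) * p ^ k : ℕ) : R) * X ^ k) s =
      ∑ k ∈ Finset.range (p - 1), ((p.choose (k + 2) * p ^ k : ℕ) : PowerSeries R) * s ^ k := by
    unfold evs
    rw [map_sum]
    refine Finset.sum_congr rfl fun k _ => ?_
    rw [map_mul, map_pow, aeval_X, aeval_C, map_natCast]
  rw [e1, add_comm (1 : PowerSeries R), add_pow]
  obtain ⟨q, rfl⟩ : ∃ q, p = q + 2 := ⟨p - 2, by omega⟩
  rw [show q + 2 + 1 = (q + 1) + 1 + 1 by ring, Finset.sum_range_succ', Finset.sum_range_succ']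
  have e2 : ∑ k ∈ Finset.range (q + 1), (((q + 2 : ℕ) : PowerSeries R) * s) ^ (k + 1 + 1) *
      1 ^ (q + 2 - (k + 1 + 1)) * ((q + 2).choose (k + 1 + 1) : PowerSeries R) =
      ((q + 2 : ℕ) : PowerSeries R) ^ 2 * s ^ 2 * ∑ k ∈ Finset.range (q + 2 - 1),
        (((q + 2).choose (k + 2) * (q + 2) ^ k : ℕ) : PowerSeries R) * s ^ k := by
    rw [Finset.mul_sum]
    refine Finset.sum_congr (by congr 1) fun k _ => ?_
    rw [mul_pow, one_pow, mul_one, Nat.cast_mul, Nat.cast_pow]
    ring
  rw [e2]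
  simp only [zero_add, pow_one, pow_zero, one_pow, mul_one, Nat.choose_one_right,
    Nat.choose_zero_right, Nat.cast_one]
  push_cast
  ring

/-- the root -/
theorem exists_root [IsDomain R] [CharZero R] {p : ℕ} (hp : 2 ≤ p) (A B U : R[X])
    (hA : A.coeff 0 = 1) (hB : B.coeff 0 = 1) (h : B = A + (p : R[X]) ^ 2 * U) :
    ∃ c : ℕ → R, c 0 = 1 ∧
      (PowerSeries.mk c) ^ p = ((A ^ (p - 1) * B : R[X]) : PowerSeries R) := by
  have hp0 : (p : R) ≠ 0 := by exact_mod_cast (by omega : p ≠ 0)
  have hU : U.coeff 0 = 0 := by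
    have h1 := congrArg (fun Q : R[X] => Q.coeff 0) h
    have e : (p : R[X]) ^ 2 = C ((p : R) ^ 2) := by rw [C_pow, map_natCast]
    simp only [e, coeff_add, coeff_C_mul, hA, hB] at h1
    have h2 : (p:R) ^ 2 * U.coeff 0 = 0 := by linear_combination -h1
    exact (mul_eq_zero.1 h2).resolve_left (pow_ne_zero 2 hp0)
  set W : PowerSeries R := PowerSeries.invOfUnit (A : PowerSeries R) 1 with hW
  have hRW : (A : PowerSeries R) * W = 1 := by
    apply PowerSeries.mul_invOfUnit
    rw [Polynomial.constantCoeff_coe, hA]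
    rfl
  obtain ⟨hh, hbin⟩ := exists_binom (R := R) p hp
  obtain ⟨s, hs, hs0⟩ := exists_fix hh ((U : PowerSeries R) * W) (by
    rw [map_mul, Polynomial.constantCoeff_coe, hU, zero_mul])
  set f : PowerSeries R := (A : PowerSeries R) * (1 + p * s) with hf
  refine ⟨fun n => PowerSeries.coeff n f, ?_, ?_⟩
  · change PowerSeries.coeff 0 f = 1
    rw [PowerSeries.coeff_zero_eq_constantCoeff_apply, hf, map_mul, map_add, map_mul, hs0,
      Polynomial.constantCoeff_coe, hA]
    simp
  · have e1 : (PowerSeries.mk fun n => PowerSeries.coeff n f) = f := by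
      ext n
      rw [PowerSeries.coeff_mk]
    have e2 : ((A ^ (p - 1) * B : R[X]) : PowerSeries R) = (A : PowerSeries R) ^ (p - 1) *
        ((A : PowerSeries R) + (p : PowerSeries R) ^ 2 * (U : PowerSeries R)) := by
      rw [h, Polynomial.coe_mul, Polynomial.coe_pow, Polynomial.coe_add, Polynomial.coe_mul,
        Polynomial.coe_pow]
      congr 4
      have h4 : (p : R[X]) = C (p : R) := (map_natCast C p).symm
      rw [h4, Polynomial.coe_C]
      exact map_natCast _ p
    rw [e1, e2, hf, mul_pow, hbin, hs]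
    obtain ⟨q, rfl⟩ : ∃ q, p = q + 1 := ⟨p - 1, by omega⟩
    rw [Nat.add_sub_cancel, pow_succ]
    linear_combination ((A : PowerSeries R) ^ q * ((q + 1 : ℕ) : PowerSeries R) ^ 2 *
      (U : PowerSeries R)) * hRW

end

end Pool.Agent.X184.SP
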