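import Mathlib

/-!
# The transform on polynomials that raises the zeros to the `p`-th power
-/

set_option autoImplicit false

open Polynomial

namespace Pool.Agent.X184.SP

section
variable {R : Type*} [CommRing R] (p : ℕ)

/-- the matrix of the multiplication by `y` on the basis `1, y, …, y ^ (p - 1)`, `y ^ p = X` -/
noncomputable def NN : Matrix (Fin p) (Fin p) R[X] :=
  Matrix.of fun i j => if (i : ℕ) = j + 1 then 1 else if (i : ℕ) + p = j + 1 then X else 0

lemma NN_apply (i j : Fin p) : (NN p : Matrix (Fin p) (Fin p) R[X]) i j =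
    if (i : ℕ) = j + 1 then 1 else if (i : ℕ) + p = j + 1 then X else 0 := rfl

lemma NN_pow (k : ℕ) (hk : k ≤ p) (i j : Fin p) : ((NN p : Matrix (Fin p) (Fin p) R[X]) ^ k) i j =
    if (i : ℕ) = j + k then 1 else if (i : ℕ) + p = j + k then X else 0 := by
  induction k generalizing i j with
  | zero =>
    rw [pow_zero, Matrix.one_apply]
    have hi := i.2
    have hj := j.2
    by_cases h : i = j
    · subst h
      simp
    · have h' : (i : ℕ) ≠ j := fun e => h (Fin.ext e)
      rw [if_neg h, add_zero, if_neg h', if_neg (by omega)]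
  | succ k ih =>
    rw [pow_succ, Matrix.mul_apply]
    have hi := i.2
    have hj := j.2
    by_cases hjp : (j : ℕ) + 1 < p
    · rw [Finset.sum_eq_single (⟨j + 1, hjp⟩ : Fin p)]
      · rw [ih (by omega), NN_apply]
        simp only [if_true, mul_one]
        congr 1
        · rw [eq_iff_iff]; constructor <;> intro h <;> omega
        · congr 1
          rw [eq_iff_iff]; constructor <;> intro h <;> omega
      · intro l _ hl
        have hl' : (l : ℕ) ≠ j + 1 := fun e => hl (Fin.ext e)
        have h2 : ¬ ((l : ℕ) + p = j + 1) := by omega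
        rw [NN_apply, if_neg hl', if_neg h2, mul_zero]
      · intro h
        exact absurd (Finset.mem_univ _) h
    · have hjp' : (j : ℕ) + 1 = p := by omega
      have hp0 : 0 < p := by omega
      rw [Finset.sum_eq_single (⟨0, hp0⟩ : Fin p)]
      · rw [ih (by omega), NN_apply]
        have h1 : ¬ (((⟨0, hp0⟩ : Fin p) : ℕ) = (j : ℕ) + 1) := by simp
        have h2 : ((⟨0, hp0⟩ : Fin p) : ℕ) + p = (j : ℕ) + 1 := by simp; omega
        rw [if_neg h1, if_pos h2]
        simp only [zero_add]
        by_cases h3 : (i : ℕ) = k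
        · rw [if_pos h3, one_mul, if_neg (by omega), if_pos (by omega)]
        · rw [if_neg h3, if_neg (by omega), zero_mul, if_neg (by omega), if_neg (by omega)]
      · intro l _ hl
        have hl' : (l : ℕ) ≠ 0 := fun e => hl (Fin.ext e)
        have hl2 := l.2
        rw [NN_apply, if_neg (by omega), if_neg (by omega), mul_zero]
      · intro h
        exact absurd (Finset.mem_univ _) h

lemma NN_pow_self (hp : 0 < p) : (NN p : Matrix (Fin p) (Fin p) R[X]) ^ p =
    algebraMap R[X] (Matrix (Fin p) (Fin p) R[X]) X := by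
  ext i j : 1
  rw [NN_pow p p le_rfl, Matrix.algebraMap_matrix_apply]
  have hi := i.2
  have hj := j.2
  by_cases h : i = j
  · subst h
    rw [if_neg (by omega)]
    simp
  · have h' : (i : ℕ) ≠ j := fun e => h (Fin.ext e)
    rw [if_neg (by omega), if_neg (by omega), if_neg h]

lemma charpoly_NN [Nontrivial R] (hp : 0 < p) :
    (NN p : Matrix (Fin p) (Fin p) R[X]).charpoly = X ^ p - C X := by
  set M : Matrix (Fin p) (Fin p) R[X] := NN p with hM
  have hm1 : M.charpoly.Monic := M.charpoly_monic
  have hd1 : M.charpoly.natDegree = p := by rw [M.charpoly_natDegree_eq_dim, Fintype.card_fin]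
  have hm2 : (X ^ p - C X : R[X][X]).Monic := monic_X_pow_sub_C X hp.ne'
  have hd2 : (X ^ p - C X : R[X][X]).natDegree = p := natDegree_X_pow_sub_C
  set q := M.charpoly - (X ^ p - C X) with hq
  have hqd : q.degree < (p : ℕ) := by
    have h1 : q.degree < M.charpoly.degree := by
      apply degree_sub_lt
      · rw [degree_eq_natDegree hm1.ne_zero, degree_eq_natDegree hm2.ne_zero, hd1, hd2]
      · exact hm1.ne_zero
      · rw [hm1.leadingCoeff, hm2.leadingCoeff]
    rwa [degree_eq_natDegree hm1.ne_zero, hd1] at h1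
  have hq0 : aeval M q = 0 := by
    rw [hq, map_sub, Matrix.aeval_self_charpoly, map_sub, map_pow, aeval_X, aeval_C,
      hM, NN_pow_self p hp, sub_self, sub_zero]
  have hqz : q = 0 := by
    ext1 k
    rw [coeff_zero]
    by_cases hk : k < p
    · have h1 := congrFun (congrFun hq0 ⟨k, hk⟩) ⟨0, hp⟩
      rw [aeval_eq_sum_range' (n := p) (by
        by_cases h0 : q = 0
        · rw [h0, natDegree_zero]; exact hp
        · exact (natDegree_lt_iff_degree_lt h0).mpr hqd), Matrix.sum_apply,
        Finset.sum_eq_single k] at h1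
      · rw [Matrix.smul_apply, hM, NN_pow p k hk.le] at h1
        simpa using h1
      · intro l hl hlk
        rw [Finset.mem_range] at hl
        rw [Matrix.smul_apply, hM, NN_pow p l hl.le, if_neg (by simp; omega),
          if_neg (by simp; omega), smul_zero]
      · intro h
        exact absurd (Finset.mem_range.mpr hk) h
    · apply coeff_eq_zero_of_degree_lt
      exact hqd.trans_le (by exact_mod_cast (by omega : p ≤ k))
  exact sub_eq_zero.mp hqz

lemma det_one_sub [Nontrivial R] (hp : 0 < p) (a : R[X]) :
    (1 - a • (NN p : Matrix (Fin p) (Fin p) R[X])).det = 1 - X * a ^ p := by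
  set M : Matrix (Fin p) (Fin p) R[X] := NN p with hM
  have h1 := Matrix.reverse_charpoly M
  rw [hM, charpoly_NN p hp, ← hM] at h1
  have h2 : (X ^ p - C X : R[X][X]).reverse = 1 - C X * X ^ p := by
    rw [reverse, natDegree_X_pow_sub_C, reflect_sub]
    congr 1
    · have := reflect_monomial (R := R[X]) p p
      rw [this, revAt_le le_rfl, Nat.sub_self, pow_zero]
    · have := reflect_C_mul_X_pow (R := R[X]) p 0 (c := X)
      rw [pow_zero, mul_one] at this
      rw [this, revAt_le (Nat.zero_le _), Nat.sub_zero]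
  rw [h2] at h1
  have h3 := congrArg (eval a) h1
  rw [eval_sub, eval_one, eval_mul, eval_C, eval_pow, eval_X] at h3
  rw [h3, Matrix.charpolyRev, ← coe_evalRingHom, RingHom.map_det]
  congr 1
  ext i j : 1
  simp only [Matrix.sub_apply, Matrix.smul_apply, Matrix.one_apply, RingHom.mapMatrix_apply,
    Matrix.map_apply, smul_eq_mul, coe_evalRingHom, eval_sub, eval_mul, eval_X, eval_C]
  split_ifs <;> simp

/-- the transform -/
noncomputable def grp (P : R[X]) : R[X] :=
  (aeval (NN p : Matrix (Fin p) (Fin p) R[X]) P).det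

lemma grp_mul (P Q : R[X]) : grp p (P * Q) = grp p P * grp p Q := by
  unfold grp
  rw [map_mul, Matrix.det_mul]

lemma grp_one : grp p (1 : R[X]) = 1 := by
  unfold grp
  rw [map_one, Matrix.det_one]

lemma grp_lin [Nontrivial R] (hp : 0 < p) (a : R) :
    grp p (1 - C a * X : R[X]) = 1 - C (a ^ p) * X := by
  unfold grp
  rw [map_sub, map_one, map_mul, aeval_C, aeval_X]
  have h1 : algebraMap R (Matrix (Fin p) (Fin p) R[X]) a * NN p = (C a : R[X]) • NN p := by
    rw [Algebra.algebraMap_eq_smul_one, smul_mul_assoc, one_mul]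
    ext i j : 1
    rw [Matrix.smul_apply, Matrix.smul_apply, Algebra.smul_def, Algebra.smul_def]
    rfl
  rw [h1, det_one_sub p hp, C_pow]
  ring

lemma grp_map {S : Type*} [CommRing S] (φ : R →+* S) (P : R[X]) :
    grp p (P.map φ) = (grp p P).map φ := by
  unfold grp
  rw [← coe_mapRingHom, RingHom.map_det, coe_mapRingHom]
  congr 1
  have h1 : (mapRingHom φ).mapMatrix (aeval (NN p : Matrix (Fin p) (Fin p) R[X]) P) =
      eval₂ (((mapRingHom φ).mapMatrix).comp (algebraMap R (Matrix (Fin p) (Fin p) R[X])))
        ((mapRingHom φ).mapMatrix (NN p)) P := by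
    rw [aeval_def, hom_eval₂]
  have h2 : (((mapRingHom φ).mapMatrix).comp (algebraMap R (Matrix (Fin p) (Fin p) R[X]))) =
      (algebraMap S (Matrix (Fin p) (Fin p) S[X])).comp φ := by
    ext x i j : 3
    simp only [RingHom.comp_apply, RingHom.mapMatrix_apply, Matrix.map_apply,
      Matrix.algebraMap_matrix_apply, Polynomial.algebraMap_apply, coe_mapRingHom]
    split_ifs <;> simp
  have h3 : (mapRingHom φ).mapMatrix (NN p : Matrix (Fin p) (Fin p) R[X]) = NN p := by
    ext i j : 1
    rw [RingHom.mapMatrix_apply, Matrix.map_apply, NN_apply, NN_apply]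
    split_ifs <;> simp
  rw [h1, h2, h3, aeval_def, eval₂_map]

end

end Pool.Agent.X184.SP
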