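import Mathlib
import Pool.Agent.X184.SP.E

/-!
# The transform on polynomials that raises the zeros to the `p`-th power: congruences
-/

set_option autoImplicit false

open Polynomial

namespace Pool.Agent.X184.SP

variable (p : ℕ) [hp : Fact p.Prime]

/-- in characteristic `p` -/
lemma grp_charp {R : Type*} [CommRing R] [IsDomain R] [CharP R p] (P : R[X]) (j : ℕ) :
    (grp p P).coeff j = (P.coeff j) ^ p := by
  set Q : R[X] := P.map (frobenius R p) with hQ
  have h1 : (grp p P) ^ p = Q ^ p := by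
    unfold grp
    rw [← Matrix.det_pow, ← map_pow, ← map_frobenius_expand (p := p), map_expand, expand_aeval,
      NN_pow_self p hp.out.pos, aeval_algebraMap_apply, aeval_X_left_apply,
      Matrix.algebraMap_eq_diagonal, Matrix.det_diagonal]
    simp [hQ]
  have h2 : grp p P = Q := frobenius_inj R[X] p h1
  rw [h2, hQ, coeff_map, frobenius_def]

/-- the generic polynomial of degree at most `n` -/
noncomputable def Pu (n : ℕ) : (MvPolynomial ℕ ℤ)[X] :=
  ∑ i ∈ Finset.range (n + 1), C (MvPolynomial.X i) * X ^ i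

lemma exists_theta (n j : ℕ) : ∃ θ : MvPolynomial ℕ ℤ,
    (grp p (Pu n)).coeff j = ((Pu n).coeff j) ^ p + p * θ := by
  have h1 : MvPolynomial.C (p : ℤ) ∣ (grp p (Pu n)).coeff j - ((Pu n).coeff j) ^ p := by
    rw [MvPolynomial.C_dvd_iff_zmod, map_sub, map_pow, ← coeff_map, ← coeff_map, ← grp_map,
      grp_charp, sub_self]
  obtain ⟨θ, hθ⟩ := h1
  refine ⟨θ, ?_⟩
  have h2 : (MvPolynomial.C (p : ℤ) : MvPolynomial ℕ ℤ) = (p : MvPolynomial ℕ ℤ) := by simp
  rw [h2] at hθ
  linear_combination hθ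

section
variable {R : Type*} [CommRing R]

/-- the specialisation -/
noncomputable def phi (P : R[X]) : MvPolynomial ℕ ℤ →+* R :=
  MvPolynomial.eval₂Hom (Int.castRingHom R) P.coeff

lemma Pu_map (P : R[X]) {n : ℕ} (hn : P.natDegree ≤ n) : (Pu n).map (phi P) = P := by
  unfold Pu
  rw [Polynomial.map_sum]
  conv_rhs => rw [P.as_sum_range' (n + 1) (by omega)]
  refine Finset.sum_congr rfl fun i _ => ?_
  rw [Polynomial.map_mul, Polynomial.map_C, Polynomial.map_pow, Polynomial.map_X,
    C_mul_X_pow_eq_monomial]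
  congr 1
  simp [phi]

lemma grp_coeff (P : R[X]) {n : ℕ} (hn : P.natDegree ≤ n) (j : ℕ) (θ : MvPolynomial ℕ ℤ)
    (hθ : (grp p (Pu n)).coeff j = ((Pu n).coeff j) ^ p + p * θ) :
    (grp p P).coeff j = (P.coeff j) ^ p + p * phi P θ := by
  have h1 := congrArg (phi P) hθ
  rw [← coeff_map, ← grp_map, Pu_map P hn, map_add, map_pow, ← coeff_map, Pu_map P hn, map_mul,
    map_natCast] at h1
  exact h1

lemma grp_congr1 (P : R[X]) (j : ℕ) : ∃ y : R, (grp p P).coeff j = (P.coeff j) ^ p + p * y := by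
  obtain ⟨θ, hθ⟩ := exists_theta p P.natDegree j
  exact ⟨_, grp_coeff p P le_rfl j θ hθ⟩

lemma grp_congr2 {P Q V : R[X]} (h : P = Q + p * V) : ∃ U : R[X],
    grp p P = grp p Q + (p : R[X]) ^ 2 * U := by
  have hcoef : ∀ j, P.coeff j = Q.coeff j + p * V.coeff j := by
    intro j
    have h1 := congrArg (fun T : R[X] => T.coeff j) h
    simp only [coeff_add, ← C_eq_natCast, coeff_C_mul] at h1
    exact h1
  have h1 : C ((p : R) ^ 2) ∣ grp p P - grp p Q := by
    rw [C_dvd_iff_dvd_coeff]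
    intro j
    set n := max P.natDegree Q.natDegree with hn
    obtain ⟨θ, hθ⟩ := exists_theta p n j
    rw [coeff_sub, grp_coeff p P (le_max_left _ _) j θ hθ, grp_coeff p Q (le_max_right _ _) j θ hθ]
    have h2 : (p : R) ^ (1 + 1) ∣ (P.coeff j) ^ p ^ 1 - (Q.coeff j) ^ p ^ 1 := by
      apply dvd_sub_pow_of_dvd_sub
      exact ⟨V.coeff j, by rw [hcoef j]; ring⟩
    have h3 : (p : R) ∣ phi P θ - phi Q θ := by
      rw [← Ideal.mem_span_singleton, ← Ideal.Quotient.mk_eq_mk_iff_sub_mem]
      have h4 : (Ideal.Quotient.mk (Ideal.span {(p : R)})).comp (phi P) =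
          (Ideal.Quotient.mk (Ideal.span {(p : R)})).comp (phi Q) := by
        apply MvPolynomial.ringHom_ext
        · intro m
          simp
        · intro i
          simp only [phi, RingHom.comp_apply, MvPolynomial.eval₂Hom_X']
          rw [Ideal.Quotient.mk_eq_mk_iff_sub_mem, Ideal.mem_span_singleton]
          exact ⟨V.coeff i, by rw [hcoef i]; ring⟩
      exact DFunLike.congr_fun h4 θ
    obtain ⟨a, ha⟩ := h2
    obtain ⟨b, hb⟩ := h3
    rw [pow_one] at ha
    exact ⟨a + b, by linear_combination ha + p * hb⟩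
  obtain ⟨U, hU⟩ := h1
  refine ⟨U, ?_⟩
  rw [C_pow, map_natCast] at hU
  linear_combination hU

end

end Pool.Agent.X184.SP
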