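import Mathlib
import Pool.Agent.X184.SP.C
import Pool.Agent.X184.SP.D
import Pool.Agent.X184.SP.F
import Pool.Agent.X184.SZ.M

/-!
# The main step over number fields
-/

set_option autoImplicit false

open Finset Polynomial Module NumberField IntermediateField Pool.Agent.X184.SZ

namespace Pool.Agent.X184.SP

section poly
variable {R : Type*} [CommRing R] (p : ℕ) [hp : Fact p.Prime]

/-- the coefficients of the iterated transform -/
lemma grp_iter_coeff (P : R[X]) (k j : ℕ) :
    ∃ y : R, ((grp p)^[k] P).coeff j = (P.coeff j) ^ (p ^ k) + p * y := by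
  induction k with
  | zero => exact ⟨0, by simp⟩
  | succ k ih =>
    obtain ⟨y, hy⟩ := ih
    obtain ⟨z, hz⟩ := grp_congr1 p ((grp p)^[k] P) j
    rw [Function.iterate_succ_apply', hz, hy]
    obtain ⟨w, hw⟩ := (sub_dvd_pow_sub_pow ((P.coeff j) ^ (p ^ k) + p * y) ((P.coeff j) ^ (p ^ k)) p)
    refine ⟨y * w + z, ?_⟩
    rw [pow_succ p k, pow_mul]
    linear_combination hw

/-- congruence modulo `p` of the iterated transforms -/
lemma grp_cong (σ : R →+* R) (a b : ℕ) (hσ : ∀ x, ∃ y, (σ x) ^ (p ^ a) = x ^ (p ^ b) + p * y)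
    (P : R[X]) : ∃ V, (grp p)^[b] P = (grp p)^[a] (P.map σ) + p * V := by
  have h1 : (C (p : R) : R[X]) ∣ (grp p)^[b] P - (grp p)^[a] (P.map σ) := by
    rw [C_dvd_iff_dvd_coeff]
    intro i
    obtain ⟨y, hy⟩ := grp_iter_coeff p P b i
    obtain ⟨y', hy'⟩ := grp_iter_coeff p (P.map σ) a i
    obtain ⟨w, hw⟩ := hσ (P.coeff i)
    rw [coeff_sub, hy, hy', coeff_map, hw]
    exact ⟨y - w - y', by ring⟩
  obtain ⟨V, hV⟩ := h1
  refine ⟨V, ?_⟩
  rw [map_natCast] at hV
  linear_combination hV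

/-- the image of the transform -/
lemma grp_map_prod {ι : Type*} [Fintype ι] (a : ι → ℂ) (φ : R →+* ℂ) (P : R[X])
    (hP : P.map φ = ∏ i, (1 - C (a i) * X)) :
    (grp p P).map φ = ∏ i, (1 - C (a i ^ p) * X) := by
  classical
  rw [← grp_map, hP]
  have h1 : ∀ s : Finset ι, grp p (∏ i ∈ s, (1 - C (a i) * X : ℂ[X])) =
      ∏ i ∈ s, (1 - C (a i ^ p) * X) := by
    intro s
    induction s using Finset.induction_on with
    | empty => rw [Finset.prod_empty, Finset.prod_empty, grp_one]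
    | insert i s hi ih => rw [Finset.prod_insert hi, Finset.prod_insert hi, grp_mul, ih,
        grp_lin p hp.out.pos]
  exact h1 Finset.univ

lemma grp_iter_map {ι : Type*} [Fintype ι] (a : ι → ℂ) (φ : R →+* ℂ) (P : R[X])
    (hP : P.map φ = ∏ i, (1 - C (a i) * X)) (k : ℕ) :
    ((grp p)^[k] P).map φ = ∏ i, (1 - C (a i ^ (p ^ k)) * X) := by
  induction k with
  | zero => simpa using hP
  | succ k ih =>
    rw [Function.iterate_succ_apply', grp_map_prod p _ φ _ ih]
    refine Finset.prod_congr rfl fun i _ => ?_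
    rw [← pow_mul, ← pow_succ]

omit hp in
lemma coeff_zero_of_map {ι : Type*} [Fintype ι] (a : ι → ℂ) (φ : R →+* ℂ)
    (hφ : Function.Injective φ) (P : R[X]) (hP : P.map φ = ∏ i, (1 - C (a i) * X)) :
    P.coeff 0 = 1 := by
  apply hφ
  rw [← coeff_map, hP, map_one, coeff_zero_eq_eval_zero, eval_prod]
  simp

/-- the image of a root -/
lemma map_root (φ : R →+* ℂ) {A B : R[X]} {c : ℕ → R}
    (hc : (PowerSeries.mk c) ^ p = ((A ^ (p - 1) * B : R[X]) : PowerSeries R)) :
    (PowerSeries.mk fun n => φ (c n)) ^ p =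
      (((A.map φ) ^ (p - 1) * (B.map φ) : ℂ[X]) : PowerSeries ℂ) := by
  have h1 := congrArg (PowerSeries.map φ) hc
  rw [map_pow, ← Polynomial.polynomial_map_coe, Polynomial.map_mul, Polynomial.map_pow] at h1
  rw [← h1]
  congr 1

end poly

open H904L2.NotSquare in
/-- if the product is a `p`-th power, the zeros of the first factor are zeros of the second one -/
lemma pow_imp {κ κ' : Type} [Fintype κ] [Fintype κ'] {p : ℕ} (hp : 2 ≤ p) (b : κ → ℂ) (b' : κ' → ℂ)
    (h0 : ∀ i, b i ≠ 0) (h0' : ∀ i, b' i ≠ 0) (hinj : Function.Injective b) (P Q : ℂ[X])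
    (hQ : Q ≠ 0)
    (heq : Q ^ p * ((∏ i, (1 - C (b i) * X)) ^ (p - 1) * ∏ i, (1 - C (b' i) * X)) = P ^ p) :
    ∀ i, ∃ j, b' j = b i := by
  classical
  have hA : (∏ i, (1 - C (b i) * X) : ℂ[X]) ≠ 0 :=
    Finset.prod_ne_zero_iff.mpr fun i _ => fac_ne _ (h0 i)
  have hB : (∏ i, (1 - C (b' i) * X) : ℂ[X]) ≠ 0 :=
    Finset.prod_ne_zero_iff.mpr fun i _ => fac_ne _ (h0' i)
  have hroots := congrArg Polynomial.roots heq
  rw [roots_mul (mul_ne_zero (pow_ne_zero p hQ) (mul_ne_zero (pow_ne_zero _ hA) hB)),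
    roots_mul (mul_ne_zero (pow_ne_zero _ hA) hB), roots_pow, roots_pow, roots_pow] at hroots
  intro i
  have hc := congrArg (Multiset.count (b i)⁻¹) hroots
  rw [Multiset.count_add, Multiset.count_add, Multiset.count_nsmul, Multiset.count_nsmul,
    Multiset.count_nsmul, count_prod _ h0, count_prod _ h0'] at hc
  have h1 : (Finset.univ.filter fun j => (b i)⁻¹ = (b j)⁻¹) = {i} := by
    ext j
    simp only [Finset.mem_filter, Finset.mem_univ, true_and, Finset.mem_singleton, inv_inj]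
    constructor
    · intro h
      exact (hinj h).symm
    · rintro rfl
      rfl
  rw [h1, Finset.card_singleton, mul_one] at hc
  have hpos : 0 < (Finset.univ.filter fun j => (b i)⁻¹ = (b' j)⁻¹).card := by
    by_contra hneg
    have h2 : (Finset.univ.filter fun j => (b i)⁻¹ = (b' j)⁻¹).card = 0 := by omega
    rw [h2, add_zero] at hc
    have h3 : p ∣ p - 1 := by
      rw [← Nat.dvd_add_right (Dvd.intro _ rfl : p ∣ p * Multiset.count (b i)⁻¹ Q.roots), hc]
      exact Dvd.intro _ rfl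
    have h4 := Nat.le_of_dvd (by omega) h3
    omega
  obtain ⟨j, hj⟩ := Finset.card_pos.mp hpos
  simp only [Finset.mem_filter, Finset.mem_univ, true_and, inv_inj] at hj
  exact ⟨j, hj.symm⟩

end Pool.Agent.X184.SP
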