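import Mathlib
import Pool.Agent.X184.SP.G

/-!
# The main step over number fields, general primes
-/

set_option autoImplicit false

open Finset Polynomial Module NumberField IntermediateField Pool.Agent.X184.SZ

namespace Pool.Agent.X184.SP

lemma evF_inj {F : Type} [Field F] [NumberField F] (s : F →ₐ[ℚ] ℂ) :
    Function.Injective (evF s) := by
  intro x y h
  exact RingOfIntegers.ext (s.toRingHom.injective h)

/-- the weight of a long spike -/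
lemma hf_pow' {p : ℕ} (hp : 2 ≤ p) {k : ℕ} (hk : 0 < k) {x : ℝ} (hx : 0 ≤ x) :
    hf (((p ^ k : ℕ) : ℝ) * x) ≤ ((p ^ k : ℕ) : ℝ) ^ 2 * SZ.hp x := by
  apply hf_mul _ hx
  have : 2 ^ 1 ≤ p ^ k := (Nat.pow_le_pow_left hp 1).trans (Nat.pow_le_pow_right (by omega) hk)
  exact_mod_cast this

section field
variable {F E : Type} [Field F] [NumberField F] [Field E] [NumberField E] [Algebra F E]
  (p : ℕ) [hp : Fact p.Prime]

open Classical in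
/-- the main step: a bound, or the zeros of the two transforms agree -/
theorem coreP (σ : F →ₐ[ℚ] F) (a b : ℕ)
    (hσ : ∀ x : 𝓞 F, ∃ y : 𝓞 F, (σ x) ^ (p ^ a) = (x : F) ^ (p ^ b) + p * y) {α : E}
    (hα : IsIntegral ℤ α) (h0 : α ≠ 0) (hgen : F⟮α⟯ = ⊤)
    (hinj : ∀ τ τ' : E →ₐ[ℚ] ℂ, (rs τ : F →ₐ[ℚ] ℂ) = rs τ' →
      (τ α) ^ (p ^ (a + 1)) = (τ' α) ^ (p ^ (a + 1)) → τ = τ') :
    1 / (32 * ((p : ℝ) ^ (2 * (a + 1)) + (p : ℝ) ^ (2 * (b + 1)))) ≤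
      (finrank F E : ℝ) * HH α / finrank ℚ F ∨
    ∀ τ : E →ₐ[ℚ] ℂ, ∃ τ' : E →ₐ[ℚ] ℂ, (rs τ : F →ₐ[ℚ] ℂ) = (rs τ' : F →ₐ[ℚ] ℂ).comp σ ∧
      (τ' α) ^ (p ^ (b + 1)) = (τ α) ^ (p ^ (a + 1)) := by
  by_contra hcon'
  push Not at hcon'
  obtain ⟨hcon, τ₀, hτ₀⟩ := hcon'
  have hp2 : 2 ≤ p := hp.out.two_le
  have hN : (0:ℝ) < finrank ℚ F := by exact_mod_cast (finrank_pos : 0 < finrank ℚ F)
  rw [div_lt_iff₀ hN] at hcon
  set D : ℝ := (finrank F E : ℝ) with hD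
  haveI : FiniteDimensional F E := FiniteDimensional.right ℚ F E
  have hD1 : 1 ≤ D := by
    rw [hD]; exact_mod_cast (finrank_pos : 0 < finrank F E)
  obtain ⟨P, hP0, hP⟩ := exists_P (F := F) hα hgen
  set sR : 𝓞 F →+* 𝓞 F := RingOfIntegers.mapRingHom σ.toRingHom with hsR
  have hsR_apply : ∀ x : 𝓞 F, ((sR x : 𝓞 F) : F) = σ x := fun x => rfl
  have hσ' : ∀ x : 𝓞 F, ∃ y : 𝓞 F, (sR x) ^ (p ^ a) = x ^ (p ^ b) + p * y := by
    intro x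
    obtain ⟨y, hy⟩ := hσ x
    refine ⟨y, ?_⟩
    apply RingOfIntegers.ext
    have h1 : algebraMap (𝓞 F) F ((sR x) ^ (p ^ a)) = (σ x) ^ (p ^ a) := by
      rw [map_pow]; rfl
    have h2 : algebraMap (𝓞 F) F (x ^ (p ^ b) + p * y) = (x : F) ^ (p ^ b) + p * (y : F) := by
      rw [map_add, map_mul, map_pow, map_natCast]
    change algebraMap (𝓞 F) F ((sR x) ^ (p ^ a)) = algebraMap (𝓞 F) F (x ^ (p ^ b) + p * y)
    rw [h1, h2, hy]
  set π : (F →ₐ[ℚ] ℂ) → (F →ₐ[ℚ] ℂ) := fun s => s.comp σ with hπ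
  have hσb : Function.Bijective σ := by
    have h1 : Function.Injective σ := σ.toRingHom.injective
    exact ⟨h1, LinearMap.injective_iff_surjective (f := σ.toLinearMap) |>.mp h1⟩
  have hπi : Function.Injective π := by
    intro s s' h
    ext x
    obtain ⟨y, rfl⟩ := hσb.2 x
    exact DFunLike.congr_fun h y
  have hπb : Function.Bijective π := Finite.injective_iff_bijective.mp hπi
  have hevs : ∀ s : F →ₐ[ℚ] ℂ, (evF s).comp sR = evF (π s) := fun s => RingHom.ext fun x => rfl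
  obtain ⟨V, hV⟩ := grp_cong p sR a b hσ' P
  obtain ⟨U, hU⟩ := grp_congr2 p hV
  have hsF : ∀ s : F →ₐ[ℚ] ℂ, (P.map sR).map (evF s) =
      ∏ τ : {τ // τ ∈ cl (E := E) (π s)}, (1 - C ((τ : E →ₐ[ℚ] ℂ) α) * X) := by
    intro s
    rw [Polynomial.map_map, hevs, hP]
  have hA : ∀ s : F →ₐ[ℚ] ℂ, ((grp p)^[a + 1] (P.map sR)).map (evF s) =
      ∏ τ : {τ // τ ∈ cl (E := E) (π s)}, (1 - C (((τ : E →ₐ[ℚ] ℂ) α) ^ (p ^ (a + 1))) * X) :=
    fun s => grp_iter_map p _ (evF s) _ (hsF s) (a + 1)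
  have hB : ∀ s : F →ₐ[ℚ] ℂ, ((grp p)^[b + 1] P).map (evF s) =
      ∏ τ : {τ // τ ∈ cl (E := E) s}, (1 - C (((τ : E →ₐ[ℚ] ℂ) α) ^ (p ^ (b + 1))) * X) :=
    fun s => grp_iter_map p _ (evF s) _ (hP s) (b + 1)
  have hAB : (grp p)^[b + 1] P = (grp p)^[a + 1] (P.map sR) + (p : (𝓞 F)[X]) ^ 2 * U := by
    rw [Function.iterate_succ_apply', Function.iterate_succ_apply']
    exact hU
  haveI hne1 : Nonempty (F →ₐ[ℚ] ℂ) := by
    rw [← Fintype.card_pos_iff, AlgHom.card ℚ F ℂ]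
    exact finrank_pos
  obtain ⟨s₁⟩ := hne1
  obtain ⟨c, hc0, hc⟩ := exists_root (p := p) hp2 ((grp p)^[a + 1] (P.map sR))
    ((grp p)^[b + 1] P) U
    (coeff_zero_of_map _ (evF s₁) (evF_inj s₁) _ (hA s₁))
    (coeff_zero_of_map _ (evF s₁) (evF_inj s₁) _ (hB s₁)) hAB
  haveI hne1 : Nonempty (F →ₐ[ℚ] ℂ) := ⟨s₁⟩
  haveI hne : ∀ s : F →ₐ[ℚ] ℂ, Nonempty {τ // τ ∈ cl (E := E) s} := by
    intro s
    have h1 : 0 < (cl (E := E) s).card := by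
      rw [card_cl]; exact finrank_pos
    obtain ⟨τ, hτ⟩ := Finset.card_pos.mp h1
    exact ⟨⟨τ, hτ⟩⟩
  have hα0 : ∀ τ : E →ₐ[ℚ] ℂ, τ α ≠ 0 := fun τ => by
    rw [Ne, map_eq_zero]; exact h0
  set A : ∀ s : F →ₐ[ℚ] ℂ, ({τ // τ ∈ cl (E := E) (π s)} ⊕ {τ // τ ∈ cl (E := E) s}) → ℂ :=
    fun s => Sum.elim (fun τ => ((τ : E →ₐ[ℚ] ℂ) α) ^ (p ^ (a + 1)))
      (fun τ => ((τ : E →ₐ[ℚ] ℂ) α) ^ (p ^ (b + 1))) with hAdef
  set k : ∀ s : F →ₐ[ℚ] ℂ, ({τ // τ ∈ cl (E := E) (π s)} ⊕ {τ // τ ∈ cl (E := E) s}) → ℕ :=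
    fun s => Sum.elim (fun _ => p - 1) (fun _ => 1) with hkdef
  have hprod : ∀ s : F →ₐ[ℚ] ℂ, (∏ i, (1 - C (A s i) * X) ^ (k s i) : ℂ[X]) =
      (∏ τ : {τ // τ ∈ cl (E := E) (π s)},
        (1 - C (((τ : E →ₐ[ℚ] ℂ) α) ^ (p ^ (a + 1))) * X)) ^ (p - 1) *
      ∏ τ : {τ // τ ∈ cl (E := E) s}, (1 - C (((τ : E →ₐ[ℚ] ℂ) α) ^ (p ^ (b + 1))) * X) := by
    intro s
    rw [Fintype.prod_sum_type]
    simp only [hAdef, hkdef, Sum.elim_inl, Sum.elim_inr, pow_one]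
    rw [Finset.prod_pow]
  have hsumL : ∀ s : F →ₐ[ℚ] ℂ, ∑ i, hf (Real.posLog ‖A s i‖) ≤
      ((p ^ (a + 1) : ℕ) : ℝ) ^ 2 * (∑ τ ∈ cl (E := E) (π s), SZ.hp (Real.posLog ‖τ α‖)) +
      ((p ^ (b + 1) : ℕ) : ℝ) ^ 2 * (∑ τ ∈ cl (E := E) s, SZ.hp (Real.posLog ‖τ α‖)) := by
    intro s
    rw [Fintype.sum_sum_type]
    simp only [hAdef, Sum.elim_inl, Sum.elim_inr, norm_pow, Real.posLog_pow]
    rw [Finset.mul_sum, Finset.mul_sum,
      ← Finset.sum_coe_sort (cl (E := E) (π s))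
        (fun τ => ((p ^ (a + 1) : ℕ) : ℝ) ^ 2 * SZ.hp (Real.posLog ‖τ α‖)),
      ← Finset.sum_coe_sort (cl (E := E) s)
        (fun τ => ((p ^ (b + 1) : ℕ) : ℝ) ^ 2 * SZ.hp (Real.posLog ‖τ α‖))]
    apply add_le_add
    · apply Finset.sum_le_sum
      intro τ _
      exact hf_pow' hp2 (Nat.succ_pos a) Real.posLog_nonneg
    · apply Finset.sum_le_sum
      intro τ _
      exact hf_pow' hp2 (Nat.succ_pos b) Real.posLog_nonneg
  set W : ℝ := (p : ℝ) ^ (2 * (a + 1)) + (p : ℝ) ^ (2 * (b + 1)) with hW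
  have hW0 : 0 < W := by
    have : (0:ℝ) < p := by exact_mod_cast hp.out.pos
    positivity
  have htot : ∑ s : F →ₐ[ℚ] ℂ, ∑ i, hf (Real.posLog ‖A s i‖) ≤ W * HH α := by
    refine (Finset.sum_le_sum fun s _ => hsumL s).trans (le_of_eq ?_)
    rw [Finset.sum_add_distrib, ← Finset.mul_sum, ← Finset.mul_sum,
      hπb.sum_comp (fun s : F →ₐ[ℚ] ℂ => ∑ τ ∈ cl (E := E) s, SZ.hp (Real.posLog ‖τ α‖)),
      sum_cl (F := F) (fun τ : E →ₐ[ℚ] ℂ => SZ.hp (Real.posLog ‖τ α‖))]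
    unfold HH
    rw [hW]
    push_cast
    ring
  have hcardF : Fintype.card (F →ₐ[ℚ] ℂ) = finrank ℚ F := AlgHom.card ℚ F ℂ
  have hkey := AT2P (R := 𝓞 F) (fun s : F →ₐ[ℚ] ℂ => evF s) (fun x hx => norm_evF x hx)
    (ι := fun s : F →ₐ[ℚ] ℂ => {τ // τ ∈ cl (E := E) (π s)} ⊕ {τ // τ ∈ cl (E := E) s})
    (n := 2 * D)
    (by
      intro s
      rw [Fintype.card_sum, Fintype.card_coe, Fintype.card_coe, Nat.cast_add, card_cl, card_cl, hD]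
      ring)
    A
    (by
      intro s i
      rcases i with i | i
      · exact pow_ne_zero _ (hα0 _)
      · exact pow_ne_zero _ (hα0 _))
    hp.out.pos k
    (by
      intro s i
      rcases i with i | i
      · simp only [hkdef, Sum.elim_inl]
        omega
      · simp only [hkdef, Sum.elim_inr]
        omega)
    c hc0
    (by
      intro s
      rw [map_root p (evF s) hc, hA, hB, hprod])
    (by
      rw [hcardF]
      have h1 : 2 * D * (∑ s : F →ₐ[ℚ] ℂ, ∑ i, hf (Real.posLog ‖A s i‖)) ≤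
          2 * D * (W * HH α) := mul_le_mul_of_nonneg_left htot (by linarith)
      refine lt_of_le_of_lt h1 ?_
      have h3 : 1 / (32 * W) * (finrank ℚ F : ℝ) * (2 * W) = (finrank ℚ F : ℝ) / 16 := by
        field_simp
        norm_num
      rw [← h3]
      have h4 : 2 * D * (W * HH α) = D * HH α * (2 * W) := by ring
      rw [h4]
      exact mul_lt_mul_of_pos_right hcon (by positivity))
  -- the contradiction
  obtain ⟨s, hs⟩ := hπb.2 (rs τ₀ : F →ₐ[ℚ] ℂ)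
  obtain ⟨P', Q', hQ', hPQ⟩ := hkey s
  rw [hprod] at hPQ
  have h1 := pow_imp hp2
    (fun τ : {τ // τ ∈ cl (E := E) (π s)} => ((τ : E →ₐ[ℚ] ℂ) α) ^ (p ^ (a + 1)))
    (fun τ : {τ // τ ∈ cl (E := E) s} => ((τ : E →ₐ[ℚ] ℂ) α) ^ (p ^ (b + 1)))
    (fun i => pow_ne_zero _ (hα0 _)) (fun i => pow_ne_zero _ (hα0 _))
    (by
      intro τ₁ τ₂ h
      have h2 := mem_cl.mp τ₁.2
      have h3 := mem_cl.mp τ₂.2
      exact Subtype.ext (hinj _ _ (h2.trans h3.symm) h))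
    P' Q' hQ' hPQ ⟨τ₀, mem_cl.mpr hs.symm⟩
  obtain ⟨⟨τ', hτ'⟩, h4⟩ := h1
  refine hτ₀ τ' ?_ h4
  rw [mem_cl.mp hτ', ← hs]

end field

end Pool.Agent.X184.SP
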