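import Mathlib
import Pool.Agent.X184.SP.H
import Pool.Agent.X184.SZ.N

/-!
# Reduction to the case that the `p`-power maps are injective on the conjugates
-/

set_option autoImplicit false

open Finset Polynomial Module NumberField IntermediateField Pool.Agent.X184.SZ

namespace Pool.Agent.X184.SP

/-- Kummer theory: if the first step is trivial, the second is trivial -/
theorem kummer_step {F E : Type} [Field F] [Field E] [Algebra F E] [FiniteDimensional F E] {p : ℕ}
    (hp : p.Prime) {ρ₀ : F} (hρ : IsPrimitiveRoot ρ₀ (p ^ 2)) {α : E} (h0 : α ≠ 0)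
    (h : α ∈ F⟮α ^ p⟯) : α ^ p ∈ F⟮α ^ (p ^ 2)⟯ := by
  by_contra hβ
  set β : E := α ^ p with hβdef
  have hβ0 : β ≠ 0 := pow_ne_zero _ h0
  have hβp : β ^ p = α ^ (p ^ 2) := by rw [hβdef, ← pow_mul, sq]
  set F2 := F⟮α ^ (p ^ 2)⟯ with hF2
  set γ : F2 := AdjoinSimple.gen F (α ^ (p ^ 2)) with hγ
  have hγβ : algebraMap F2 E γ = β ^ p := by
    rw [hβp]; exact AdjoinSimple.algebraMap_gen F (α ^ (p ^ 2))
  have hω : IsPrimitiveRoot (ρ₀ ^ p) p := hρ.pow (by have := hp.pos; positivity) (by rw [sq])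
  have hωE : IsPrimitiveRoot (algebraMap F E (ρ₀ ^ p)) p :=
    hω.map_of_injective (f := algebraMap F E) (algebraMap F E).injective
  have hFmem : ∀ x : F, algebraMap F E x ∈ F2 := fun x => F2.algebraMap_mem x
  haveI : NeZero p := ⟨hp.ne_zero⟩
  haveI : FiniteDimensional F2 E := FiniteDimensional.right F F2 E
  have hint : IsIntegral F2 β := Algebra.IsIntegral.isIntegral β
  have hirr : Irreducible (X ^ p - C γ : F2[X]) := by
    apply _root_.X_pow_sub_C_irreducible_of_prime hp
    intro b hb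
    have h1 : (algebraMap F2 E b) ^ p = β ^ p := by rw [← map_pow, hb, hγβ]
    have h2 : (algebraMap F2 E b / β) ^ p = 1 := by rw [div_pow, h1, div_self (pow_ne_zero _ hβ0)]
    obtain ⟨i, -, hi⟩ := hωE.eq_pow_of_pow_eq_one h2
    have h3 : algebraMap F2 E b = (algebraMap F E (ρ₀ ^ p)) ^ i * β := by
      rw [hi, div_mul_cancel₀ _ hβ0]
    have hne : (algebraMap F E (ρ₀ ^ p)) ^ i ≠ 0 := pow_ne_zero _ (hωE.ne_zero hp.ne_zero)
    apply hβ
    have h4 : β = ((algebraMap F E (ρ₀ ^ p)) ^ i)⁻¹ * algebraMap F2 E b := by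
      rw [h3, ← mul_assoc, inv_mul_cancel₀ hne, one_mul]
    rw [h4]
    exact mul_mem (inv_mem (pow_mem (hFmem _) i)) b.2
  have hmin : minpoly F2 β = X ^ p - C γ := by
    symm
    apply minpoly.eq_of_irreducible_of_monic hirr
    · rw [map_sub, map_pow, aeval_X, aeval_C, hγβ, sub_self]
    · exact monic_X_pow_sub_C γ hp.ne_zero
  set ω : E := algebraMap F E (ρ₀ ^ p) with hωdef
  have hroot : (ω * β) ∈ (minpoly F2 β).aroots E := by
    rw [mem_aroots, hmin]
    refine ⟨X_pow_sub_C_ne_zero hp.pos _, ?_⟩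
    rw [map_sub, map_pow, aeval_X, aeval_C, hγβ, mul_pow, hωE.pow_eq_one, one_mul, sub_self]
  set g : F2⟮β⟯ →ₐ[F2] E := (algHomAdjoinIntegralEquiv F2 hint).symm ⟨ω * β, hroot⟩ with hg
  have hgβ : g (AdjoinSimple.gen F2 β) = ω * β := by
    rw [hg, algHomAdjoinIntegralEquiv_symm_apply_gen]
  have hαmem : α ∈ F2⟮β⟯ := by
    have h3 : F⟮β⟯ ≤ (F2⟮β⟯).restrictScalars F := by
      rw [adjoin_simple_le_iff]
      exact mem_adjoin_simple_self F2 β
    exact h3 h
  set α' : F2⟮β⟯ := ⟨α, hαmem⟩ with hα'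
  have hα'p : α' ^ p = AdjoinSimple.gen F2 β := Subtype.ext rfl
  have h1 : (g α' / α) ^ p = ω := by
    rw [div_pow, ← map_pow, hα'p, hgβ, ← hβdef, mul_div_assoc, div_self hβ0, mul_one]
  have h2 : (g α' / α) ^ (p ^ 2) = 1 := by
    rw [sq, pow_mul, h1, hωE.pow_eq_one]
  have hρE : IsPrimitiveRoot (algebraMap F E ρ₀) (p ^ 2) :=
    hρ.map_of_injective (f := algebraMap F E) (algebraMap F E).injective
  haveI : NeZero (p ^ 2) := ⟨pow_ne_zero _ hp.ne_zero⟩
  obtain ⟨t, -, ht⟩ := hρE.eq_pow_of_pow_eq_one h2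
  set r : F2 := algebraMap F F2 (ρ₀ ^ t) with hr
  have hrE : algebraMap F2 E r = g α' / α := by
    rw [← ht, hr, ← IsScalarTower.algebraMap_apply F F2 E, map_pow]
  have hr0 : r ≠ 0 := by
    rw [hr, Ne, map_eq_zero]
    exact pow_ne_zero _ (hρ.ne_zero (pow_ne_zero _ hp.ne_zero))
  set m := minpoly F2 α with hm
  have hαint : IsIntegral F2 α := Algebra.IsIntegral.isIntegral α
  have hm1 : m.Monic := minpoly.monic hαint
  have h3 : aeval (g α') m = 0 := by
    have h4 : aeval α' m = 0 := by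
      apply (algebraMap F2⟮β⟯ E).injective
      rw [map_zero, ← aeval_algebraMap_apply]
      exact minpoly.aeval F2 α
    rw [aeval_algHom_apply, h4, map_zero]
  have h4 : aeval α (scaleRoots m r⁻¹) = 0 := by
    have h5 := scaleRoots_aeval_eq_zero (r := r⁻¹) h3
    rwa [map_inv₀, hrE, inv_div, div_mul_cancel₀] at h5
    rw [Ne, map_eq_zero]
    intro h6
    apply h0
    exact congrArg (algebraMap F2⟮β⟯ E) h6
  have h5 : scaleRoots m r⁻¹ = m := by
    apply eq_of_monic_of_dvd_of_natDegree_le hm1 ((monic_scaleRoots_iff _).mpr hm1)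
      (minpoly.dvd F2 α h4)
    rw [natDegree_scaleRoots]
  have h6 := congrArg (fun Q : F2[X] => Q.coeff 0) h5
  simp only [coeff_scaleRoots, Nat.sub_zero] at h6
  have h7 : m.coeff 0 ≠ 0 := minpoly.coeff_zero_ne_zero hαint h0
  have h8 : r ^ m.natDegree = 1 := by
    have h9 : (r⁻¹) ^ m.natDegree = 1 := mul_left_cancel₀ h7 (by rw [h6, mul_one])
    rw [inv_pow] at h9
    exact inv_eq_one.mp h9
  have h9 : (g α' / α) ^ m.natDegree = 1 := by rw [← hrE, ← map_pow, h8, map_one]
  have h10 : ω ^ m.natDegree = 1 := by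
    rw [← h1, ← pow_mul, mul_comm, pow_mul, h9, one_pow]
  obtain ⟨e, he⟩ := hωE.dvd_of_pow_eq_one _ h10
  have h11 : ω ^ e = 1 := by rw [← h1, ← pow_mul, ← he, h9]
  have h12 := hωE.dvd_of_pow_eq_one _ h11
  have h13 : 0 < m.natDegree := minpoly.natDegree_pos hαint
  have h14 : m.natDegree ≤ p := by
    have h15 : m = minpoly F2 α' := by
      rw [hm]
      exact (minpoly.algebraMap_eq (algebraMap F2⟮β⟯ E).injective α')
    rw [h15]
    refine (minpoly.natDegree_le α').trans ?_
    rw [adjoin.finrank hint, hmin, natDegree_X_pow_sub_C]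
  have he0 : 0 < e := by
    rcases Nat.eq_zero_or_pos e with h | h
    · rw [h, mul_zero] at he; omega
    · exact h
  have h16 := Nat.le_of_dvd he0 h12
  have h17 : p * p ≤ p * e := Nat.mul_le_mul_left p h16
  have h18 := hp.two_le
  nlinarith

theorem kummer_all {F E : Type} [Field F] [Field E] [Algebra F E] [FiniteDimensional F E] {p : ℕ}
    (hp : p.Prime) {ρ₀ : F} (hρ : IsPrimitiveRoot ρ₀ (p ^ 2)) {α : E} (h0 : α ≠ 0)
    (h : α ∈ F⟮α ^ p⟯) (k : ℕ) : α ∈ F⟮α ^ (p ^ k)⟯ := by
  have h1 : ∀ k : ℕ, α ^ (p ^ k) ∈ F⟮α ^ (p ^ (k + 1))⟯ := by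
    intro k
    induction k with
    | zero => rw [pow_zero, pow_one, pow_one]; exact h
    | succ k ih =>
      have h2 := kummer_step hp hρ (pow_ne_zero (p ^ k) h0) (by
        rw [← pow_mul, ← pow_succ]; exact ih)
      rw [← pow_mul, ← pow_mul, ← pow_succ, ← pow_add] at h2
      exact h2
  have h2 : ∀ k : ℕ, F⟮α⟯ ≤ F⟮α ^ (p ^ k)⟯ := by
    intro k
    induction k with
    | zero => rw [pow_zero, pow_one]
    | succ k ih =>
      refine ih.trans ?_
      rw [adjoin_simple_le_iff]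
      exact h1 k
  exact h2 k (mem_adjoin_simple_self F α)

lemma irr_of {F E : Type} [Field F] [Field E] [Algebra F E] {p : ℕ} (hp : p.Prime) {ω : F}
    (hω : IsPrimitiveRoot ω p) {β : E} (hβ0 : β ≠ 0) (F2 : IntermediateField F E) (γ : F2)
    (hγβ : algebraMap F2 E γ = β ^ p) (hβ : β ∉ F2) : Irreducible (X ^ p - C γ : F2[X]) := by
  have hωE : IsPrimitiveRoot (algebraMap F E ω) p :=
    hω.map_of_injective (f := algebraMap F E) (algebraMap F E).injective
  have : NeZero p := ⟨hp.ne_zero⟩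
  apply _root_.X_pow_sub_C_irreducible_of_prime hp
  intro b hb
  have h1 : (algebraMap F2 E b) ^ p = β ^ p := by rw [← map_pow, hb, hγβ]
  have h2 : (algebraMap F2 E b / β) ^ p = 1 := by rw [div_pow, h1, div_self (pow_ne_zero _ hβ0)]
  obtain ⟨i, -, hi⟩ := hωE.eq_pow_of_pow_eq_one h2
  have h3 : algebraMap F2 E b = (algebraMap F E ω) ^ i * β := by
    rw [hi, div_mul_cancel₀ _ hβ0]
  have hne : (algebraMap F E ω) ^ i ≠ 0 := pow_ne_zero _ (hωE.ne_zero hp.ne_zero)
  apply hβ
  have h4 : β = ((algebraMap F E ω) ^ i)⁻¹ * algebraMap F2 E b := by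
    rw [h3, ← mul_assoc, inv_mul_cancel₀ hne, one_mul]
  rw [h4]
  exact mul_mem (inv_mem (pow_mem (F2.algebraMap_mem _) i)) b.2

lemma hp_mul {n : ℕ} (hn : 1 ≤ n) {x : ℝ} (hx : 0 ≤ x) :
    SZ.hp ((n : ℝ) * x) ≤ (n : ℝ) ^ 2 * SZ.hp x := by
  have hn' : (1:ℝ) ≤ n := by exact_mod_cast hn
  have hn2 : (n : ℝ) ≤ (n : ℝ) ^ 2 := by nlinarith
  unfold SZ.hp
  have hπ := Real.pi_pos
  have hπx : 0 ≤ Real.pi * x := by positivity
  rcases le_total (x ^ 2) (Real.pi * x) with h | h
  · rw [min_eq_left h]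
    refine (min_le_left _ _).trans (le_of_eq ?_)
    ring
  · rw [min_eq_right h]
    refine (min_le_right _ _).trans ?_
    calc Real.pi * ((n : ℝ) * x) = (n : ℝ) * (Real.pi * x) := by ring
      _ ≤ (n : ℝ) ^ 2 * (Real.pi * x) := mul_le_mul_of_nonneg_right hn2 hπx

/-- it suffices to treat the elements such that the `p`-power maps are injective on the conjugates -/
theorem bdP_of {F : Type} [Field F] [NumberField F] {c : ℝ} {p : ℕ} (hpp : p.Prime) {ρ₀ : F}
    (hρ : IsPrimitiveRoot ρ₀ (p ^ 2))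
    (h : ∀ (E : Type) [Field E] [NumberField E] [Algebra F E] (α : E), IsIntegral ℤ α → α ≠ 0 →
      (∀ n : ℕ, 0 < n → α ^ n ≠ 1) → F⟮α⟯ = ⊤ → (∀ k : ℕ, α ∈ F⟮α ^ (p ^ k)⟯) →
      c ≤ (finrank F E : ℝ) * HH α / finrank ℚ F) : Bd F c := by
  classical
  suffices H : ∀ (n : ℕ) (E : Type) [Field E] [NumberField E] [Algebra F E] (α : E),
      finrank F E = n → IsIntegral ℤ α → α ≠ 0 → (∀ n : ℕ, 0 < n → α ^ n ≠ 1) → F⟮α⟯ = ⊤ →
      c ≤ (finrank F E : ℝ) * HH α / finrank ℚ F by
    intro E _ _ _ α hα h0 hroot hgen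
    exact H _ E α rfl hα h0 hroot hgen
  intro n
  induction n using Nat.strong_induction_on with
  | _ n ih =>
    intro E _ _ _ α hn hα h0 hroot hgen
    haveI : FiniteDimensional F E := FiniteDimensional.right ℚ F E
    by_cases hinj : α ∈ F⟮α ^ p⟯
    · exact h E α hα h0 hroot hgen (kummer_all hpp hρ h0 hinj)
    -- the subfield generated by the `p`-th power
    set E' := F⟮α ^ p⟯ with hE'
    haveI : FiniteDimensional F E' := inferInstance
    haveI : FiniteDimensional ℚ E' := Module.Finite.trans F E'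
    haveI : NumberField E' := { to_charZero := inferInstance, to_finiteDimensional := inferInstance }
    set β : E' := AdjoinSimple.gen F (α ^ p) with hβ
    have hβα : algebraMap E' E β = α ^ p := AdjoinSimple.algebraMap_gen F (α ^ p)
    have hω : IsPrimitiveRoot (ρ₀ ^ p) p := hρ.pow (by have := hpp.pos; positivity) (by rw [sq])
    have hirr := irr_of hpp hω h0 E' β hβα hinj
    have hfr : finrank E' E = p := by
      have h1 : E'⟮α⟯ = ⊤ := by
        rw [eq_top_iff]
        intro y _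
        have h2 : y ∈ F⟮α⟯ := by rw [hgen]; trivial
        have h3 : F⟮α⟯ ≤ (E'⟮α⟯).restrictScalars F := by
          rw [adjoin_simple_le_iff]
          exact mem_adjoin_simple_self E' α
        exact h3 h2
      have h2 : IsIntegral E' α := Algebra.IsIntegral.isIntegral α
      have h4 : finrank E' E = (minpoly E' α).natDegree := by
        rw [← adjoin.finrank h2, h1]
        exact (IntermediateField.finrank_top').symm
      have hmin : minpoly E' α = X ^ p - C β := by
        symm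
        apply minpoly.eq_of_irreducible_of_monic hirr
        · rw [map_sub, map_pow, aeval_X, aeval_C, hβα, sub_self]
        · exact monic_X_pow_sub_C β hpp.ne_zero
      rw [h4, hmin, natDegree_X_pow_sub_C]
    have hD : finrank F E = finrank F E' * p := by
      rw [← hfr]
      exact (Module.finrank_mul_finrank F E' E).symm
    have hD'0 : 0 < finrank F E' := finrank_pos
    have hβi : IsIntegral ℤ β := by
      have h1 : IsIntegral ℤ (algebraMap E' E β) := by rw [hβα]; exact hα.pow p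
      exact (isIntegral_algebraMap_iff (algebraMap E' E).injective).mp h1
    have hβ0 : β ≠ 0 := by
      intro h
      rw [h, map_zero] at hβα
      exact pow_ne_zero p h0 hβα.symm
    have hβr : ∀ n : ℕ, 0 < n → β ^ n ≠ 1 := by
      intro n hn h
      have h1 := congrArg (algebraMap E' E) h
      rw [map_pow, hβα, map_one, ← pow_mul] at h1
      exact hroot (p * n) (Nat.mul_pos hpp.pos hn) h1
    have h1 := ih (finrank F E') (by
      rw [← hn, hD]
      have := hpp.two_le
      nlinarith) E' β rfl hβi hβ0 hβr (gen_top F E (α ^ p))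
    have h2 := sum_sub (F := E') (E := E) β (fun z => SZ.hp (Real.posLog ‖z‖))
    rw [hfr] at h2
    have hp0 : (0:ℝ) < p := by exact_mod_cast hpp.pos
    have h3 : (p : ℝ) * HH β ≤ (p : ℝ) ^ 2 * HH α := by
      have h4 : (p : ℝ) * HH β = ∑ τ : E →ₐ[ℚ] ℂ, SZ.hp (Real.posLog ‖τ (algebraMap E' E β)‖) := by
        rw [h2]
        unfold HH
        rfl
      rw [h4]
      unfold HH
      rw [Finset.mul_sum]
      apply Finset.sum_le_sum
      intro τ _
      rw [hβα, map_pow, norm_pow, Real.posLog_pow]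
      exact hp_mul hpp.one_le Real.posLog_nonneg
    have h3' : HH β ≤ p * HH α := by
      have : (p : ℝ) * HH β ≤ p * (p * HH α) := by
        calc (p : ℝ) * HH β ≤ (p : ℝ) ^ 2 * HH α := h3
          _ = _ := by ring
      exact le_of_mul_le_mul_left this hp0
    have hN : (0:ℝ) < finrank ℚ F := by exact_mod_cast (finrank_pos : 0 < finrank ℚ F)
    refine h1.trans ?_
    apply div_le_div_of_nonneg_right _ hN.le
    rw [hD]
    push_cast
    have h5 : (0:ℝ) ≤ finrank F E' := Nat.cast_nonneg _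
    calc (finrank F E' : ℝ) * HH β ≤ finrank F E' * (p * HH α) := mul_le_mul_of_nonneg_left h3' h5
      _ = _ := by ring

end Pool.Agent.X184.SP
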