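import Mathlib
import Pool.Agent.X184.SP.I

/-!
# Descent along cyclic extensions of degree `p`
-/

set_option autoImplicit false

open Finset Polynomial Module NumberField IntermediateField Pool.Agent.X184.SZ

namespace Pool.Agent.X184.SP

/-- the bound over the smaller field gives the bound for an element such that, after
multiplication by a root of unity, the minimal polynomial has coefficients in the smaller field -/
theorem finish {F F' E : Type} [Field F] [NumberField F] [Field F'] [NumberField F']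
    [Algebra F F'] [Field E] [NumberField E] [Algebra F' E] {c : ℝ} (hB : Bd F c)
    (τ₀ : F' →ₐ[F] F') (hfix : ∀ x, τ₀ x = x → x ∈ Set.range (algebraMap F F')) {α : E}
    (hα : IsIntegral ℤ α) (h0 : α ≠ 0) (hroot : ∀ n : ℕ, 0 < n → α ^ n ≠ 1) (hgen : F'⟮α⟯ = ⊤)
    (u : F') {N : ℕ} (hN : 0 < N) (huN : u ^ N = 1)
    (h5 : (scaleRoots (minpoly F' α) u).map (τ₀ : F' →+* F') = scaleRoots (minpoly F' α) u) :
    c ≤ (finrank F' E : ℝ) * HH α / finrank ℚ F' := by
  classical
  haveI : FiniteDimensional F' E := FiniteDimensional.right ℚ F' E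
  set P := minpoly F' α with hP
  have hαF : IsIntegral F' α := Algebra.IsIntegral.isIntegral α
  have hPm : P.Monic := minpoly.monic hαF
  set P1 := scaleRoots P u with hP1
  have h6 : aeval (algebraMap F' E u * α) P1 = 0 := scaleRoots_aeval_eq_zero (minpoly.aeval F' α)
  have hP1m : P1.Monic := (monic_scaleRoots_iff u).mpr hPm
  have h7 : P1 ∈ lifts (algebraMap F F') := by
    rw [lifts_iff_coeff_lifts]
    intro n
    apply hfix
    have h8 : (P1.map (τ₀ : F' →+* F')).coeff n = P1.coeff n := by rw [h5]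
    rw [coeff_map] at h8
    exact h8
  obtain ⟨P2, hP2, hP2d, hP2m⟩ := lifts_and_natDegree_eq_and_monic h7 hP1m
  letI iA : Algebra F E := ((algebraMap F' E).comp (algebraMap F F')).toAlgebra
  haveI : IsScalarTower F F' E := IsScalarTower.of_algebraMap_eq fun _ => rfl
  haveI : FiniteDimensional F E := FiniteDimensional.right ℚ F E
  set z : E := algebraMap F' E u * α with hz
  have h8 : aeval z P2 = 0 := by
    rw [← aeval_map_algebraMap F' z P2, hP2]
    exact h6
  have huN' : (algebraMap F' E u) ^ N = 1 := by rw [← map_pow, huN, map_one]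
  have hui : IsIntegral ℤ (algebraMap F' E u) :=
    ⟨X ^ N - 1, monic_X_pow_sub_C 1 hN.ne', by simp [huN']⟩
  have hzi : IsIntegral ℤ z := hui.mul hα
  have hu0 : algebraMap F' E u ≠ 0 := by
    intro h
    rw [h, zero_pow hN.ne'] at huN'
    exact zero_ne_one huN'
  have hz0 : z ≠ 0 := mul_ne_zero hu0 h0
  have hzr : ∀ n : ℕ, 0 < n → z ^ n ≠ 1 := by
    intro n hn h
    apply hroot (N * n) (Nat.mul_pos hN hn)
    have h9 : (z ^ n) ^ N = 1 := by rw [h, one_pow]
    rw [← pow_mul, hz, mul_pow, mul_comm n N, pow_mul (algebraMap F' E u), huN', one_pow,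
      one_mul] at h9
    exact h9
  have hzF : IsIntegral F z := Algebra.IsIntegral.isIntegral z
  set E' := F⟮z⟯ with hE'
  haveI : FiniteDimensional F E' := inferInstance
  haveI : FiniteDimensional ℚ E' := Module.Finite.trans F E'
  haveI : NumberField E' := { to_charZero := inferInstance, to_finiteDimensional := inferInstance }
  set γ : E' := AdjoinSimple.gen F z with hγ
  have hγz : algebraMap E' E γ = z := AdjoinSimple.algebraMap_gen F z
  have hγi : IsIntegral ℤ γ := by
    have h1 : IsIntegral ℤ (algebraMap E' E γ) := by rw [hγz]; exact hzi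
    exact (isIntegral_algebraMap_iff (algebraMap E' E).injective).mp h1
  have hγ0 : γ ≠ 0 := by
    intro h
    rw [h, map_zero] at hγz
    exact hz0 hγz.symm
  have hγr : ∀ n : ℕ, 0 < n → γ ^ n ≠ 1 := by
    intro n hn h
    have h1 := congrArg (algebraMap E' E) h
    rw [map_pow, hγz, map_one] at h1
    exact hzr n hn h1
  have hle : finrank F E' ≤ finrank F' E := by
    have e1 : finrank F E' = (minpoly F z).natDegree := adjoin.finrank hzF
    have e2 : finrank F' E = P.natDegree := by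
      rw [hP, ← adjoin.finrank hαF, hgen]
      exact (IntermediateField.finrank_top').symm
    have e3 := natDegree_le_of_dvd (minpoly.dvd F z h8) hP2m.ne_zero
    rw [hP2d, hP1, natDegree_scaleRoots] at e3
    omega
  have h9 := hB E' γ hγi hγ0 hγr (gen_top F E z)
  have h10 := sum_sub (F := E') (E := E) γ (fun z => SZ.hp (Real.posLog ‖z‖))
  have h11 : HH α = finrank E' E * HH γ := by
    unfold HH
    rw [← h10]
    refine Finset.sum_congr rfl fun t _ => ?_
    have h12 : ‖t (algebraMap F' E u)‖ = 1 := by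
      apply Complex.norm_eq_one_of_pow_eq_one (n := N) _ hN.ne'
      rw [← map_pow, huN', map_one]
    rw [hγz, hz, map_mul, norm_mul, h12, one_mul]
  have hdeg : finrank ℚ F * finrank F E' * finrank E' E = finrank ℚ F' * finrank F' E := by
    rw [Module.finrank_mul_finrank ℚ F' E, Module.finrank_mul_finrank ℚ F E',
      Module.finrank_mul_finrank ℚ E' E]
  have hn1 : (0:ℝ) < finrank ℚ F := by exact_mod_cast (finrank_pos : 0 < finrank ℚ F)
  have hn2 : (0:ℝ) < finrank ℚ F' := by exact_mod_cast (finrank_pos : 0 < finrank ℚ F')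
  have hn3 : (0:ℝ) < finrank F E' := by exact_mod_cast (finrank_pos : 0 < finrank F E')
  have hdeg' : (finrank ℚ F : ℝ) * finrank F E' * finrank E' E = finrank ℚ F' * finrank F' E := by
    exact_mod_cast hdeg
  have hle' : (finrank F E' : ℝ) ≤ finrank F' E := by exact_mod_cast hle
  refine h9.trans ?_
  rw [h11, div_le_div_iff₀ hn1 hn2]
  have hγn : 0 ≤ HH γ := HH_nonneg γ
  have h13 : (finrank F E' : ℝ) * finrank ℚ F' ≤ finrank F' E * finrank E' E * finrank ℚ F := by
    have h14 : (finrank F E' : ℝ) * (finrank F E' * finrank ℚ F') ≤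
        finrank F E' * (finrank F' E * finrank E' E * finrank ℚ F) := by
      have e1 : (finrank F E' : ℝ) * (finrank F' E * finrank E' E * finrank ℚ F) =
          finrank F' E * (finrank ℚ F' * finrank F' E) := by
        rw [← hdeg']; ring
      rw [e1]
      have e2 : (finrank F E' : ℝ) * finrank F E' ≤ finrank F' E * finrank F' E :=
        mul_le_mul hle' hle' hn3.le (by linarith)
      calc (finrank F E' : ℝ) * (finrank F E' * finrank ℚ F') =
          (finrank F E' * finrank F E') * finrank ℚ F' := by ring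
        _ ≤ (finrank F' E * finrank F' E) * finrank ℚ F' :=
            mul_le_mul_of_nonneg_right e2 hn2.le
        _ = _ := by ring
    exact le_of_mul_le_mul_left h14 hn3
  calc (finrank F E' : ℝ) * HH γ * finrank ℚ F' = (finrank F E' * finrank ℚ F') * HH γ := by ring
    _ ≤ (finrank F' E * finrank E' E * finrank ℚ F) * HH γ :=
        mul_le_mul_of_nonneg_right h13 hγn
    _ = _ := by ring

/-- injectivity of the powers on the conjugates -/
lemma inj_of {F E : Type} [Field F] [NumberField F] [Field E] [NumberField E] [Algebra F E]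
    {α : E} (hgen : F⟮α⟯ = ⊤) {n : ℕ} (h : α ∈ F⟮α ^ n⟯) (τ τ' : E →ₐ[ℚ] ℂ)
    (h1 : (rs τ : F →ₐ[ℚ] ℂ) = rs τ') (h2 : (τ α) ^ n = (τ' α) ^ n) : τ = τ' := by
  have h3 : τ α = τ' α := eq_on h1 (α ^ n) (by rw [map_pow, map_pow, h2]) α h
  ext β
  exact eq_on h1 α h3 β (by rw [hgen]; trivial)

theorem descendP {F F' : Type} [Field F] [NumberField F] [Field F'] [NumberField F']
    [Algebra F F'] {p : ℕ} [hp : Fact p.Prime] {c : ℝ} (hc : c ≤ 1 / (64 * (p : ℝ) ^ 4))
    (hB : Bd F c) (τ₀ : F' →ₐ[F] F') (hτp : ∀ x, (τ₀ ^ p) x = x)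
    (hfix : ∀ x, τ₀ x = x → x ∈ Set.range (algebraMap F F'))
    (hσ : ∀ x : 𝓞 F', ∃ y : 𝓞 F', (τ₀ x) ^ p = (x : F') ^ p + p * y) {ρ₀ : F}
    (hρ : IsPrimitiveRoot ρ₀ (p ^ 2)) {ω : F} (hω : IsPrimitiveRoot ω p) (η : F')
    (hη : τ₀ η = algebraMap F F' ω * η) {N : ℕ} (hN : 0 < N) (hηN : η ^ N = 1) : Bd F' c := by
  classical
  have hpp := hp.out
  have hρ' : IsPrimitiveRoot (algebraMap F F' ρ₀) (p ^ 2) :=
    hρ.map_of_injective (f := algebraMap F F') (algebraMap F F').injective
  apply bdP_of hpp hρ'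
  intro E _ _ _ α hα h0 hroot hgen hall
  haveI : FiniteDimensional F' E := FiniteDimensional.right ℚ F' E
  rcases coreP (F := F') p (τ₀.restrictScalars ℚ) 1 1
    (fun x => by
      obtain ⟨y, hy⟩ := hσ x
      exact ⟨y, by rw [pow_one]; exact hy⟩) hα h0 hgen
    (fun τ τ' h1 h2 => inj_of hgen (hall (1 + 1)) τ τ' h1 h2) with h | h
  · refine hc.trans ?_
    refine le_trans (le_of_eq ?_) h
    congr 1
    norm_num
    ring
  obtain ⟨τ⟩ : Nonempty (E →ₐ[ℚ] ℂ) := by
    rw [← Fintype.card_pos_iff, AlgHom.card ℚ E ℂ]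
    exact finrank_pos
  obtain ⟨τ', hrs, hpow⟩ := h τ
  have hα0 : ∀ τ : E →ₐ[ℚ] ℂ, τ α ≠ 0 := fun τ => by
    rw [Ne, map_eq_zero]; exact h0
  haveI : NeZero p := ⟨hpp.ne_zero⟩
  haveI : NeZero (p ^ 2) := ⟨pow_ne_zero _ hpp.ne_zero⟩
  -- the quotient of the two conjugates
  have hρC : IsPrimitiveRoot (τ' (algebraMap F' E (algebraMap F F' ρ₀))) (p ^ 2) :=
    (hρ'.map_of_injective (f := algebraMap F' E) (algebraMap F' E).injective).map_of_injective
      (f := τ') τ'.toRingHom.injective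
  have hquot : (τ α / τ' α) ^ (p ^ 2) = 1 := by
    have h1 : (τ' α) ^ (p ^ 2) = (τ α) ^ (p ^ 2) := hpow
    rw [div_pow, h1, div_self (pow_ne_zero _ (hα0 τ))]
  obtain ⟨t, -, ht⟩ := hρC.eq_pow_of_pow_eq_one hquot
  set r₀ : F := ρ₀ ^ t with hr₀
  set r : F' := algebraMap F F' r₀ with hr
  have hr₀0 : r₀ ≠ 0 := pow_ne_zero _ (hρ.ne_zero (pow_ne_zero _ hpp.ne_zero))
  have hr0 : r ≠ 0 := by rw [hr, Ne, map_eq_zero]; exact hr₀0
  have hτr : τ₀ r = r := τ₀.commutes r₀
  have hτα : τ' (algebraMap F' E r * α) = τ α := by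
    have h1 : τ' (algebraMap F' E r) = τ α / τ' α := by
      rw [← ht, hr, hr₀, map_pow, map_pow, map_pow]
    rw [map_mul, h1, div_mul_cancel₀ _ (hα0 τ')]
  set P := minpoly F' α with hP
  have hαF : IsIntegral F' α := Algebra.IsIntegral.isIntegral α
  have hPm : P.Monic := minpoly.monic hαF
  have h1 : τ' (aeval (algebraMap F' E r * α) (P.map (τ₀ : F' →+* F'))) = 0 := by
    have e1 : τ' (aeval (algebraMap F' E r * α) (P.map (τ₀ : F' →+* F'))) =
        eval₂ ((τ' : E →+* ℂ).comp ((algebraMap F' E).comp (τ₀ : F' →+* F')))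
          (τ' (algebraMap F' E r * α)) P := by
      rw [aeval_def, eval₂_map]
      exact hom_eval₂ P _ (τ' : E →+* ℂ) _
    have e2 : ((τ' : E →+* ℂ).comp ((algebraMap F' E).comp (τ₀ : F' →+* F'))) =
        (τ : E →+* ℂ).comp (algebraMap F' E) :=
      RingHom.ext fun x => (DFunLike.congr_fun hrs x).symm
    have e3 : τ (aeval α P) = eval₂ ((τ : E →+* ℂ).comp (algebraMap F' E)) (τ α) P := by
      rw [aeval_def]
      exact hom_eval₂ P _ (τ : E →+* ℂ) _
    rw [e1, e2, hτα, ← e3, minpoly.aeval, map_zero]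
  have h2 : aeval (algebraMap F' E r * α) (P.map (τ₀ : F' →+* F')) = 0 :=
    (map_eq_zero τ').mp h1
  have h3 : aeval α (scaleRoots (P.map (τ₀ : F' →+* F')) r⁻¹) = 0 := by
    have h4 := scaleRoots_aeval_eq_zero (r := r⁻¹) h2
    rwa [← mul_assoc, ← map_mul, inv_mul_cancel₀ hr0, map_one, one_mul] at h4
  have hm1 : (P.map (τ₀ : F' →+* F')).Monic := hPm.map _
  have h4 : scaleRoots (P.map (τ₀ : F' →+* F')) r⁻¹ = P := by
    apply eq_of_monic_of_dvd_of_natDegree_le hPm ((monic_scaleRoots_iff _).mpr hm1)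
      (minpoly.dvd F' α h3)
    rw [natDegree_scaleRoots, hPm.natDegree_map]
  -- iteration
  have hτk : ∀ k : ℕ, (τ₀ ^ k) r⁻¹ = r⁻¹ := by
    intro k
    rw [hr, ← map_inv₀]
    exact (τ₀ ^ k).commutes r₀⁻¹
  have h5 : ∀ k : ℕ, scaleRoots (P.map ((τ₀ ^ k : F' →ₐ[F] F') : F' →+* F')) ((r⁻¹) ^ k) = P := by
    intro k
    induction k with
    | zero =>
      have : ((τ₀ ^ 0 : F' →ₐ[F] F') : F' →+* F') = RingHom.id F' := by
        rw [pow_zero]; rfl
      rw [this, Polynomial.map_id, pow_zero, scaleRoots_one]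
    | succ k ih =>
      have e1 : ((τ₀ ^ (k + 1) : F' →ₐ[F] F') : F' →+* F') =
          ((τ₀ ^ k : F' →ₐ[F] F') : F' →+* F').comp (τ₀ : F' →+* F') := by
        rw [pow_succ]; rfl
      rw [e1, ← Polynomial.map_map, pow_succ', scaleRoots_mul]
      have e2 : scaleRoots ((P.map (τ₀ : F' →+* F')).map ((τ₀ ^ k : F' →ₐ[F] F') : F' →+* F')) r⁻¹ =
          P.map ((τ₀ ^ k : F' →ₐ[F] F') : F' →+* F') := by
        conv_rhs => rw [← h4]
        rw [map_scaleRoots _ _ _ (by rw [hm1.leadingCoeff, map_one]; exact one_ne_zero)]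
        congr 1
        exact (hτk k).symm
      rw [e2]
      exact ih
  have h6 : scaleRoots P ((r⁻¹) ^ p) = P := by
    have h7 := h5 p
    have e : ((τ₀ ^ p : F' →ₐ[F] F') : F' →+* F') = RingHom.id F' := RingHom.ext fun x => hτp x
    rwa [e, Polynomial.map_id] at h7
  -- the quotient is a `p`-th root of unity
  have hrp2 : r ^ (p ^ 2) = 1 := by
    rw [hr, hr₀, ← map_pow, ← pow_mul, mul_comm, pow_mul, hρ.pow_eq_one, one_pow, map_one]
  have hrp : r ^ p = 1 := by
    have h7 : aeval (algebraMap F' E ((r⁻¹) ^ p) * α) P = 0 := by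
      have h8 := scaleRoots_aeval_eq_zero (r := (r⁻¹) ^ p) (minpoly.aeval F' α)
      rwa [← hP, h6] at h8
    have h8 : α ∈ F'⟮α ^ p⟯ := by
      have := hall 1
      rwa [pow_one] at this
    have hint : IsIntegral F' (α ^ p) := Algebra.IsIntegral.isIntegral _
    obtain ⟨R, hR⟩ := (adjoin.powerBasis hint).exists_eq_aeval' (⟨α, h8⟩ : F'⟮α ^ p⟯)
    have hR' : α = aeval (α ^ p) R := by
      have h9 := congrArg (algebraMap F'⟮α ^ p⟯ E) hR
      rw [← aeval_algebraMap_apply, adjoin.powerBasis_gen, AdjoinSimple.algebraMap_gen] at h9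
      exact h9
    have h9 : P ∣ expand F' p R - X := by
      apply minpoly.dvd
      rw [map_sub, expand_aeval, aeval_X, ← hR', sub_self]
    obtain ⟨Q, hQ⟩ := h9
    have h10 := congrArg (aeval (algebraMap F' E ((r⁻¹) ^ p) * α)) hQ
    rw [map_mul, h7, zero_mul, map_sub, expand_aeval, aeval_X, mul_pow, ← map_pow, ← pow_mul,
      ← sq, inv_pow, hrp2, inv_one, map_one, one_mul, ← hR'] at h10
    have h11 : algebraMap F' E ((r⁻¹) ^ p) = 1 := by
      have h12 : algebraMap F' E ((r⁻¹) ^ p) * α = 1 * α := by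
        rw [one_mul]; exact (sub_eq_zero.mp h10).symm
      exact mul_right_cancel₀ h0 h12
    rw [← map_one (algebraMap F' E)] at h11
    have h12 := (algebraMap F' E).injective h11
    rw [inv_pow] at h12
    exact inv_eq_one.mp h12
  have hr₀p : (r₀⁻¹) ^ p = 1 := by
    apply (algebraMap F F').injective
    rw [map_pow, map_inv₀, map_one, inv_pow, ← hr, hrp, inv_one]
  obtain ⟨m, -, hm⟩ := hω.eq_pow_of_pow_eq_one hr₀p
  have hτu : τ₀ (η ^ m) = r⁻¹ * η ^ m := by
    rw [map_pow, hη, mul_pow, ← map_pow, hm, hr, map_inv₀]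
  apply finish hB τ₀ hfix hα h0 hroot hgen (η ^ m) hN (by rw [← pow_mul, mul_comm, pow_mul, hηN,
    one_pow])
  rw [← hP, map_scaleRoots _ _ _ (by rw [hPm.leadingCoeff, map_one]; exact one_ne_zero)]
  conv_rhs => rw [← h4]
  rw [← scaleRoots_mul]
  congr 1

end Pool.Agent.X184.SP
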