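import Mathlib
import Pool.Agent.X184.SP.J
import Pool.Agent.X184.SZ.P

/-!
# Cyclotomic extensions of `p`-power conductor of fields unramified at `p`
-/

set_option autoImplicit false

open Finset Polynomial Module NumberField IntermediateField Pool.Agent.X184.SZ

namespace Pool.Agent.X184.SP

/-- the ring of integers is reduced modulo `p` -/
def Red (L : Type) [Field L] (p : ℕ) : Prop :=
  ∀ x : L, IsIntegral ℤ x → ∀ k : ℕ, 0 < k → IsIntegral ℤ (x ^ k / p) → IsIntegral ℤ (x / p)

theorem red_of {L : Type} [Field L] [NumberField L] {p : ℕ} (hp : p.Prime) (σ : L →ₐ[ℚ] L)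
    {r : ℕ} (hr : 0 < r) (hσ : ∀ x : 𝓞 L, ∃ y : 𝓞 L, σ x = (x : L) ^ (p ^ r) + p * y) : Red L p := by
  have hp2 := hp.two_le
  have hp0 : (p : L) ≠ 0 := by exact_mod_cast hp.ne_zero
  have h1 : ∀ y : L, IsIntegral ℤ y → IsIntegral ℤ (y ^ p / p) → IsIntegral ℤ (y / p) := by
    intro y hy hyp
    obtain ⟨z, hz⟩ := hσ ⟨y, hy⟩
    have hz' : σ y = y ^ (p ^ r) + p * (z : L) := hz
    obtain ⟨s, hs⟩ : ∃ s, p ^ r = p + s := by
      have : p ^ 1 ≤ p ^ r := Nat.pow_le_pow_right hp.pos hr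
      rw [pow_one] at this
      exact ⟨p ^ r - p, by omega⟩
    have h2 : IsIntegral ℤ (σ (y / p)) := by
      have e1 : σ (y / p) = y ^ p / p * y ^ s + z := by
        rw [map_div₀, map_natCast, hz', hs, pow_add]
        field_simp
      rw [e1]
      exact (hyp.mul (hy.pow s)).add z.2
    exact (isIntegral_algHom_iff (σ.restrictScalars ℤ) σ.toRingHom.injective).mp h2
  intro x hx k
  induction k using Nat.strong_induction_on with
  | _ k ih =>
    intro hk hxk
    rcases Nat.lt_or_ge k 2 with h | h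
    · have : k = 1 := by omega
      rw [this, pow_one] at hxk
      exact hxk
    · set m := (k + p - 1) / p with hm
      have hpm : k ≤ p * m := by
        have h2 := Nat.div_add_mod (k + p - 1) p
        have h3 := Nat.mod_lt (k + p - 1) hp.pos
        rw [← hm] at h2
        omega
      have hmk : m < k := by
        rw [hm, Nat.div_lt_iff_lt_mul hp.pos]
        have h4 : k + p ≤ k * p := by nlinarith
        omega
      have hm0 : 0 < m := by
        rcases Nat.eq_zero_or_pos m with h0 | h0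
        · rw [h0, mul_zero] at hpm; omega
        · exact h0
      have h3 : IsIntegral ℤ ((x ^ m) ^ p / p) := by
        have e : (x ^ m) ^ p / p = x ^ k / p * x ^ (p * m - k) := by
          rw [← pow_mul, mul_comm m p]
          conv_lhs => rw [show p * m = k + (p * m - k) by omega, pow_add]
          ring
        rw [e]
        exact hxk.mul (hx.pow _)
      exact ih m hmk hm0 (h1 _ (hx.pow m) h3)

/-- the quotient is an algebraic integer -/
lemma quot_int {F : Type} [Field F] {x : F} (hx : IsIntegral ℤ x) (hx1 : x ≠ 1) (u : ℕ) :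
    IsIntegral ℤ ((1 - x ^ u) / (1 - x)) := by
  have h1 : 1 - x ≠ 0 := sub_ne_zero.mpr hx1.symm
  have h2 : (1 - x ^ u) / (1 - x) = ∑ i ∈ range u, x ^ i := by
    rw [div_eq_iff h1]
    have := geom_sum_mul x u
    linear_combination this
  rw [h2]
  exact IsIntegral.sum _ fun i _ => hx.pow i

section cyc
variable {F : Type} [Field F] [NumberField F] {p : ℕ} [hp : Fact p.Prime] {j : ℕ} {η : F}

lemma eta_ne (hη : IsPrimitiveRoot η (p ^ (j + 1))) : 1 - η ≠ 0 := by
  intro h
  have h1 : η = 1 := (sub_eq_zero.mp h).symm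
  have h2 := hη.dvd_of_pow_eq_one 1 (by rw [h1, one_pow])
  have h3 := Nat.le_of_dvd one_pos h2
  have h4 : 1 < p ^ (j + 1) := Nat.one_lt_pow (by omega) hp.out.one_lt
  omega

lemma eta_int' (hη : IsPrimitiveRoot η (p ^ (j + 1))) : IsIntegral ℤ η :=
  hη.isIntegral (pow_pos hp.out.pos _)

lemma prod_eq (hη : IsPrimitiveRoot η (p ^ (j + 1))) :
    ∏ μ ∈ primitiveRoots (p ^ (j + 1)) F, (1 - μ) = p := by
  have h1 := cyclotomic_eq_prod_X_sub_primitiveRoots hη
  have h2 := congrArg (eval 1) h1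
  rw [eval_one_cyclotomic_prime_pow, eval_prod] at h2
  rw [h2]
  refine Finset.prod_congr rfl fun μ _ => ?_
  simp

lemma u1 (hη : IsPrimitiveRoot η (p ^ (j + 1))) :
    IsIntegral ℤ ((p : F) / (1 - η) ^ (Nat.totient (p ^ (j + 1)))) := by
  have hpos : 0 < p ^ (j + 1) := pow_pos hp.out.pos _
  have h1 : (p : F) / (1 - η) ^ (Nat.totient (p ^ (j + 1))) =
      ∏ μ ∈ primitiveRoots (p ^ (j + 1)) F, ((1 - μ) / (1 - η)) := by
    rw [Finset.prod_div_distrib, prod_eq hη, Finset.prod_const, hη.card_primitiveRoots]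
  rw [h1]
  apply IsIntegral.prod
  intro μ hμ
  rw [mem_primitiveRoots hpos] at hμ
  haveI : NeZero (p ^ (j + 1)) := ⟨hpos.ne'⟩
  obtain ⟨u, -, hu⟩ := hη.eq_pow_of_pow_eq_one hμ.pow_eq_one
  rw [← hu]
  exact quot_int (eta_int' hη) (fun h => eta_ne hη (by rw [h]; ring)) u

lemma u2 (hη : IsPrimitiveRoot η (p ^ (j + 1))) :
    IsIntegral ℤ ((1 - η) ^ (Nat.totient (p ^ (j + 1))) / (p : F)) := by
  have hpos : 0 < p ^ (j + 1) := pow_pos hp.out.pos _
  have h1 : (1 - η) ^ (Nat.totient (p ^ (j + 1))) / (p : F) =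
      ∏ μ ∈ primitiveRoots (p ^ (j + 1)) F, ((1 - η) / (1 - μ)) := by
    rw [Finset.prod_div_distrib, prod_eq hη, Finset.prod_const, hη.card_primitiveRoots]
  rw [h1]
  apply IsIntegral.prod
  intro μ hμ
  rw [mem_primitiveRoots hpos] at hμ
  haveI : NeZero (p ^ (j + 1)) := ⟨hpos.ne'⟩
  obtain ⟨u, -, hu⟩ := hμ.eq_pow_of_pow_eq_one hη.pow_eq_one
  rw [← hu]
  exact quot_int (eta_int' hμ) (fun h => eta_ne hμ (by rw [h]; ring)) u

/-- an element which is small at the primes above `p` -/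
lemma small {L : Type} [Field L] [NumberField L] [Algebra L F] (hL : Red L p)
    (hη : IsPrimitiveRoot η (p ^ (j + 1))) {c : L} (hc : IsIntegral ℤ c)
    (h : IsIntegral ℤ (algebraMap L F c / (1 - η))) : IsIntegral ℤ (c / p) := by
  set f := Nat.totient (p ^ (j + 1)) with hf
  have hf0 : 0 < f := Nat.totient_pos.mpr (pow_pos hp.out.pos _)
  apply hL c hc f hf0
  rw [← int_map (F' := F)]
  have hne := eta_ne hη
  have e : algebraMap L F (c ^ f / p) = (algebraMap L F c / (1 - η)) ^ f * ((1 - η) ^ f / p) := by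
    rw [map_div₀, map_pow, map_natCast, div_pow]
    field_simp
  rw [e]
  exact (h.pow f).mul (u2 hη)

lemma pi_pow_int (hη : IsPrimitiveRoot η (p ^ (j + 1))) {i : ℕ}
    (hi : i ≤ Nat.totient (p ^ (j + 1))) : IsIntegral ℤ ((p : F) / (1 - η) ^ i) := by
  have hne := eta_ne hη
  have e : (p : F) / (1 - η) ^ i = p / (1 - η) ^ (Nat.totient (p ^ (j + 1))) *
      (1 - η) ^ (Nat.totient (p ^ (j + 1)) - i) := by
    conv_rhs => rw [show Nat.totient (p ^ (j + 1)) = i + (Nat.totient (p ^ (j + 1)) - i) by omega,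
      pow_add]
    rw [show i + (Nat.totient (p ^ (j + 1)) - i) - i = Nat.totient (p ^ (j + 1)) - i by omega]
    field_simp
  rw [e]
  exact (u1 hη).mul ((isIntegral_one.sub (eta_int' hη)).pow _)

lemma pi_pow_int' (hη : IsPrimitiveRoot η (p ^ (j + 1))) {i : ℕ}
    (hi : Nat.totient (p ^ (j + 1)) ≤ i) : IsIntegral ℤ ((1 - η) ^ i / (p : F)) := by
  have e : (1 - η) ^ i / (p : F) = (1 - η) ^ (Nat.totient (p ^ (j + 1))) / p *
      (1 - η) ^ (i - Nat.totient (p ^ (j + 1))) := by
    conv_lhs => rw [show i = Nat.totient (p ^ (j + 1)) + (i - Nat.totient (p ^ (j + 1))) by omega,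
      pow_add]
    ring
  rw [e]
  exact (u2 hη).mul ((isIntegral_one.sub (eta_int' hη)).pow _)

end cyc

end Pool.Agent.X184.SP
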