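import Mathlib
import Pool.Agent.X184.SP.K

/-!
# Cyclotomic extensions of `p`-power conductor of fields unramified at `p`: degree and integers
-/

set_option autoImplicit false

open Finset Polynomial Module NumberField IntermediateField Pool.Agent.X184.SZ

namespace Pool.Agent.X184.SP

/-- quotients of natural numbers that are algebraic integers -/
lemma nat_quot {F : Type*} [Field F] [CharZero F] {n p : ℕ} (hp : p ≠ 0)
    (h : IsIntegral ℤ ((n : F) / p)) : p ∣ n := by
  have h1 : IsIntegral ℤ (algebraMap ℚ F ((n : ℚ) / p)) := by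
    rw [map_div₀, map_natCast, map_natCast]; exact h
  have h2 : IsIntegral ℤ ((n : ℚ) / p) :=
    (isIntegral_algebraMap_iff (algebraMap ℚ F).injective).mp h1
  obtain ⟨y, hy⟩ := IsIntegrallyClosed.isIntegral_iff.mp h2
  have hp0 : (p : ℚ) ≠ 0 := by exact_mod_cast hp
  have h3 : (n : ℚ) = p * y := by
    have : (algebraMap ℤ ℚ y) = (y : ℚ) := rfl
    rw [this] at hy
    rw [hy]; field_simp
  have h4 : (n : ℤ) = p * y := by exact_mod_cast h3
  exact_mod_cast (Dvd.intro y h4.symm : (p : ℤ) ∣ n)

lemma nat_int {F : Type*} [Field F] (n : ℕ) : IsIntegral ℤ (n : F) := by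
  simpa using (isIntegral_algebraMap (R := ℤ) (A := F) (x := (n : ℤ)))

section cyc
variable {L F : Type} [Field L] [NumberField L] [Field F] [NumberField F] [Algebra L F]
  {p : ℕ} [hp : Fact p.Prime] {j : ℕ} {η : F}

lemma gen_pi (hgen : L⟮η⟯ = ⊤) : L⟮(1 - η)⟯ = ⊤ := by
  rw [eq_top_iff, ← hgen, adjoin_simple_le_iff]
  have h1 := sub_mem (one_mem L⟮(1 - η)⟯) (mem_adjoin_simple_self L (1 - η))
  rwa [sub_sub_cancel] at h1

lemma finrank_le (hη : IsPrimitiveRoot η (p ^ (j + 1))) (hgen : L⟮η⟯ = ⊤) :
    finrank L F ≤ Nat.totient (p ^ (j + 1)) := by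
  haveI : FiniteDimensional L F := FiniteDimensional.right ℚ L F
  have hint : IsIntegral L η := Algebra.IsIntegral.isIntegral η
  have h1 : finrank L F = (minpoly L η).natDegree := by
    rw [← adjoin.finrank hint, hgen]
    exact (IntermediateField.finrank_top').symm
  have h2 : minpoly L η ∣ cyclotomic (p ^ (j + 1)) L := by
    apply minpoly.dvd
    rw [aeval_def, ← eval_map, map_cyclotomic]
    exact hη.isRoot_cyclotomic (pow_pos hp.out.pos _)
  rw [h1, ← natDegree_cyclotomic (p ^ (j + 1)) L]
  exact natDegree_le_of_dvd h2 (cyclotomic_ne_zero _ _)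

omit hp in
lemma natDegree_mpi (hη : IsIntegral ℤ η) (hgen : L⟮η⟯ = ⊤) :
    (minpoly (𝓞 L) (1 - η)).natDegree = finrank L F := by
  haveI : FiniteDimensional L F := FiniteDimensional.right ℚ L F
  have hi : IsIntegral ℤ (1 - η) := isIntegral_one.sub hη
  have hint : IsIntegral L (1 - η) := Algebra.IsIntegral.isIntegral _
  have h1 : finrank L F = (minpoly L (1 - η)).natDegree := by
    rw [← adjoin.finrank hint, gen_pi hgen]
    exact (IntermediateField.finrank_top').symm
  rw [h1, minpoly.isIntegrallyClosed_eq_field_fractions' (R := 𝓞 L) L hi.tower_top,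
    (minpoly.monic (show IsIntegral (𝓞 L) (1 - η) from hi.tower_top)).natDegree_map]

/-- the degree -/
theorem finrank_cyc (hL : Red L p) (hη : IsPrimitiveRoot η (p ^ (j + 1))) (hgen : L⟮η⟯ = ⊤) :
    finrank L F = Nat.totient (p ^ (j + 1)) := by
  classical
  have hne := eta_ne hη
  have hp0 : (p : F) ≠ 0 := by exact_mod_cast hp.out.ne_zero
  have hηi := eta_int' hη
  have hπi : IsIntegral ℤ (1 - η) := isIntegral_one.sub hηi
  set π := 1 - η with hπ
  set m := minpoly (𝓞 L) π with hm
  have hmm : m.Monic := minpoly.monic hπi.tower_top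
  set d := m.natDegree with hd
  have hdf : d = finrank L F := natDegree_mpi hηi hgen
  have hle : d ≤ Nat.totient (p ^ (j + 1)) := by rw [hdf]; exact finrank_le hη hgen
  set a : ℕ → F := fun l => algebraMap L F (m.coeff l : L) with ha
  have hai : ∀ l, IsIntegral ℤ (a l) := fun l => int_map.mpr (m.coeff l).2
  have hsum : ∑ l ∈ range (d + 1), a l * π ^ l = 0 := by
    have h1 : aeval π m = 0 := minpoly.aeval _ _
    rw [aeval_eq_sum_range] at h1
    rw [← h1]
    refine Finset.sum_congr rfl fun l _ => ?_
    rw [Algebra.smul_def]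
    rfl
  have hclaim : ∀ i < d, IsIntegral ℤ ((m.coeff i : L) / p) := by
    intro i
    induction i using Nat.strong_induction_on with
    | _ i ih =>
      intro hi
      have hci : IsIntegral ℤ (m.coeff i : L) := (m.coeff i).2
      apply small hL hη hci
      rw [← hπ]
      have h1 := Finset.add_sum_erase (range (d + 1)) (fun l => a l * π ^ l)
        (Finset.mem_range.mpr (by omega : i < d + 1))
      rw [hsum] at h1
      have h2 : algebraMap L F (m.coeff i : L) / π =
          -∑ l ∈ (range (d + 1)).erase i, a l * π ^ l / π ^ (i + 1) := by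
        rw [← Finset.sum_div]
        have h3 : ∑ l ∈ (range (d + 1)).erase i, a l * π ^ l = -(a i * π ^ i) := by
          linear_combination h1
        rw [h3, pow_succ]
        field_simp
        simp only [ha]
      rw [h2]
      apply IsIntegral.neg
      apply IsIntegral.sum
      intro l hl
      rw [Finset.mem_erase, Finset.mem_range] at hl
      rcases Nat.lt_or_gt_of_ne hl.1 with h | h
      · have e : a l * π ^ l / π ^ (i + 1) =
            algebraMap L F ((m.coeff l : L) / p) * (p / π ^ (i + 1)) * π ^ l := by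
          rw [map_div₀, map_natCast]
          field_simp
          simp only [ha]
        rw [e]
        exact ((int_map.mpr (ih l h (by omega))).mul
          (pi_pow_int hη (by omega : i + 1 ≤ Nat.totient (p ^ (j + 1))))).mul (hπi.pow l)
      · have e : a l * π ^ l / π ^ (i + 1) = a l * π ^ (l - (i + 1)) := by
          have : π ^ l = π ^ (i + 1) * π ^ (l - (i + 1)) := by
            rw [← pow_add]; congr 1; omega
          rw [this]
          field_simp
        rw [e]
        exact (hai l).mul (hπi.pow _)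
  rw [← hdf]
  by_contra hcon
  have hlt : d < Nat.totient (p ^ (j + 1)) := by omega
  -- the power is divisible by `p`
  have h1 : IsIntegral ℤ (π ^ d / p) := by
    rw [Finset.sum_range_succ] at hsum
    have h2 : a d = 1 := by
      simp only [ha]
      have : m.coeff d = 1 := hmm
      rw [this]
      exact map_one _
    have h3 : π ^ d / p = -∑ l ∈ range d, algebraMap L F ((m.coeff l : L) / p) * π ^ l := by
      have h4 : ∑ l ∈ range d, algebraMap L F ((m.coeff l : L) / p) * π ^ l =
          (∑ l ∈ range d, a l * π ^ l) / p := by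
        rw [Finset.sum_div]
        refine Finset.sum_congr rfl fun l _ => ?_
        rw [map_div₀, map_natCast]
        simp only [ha]
        ring
      rw [h4]
      rw [h2, one_mul] at hsum
      have h5 : ∑ l ∈ range d, a l * π ^ l = -π ^ d := by linear_combination hsum
      rw [h5]
      ring
    rw [h3]
    apply IsIntegral.neg
    apply IsIntegral.sum
    intro l hl
    exact (int_map.mpr (hclaim l (Finset.mem_range.mp hl))).mul (hπi.pow l)
  have h2 : IsIntegral ℤ (algebraMap L F 1 / π) := by
    have e : algebraMap L F 1 / π = π ^ d / p * (p / π ^ (Nat.totient (p ^ (j + 1)))) *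
        π ^ (Nat.totient (p ^ (j + 1)) - d - 1) := by
      have h3 : π ^ (Nat.totient (p ^ (j + 1))) =
          π ^ d * π * π ^ (Nat.totient (p ^ (j + 1)) - d - 1) := by
        rw [← pow_succ, ← pow_add]
        congr 1
        omega
      rw [h3, map_one]
      field_simp
    rw [e]
    exact (h1.mul (u1 hη)).mul (hπi.pow _)
  have h3 := small hL hη isIntegral_one h2
  have h4 : p ∣ 1 := nat_quot (F := L) hp.out.ne_zero (by rw [Nat.cast_one]; exact h3)
  have := hp.out.two_le
  have := Nat.le_of_dvd one_pos h4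
  omega

/-- the minimal polynomial -/
theorem minpoly_cyc (hL : Red L p) (hη : IsPrimitiveRoot η (p ^ (j + 1))) (hgen : L⟮η⟯ = ⊤) :
    minpoly L η = cyclotomic (p ^ (j + 1)) L := by
  haveI : FiniteDimensional L F := FiniteDimensional.right ℚ L F
  have hint : IsIntegral L η := Algebra.IsIntegral.isIntegral η
  have h1 : finrank L F = (minpoly L η).natDegree := by
    rw [← adjoin.finrank hint, hgen]
    exact (IntermediateField.finrank_top').symm
  have h2 : minpoly L η ∣ cyclotomic (p ^ (j + 1)) L := by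
    apply minpoly.dvd
    rw [aeval_def, ← eval_map, map_cyclotomic]
    exact hη.isRoot_cyclotomic (pow_pos hp.out.pos _)
  symm
  apply eq_of_monic_of_dvd_of_natDegree_le (minpoly.monic hint) (cyclotomic.monic _ _) h2
  rw [natDegree_cyclotomic, ← h1, finrank_cyc hL hη hgen]

/-- the elements of `𝓞_L[1 - η]` -/
lemma stepB (hL : Red L p) (hη : IsPrimitiveRoot η (p ^ (j + 1))) (hgen : L⟮η⟯ = ⊤) {y : F}
    (hy : IsIntegral ℤ y) (Q : (𝓞 L)[X]) (hQ : (p : F) * y = aeval (1 - η) Q) :
    ∃ Q' : (𝓞 L)[X], y = aeval (1 - η) Q' := by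
  classical
  have hne := eta_ne hη
  have hp0 : (p : F) ≠ 0 := by exact_mod_cast hp.out.ne_zero
  have hηi := eta_int' hη
  have hπi : IsIntegral ℤ (1 - η) := isIntegral_one.sub hηi
  set f := Nat.totient (p ^ (j + 1)) with hf
  have hf0 : 0 < f := Nat.totient_pos.mpr (pow_pos hp.out.pos _)
  set π := 1 - η with hπ
  set m := minpoly (𝓞 L) π with hm
  have hmm : m.Monic := minpoly.monic hπi.tower_top
  have hd : m.natDegree = f := by
    rw [hm, natDegree_mpi hηi hgen, finrank_cyc hL hη hgen]
  set b := Q %ₘ m with hb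
  have hbQ : aeval π b = aeval π Q := by
    conv_rhs => rw [← modByMonic_add_div Q m]
    rw [map_add, map_mul, hm, minpoly.aeval, zero_mul, add_zero]
  have hbd : b.natDegree < f := by
    have h1 := natDegree_modByMonic_lt Q hmm (by
      intro h
      rw [h, natDegree_one] at hd
      omega)
    rwa [hd] at h1
  set a : ℕ → F := fun l => algebraMap L F (b.coeff l : L) with ha
  have hai : ∀ l, IsIntegral ℤ (a l) := fun l => int_map.mpr (b.coeff l).2
  have hsum : (p : F) * y = ∑ l ∈ range f, a l * π ^ l := by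
    rw [hQ, ← hbQ, aeval_eq_sum_range' hbd]
    refine Finset.sum_congr rfl fun l _ => ?_
    rw [Algebra.smul_def]
    rfl
  have hclaim : ∀ i < f, IsIntegral ℤ ((b.coeff i : L) / p) := by
    intro i
    induction i using Nat.strong_induction_on with
    | _ i ih =>
      intro hi
      have h1 := Finset.add_sum_erase (range f) (fun l => a l * π ^ l)
        (Finset.mem_range.mpr hi)
      rw [← hsum] at h1
      have h2 : a i * π ^ (f - 1) / p = y * π ^ (f - 1 - i) -
          ∑ l ∈ (range f).erase i, a l * π ^ (l + (f - 1 - i)) / p := by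
        rw [← Finset.sum_div]
        have h3 : ∑ l ∈ (range f).erase i, a l * π ^ (l + (f - 1 - i)) =
            (∑ l ∈ (range f).erase i, a l * π ^ l) * π ^ (f - 1 - i) := by
          rw [Finset.sum_mul]
          refine Finset.sum_congr rfl fun l _ => ?_
          rw [pow_add]
          ring
        have h4 : ∑ l ∈ (range f).erase i, a l * π ^ l = p * y - a i * π ^ i := by
          linear_combination h1
        have h5 : π ^ (f - 1) = π ^ i * π ^ (f - 1 - i) := by
          rw [← pow_add]; congr 1; omega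
        rw [h3, h4, h5]
        field_simp
        ring
      have h3 : IsIntegral ℤ (a i * π ^ (f - 1) / p) := by
        rw [h2]
        apply IsIntegral.sub (hy.mul (hπi.pow _))
        apply IsIntegral.sum
        intro l hl
        rw [Finset.mem_erase, Finset.mem_range] at hl
        rcases Nat.lt_or_gt_of_ne hl.1 with h | h
        · have e : a l * π ^ (l + (f - 1 - i)) / p =
              algebraMap L F ((b.coeff l : L) / p) * π ^ (l + (f - 1 - i)) := by
            rw [map_div₀, map_natCast]
            simp only [ha]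
            ring
          rw [e]
          exact (int_map.mpr (ih l h (by omega))).mul (hπi.pow _)
        · rw [mul_div_assoc]
          exact (hai l).mul (pi_pow_int' hη (by omega))
      have hci : IsIntegral ℤ (b.coeff i : L) := (b.coeff i).2
      apply small hL hη hci
      have e : algebraMap L F (b.coeff i : L) / (1 - η) = a i * π ^ (f - 1) / p * (p / π ^ f) := by
        have h5 : π ^ f = π ^ (f - 1) * π := by
          rw [← pow_succ]; congr 1; omega
        rw [h5, ← hπ]
        simp only [ha]
        field_simp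
      rw [e]
      exact h3.mul (u1 hη)
  set cc : ℕ → 𝓞 L := fun i => if h : i < f then ⟨(b.coeff i : L) / p, hclaim i h⟩ else 0 with hcc
  refine ⟨∑ i ∈ range f, C (cc i) * X ^ i, ?_⟩
  rw [map_sum]
  have h1 : y = (∑ l ∈ range f, a l * π ^ l) / p := by
    rw [← hsum]; field_simp
  rw [h1, Finset.sum_div]
  refine Finset.sum_congr rfl fun l hl => ?_
  rw [map_mul, map_pow, aeval_X, aeval_C]
  have h3 : cc l = ⟨(b.coeff l : L) / p, hclaim l (Finset.mem_range.mp hl)⟩ := by
    rw [hcc]
    exact dif_pos (Finset.mem_range.mp hl)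
  have h2 : algebraMap (𝓞 L) F (cc l) = algebraMap L F ((b.coeff l : L) / p) := by
    rw [h3]; rfl
  rw [h2, map_div₀, map_natCast]
  simp only [ha]
  ring

/-- a multiple lies in the ring generated by a root of unity -/
lemma exists_mul_mem' {ω : F} {m : ℕ} (hm0 : 0 < m) (hω : ω ^ m = 1) (hgen : L⟮ω⟯ = ⊤) (x : F)
    (hx : IsIntegral ℤ x) :
    ∃ P : (𝓞 L)[X], ((m ^ finrank L F : ℕ) : F) * x = aeval ω P := by
  haveI : FiniteDimensional L F := FiniteDimensional.right ℚ L F
  have hint : IsIntegral L ω := Algebra.IsIntegral.isIntegral ω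
  have hωi : IsIntegral ℤ ω := ⟨X ^ m - 1, monic_X_pow_sub_C 1 hm0.ne', by simp [hω]⟩
  have hadj : Algebra.adjoin L {ω} = ⊤ := by
    rw [← IntermediateField.adjoin_simple_toSubalgebra_of_isAlgebraic hint.isAlgebraic, hgen]
    rfl
  set B : PowerBasis L F := PowerBasis.ofAdjoinEqTop hint hadj with hB
  have hBg : B.gen = ω := PowerBasis.ofAdjoinEqTop_gen hint hadj
  have h1 : Algebra.discr L B.basis • x ∈ Algebra.adjoin (𝓞 L) ({B.gen} : Set F) :=
    Algebra.discr_mul_isIntegral_mem_adjoin (K := L) (R := 𝓞 L) (by rw [hBg]; exact hωi.tower_top)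
      hx.tower_top
  rw [hBg] at h1
  have h2 := Algebra.discr_powerBasis_eq_norm L B
  rw [hBg] at h2
  set μ := minpoly L ω with hμ
  obtain ⟨ν, hν⟩ : μ ∣ X ^ m - 1 := minpoly.dvd L ω (by simp [hω])
  set δ := aeval ω (derivative μ) with hδ
  have h3 : δ * aeval ω ν * ω = m := by
    have h4 := congrArg (fun Q : L[X] => aeval ω (derivative Q)) hν
    simp only [derivative_mul, map_add, map_mul, derivative_sub, derivative_X_pow,
      derivative_one, sub_zero, map_pow, aeval_X, aeval_C] at h4
    rw [hμ, minpoly.aeval, zero_mul, add_zero, ← hμ, ← hδ] at h4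
    rw [← h4]
    have h5 : ω ^ (m - 1) * ω = 1 := by
      rw [← pow_succ, Nat.sub_add_cancel hm0, hω]
    rw [mul_assoc, h5, mul_one, map_natCast]
  have hνi : IsIntegral ℤ (aeval ω ν) := by
    have h6 := minpoly.isIntegrallyClosed_eq_field_fractions' (R := 𝓞 L) L
      (show IsIntegral (𝓞 L) ω from hωi.tower_top)
    obtain ⟨ν0, hν0⟩ : minpoly (𝓞 L) ω ∣ X ^ m - 1 :=
      minpoly.isIntegrallyClosed_dvd (show IsIntegral (𝓞 L) ω from hωi.tower_top) (by simp [hω])
    have h7 : ν = ν0.map (algebraMap (𝓞 L) L) := by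
      have h8 := congrArg (fun Q : (𝓞 L)[X] => Q.map (algebraMap (𝓞 L) L)) hν0
      simp only [Polynomial.map_mul, Polynomial.map_sub, Polynomial.map_pow, Polynomial.map_X,
        Polynomial.map_one] at h8
      rw [← h6, ← hμ, hν] at h8
      exact mul_left_cancel₀ (minpoly.ne_zero hint) h8
    rw [h7, aeval_map_algebraMap]
    exact eval_int hωi ν0
  set d := finrank L F with hd
  have h9 : Algebra.norm L δ * Algebra.norm L (aeval ω ν * ω) = (m : L) ^ d := by
    rw [← map_mul, ← mul_assoc, h3]
    have : (m : F) = algebraMap L F (m : L) := (map_natCast _ _).symm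
    rw [this, Algebra.norm_algebraMap]
  set s : L := (-1) ^ (d * (d - 1) / 2) with hs
  have hs2 : s * s = 1 := by
    rw [hs, ← mul_pow]
    norm_num
  have hti : IsIntegral ℤ (s * Algebra.norm L (aeval ω ν * ω)) := by
    apply IsIntegral.mul
    · rw [hs]; exact isIntegral_one.neg.pow _
    · exact Algebra.isIntegral_norm L (hνi.mul hωi)
  set t : 𝓞 L := ⟨s * Algebra.norm L (aeval ω ν * ω), hti⟩ with ht
  have h10 : (m : L) ^ d = (t : L) * Algebra.discr L B.basis := by
    change (m : L) ^ d = (s * Algebra.norm L (aeval ω ν * ω)) * Algebra.discr L B.basis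
    rw [h2, ← h9]
    linear_combination (-(Algebra.norm L δ * Algebra.norm L (aeval ω ν * ω))) * hs2
  have h11 : ((m ^ d : ℕ) : F) * x ∈ Algebra.adjoin (𝓞 L) ({ω} : Set F) := by
    have e : ((m ^ d : ℕ) : F) * x = t • (Algebra.discr L B.basis • x) := by
      rw [Algebra.smul_def, Algebra.smul_def, ← mul_assoc]
      have e1 : algebraMap (𝓞 L) F t = algebraMap L F (t : L) := rfl
      rw [e1, ← map_mul, ← h10]
      rw [map_pow, map_natCast, Nat.cast_pow]
    rw [e]
    exact Subalgebra.smul_mem _ h1 t
  rw [Algebra.adjoin_singleton_eq_range_aeval] at h11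
  obtain ⟨P, hP⟩ := h11
  exact ⟨P, hP.symm⟩

/-- the ring of integers -/
theorem int_rep (hL : Red L p) (hη : IsPrimitiveRoot η (p ^ (j + 1))) (hgen : L⟮η⟯ = ⊤) {y : F}
    (hy : IsIntegral ℤ y) : ∃ Q : (𝓞 L)[X], y = aeval η Q := by
  have hconv : ∀ (x : F) (Q : (𝓞 L)[X]), aeval x Q = aeval (1 - x) (Q.comp (1 - X)) := by
    intro x Q
    rw [aeval_comp]
    congr 1
    simp
  have h1 : ∀ (k : ℕ) (z : F), IsIntegral ℤ z → (∃ Q : (𝓞 L)[X], ((p ^ k : ℕ) : F) * z =
      aeval (1 - η) Q) → ∃ Q' : (𝓞 L)[X], z = aeval (1 - η) Q' := by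
    intro k
    induction k with
    | zero =>
      rintro z _ ⟨Q, hQ⟩
      exact ⟨Q, by rw [← hQ]; simp⟩
    | succ k ih =>
      rintro z hz ⟨Q, hQ⟩
      have h2 : IsIntegral ℤ (((p ^ k : ℕ) : F) * z) := (nat_int _).mul hz
      obtain ⟨Q', hQ'⟩ := stepB hL hη hgen h2 Q (by
        rw [← hQ, pow_succ]
        push_cast
        ring)
      exact ih z hz ⟨Q', hQ'⟩
  obtain ⟨P, hP⟩ := exists_mul_mem' (pow_pos hp.out.pos (j + 1)) hη.pow_eq_one hgen y hy
  rw [← pow_mul, hconv] at hP
  obtain ⟨Q, hQ⟩ := h1 _ y hy ⟨_, hP⟩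
  refine ⟨Q.comp (1 - X), ?_⟩
  rw [hQ, hconv]
  congr 2
  ring

end cyc

end Pool.Agent.X184.SP
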