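import Mathlib
import Pool.Agent.X184.SP.L

/-!
# The bound over the tower of cyclotomic extensions of `p`-power conductor
-/

set_option autoImplicit false

open Finset Polynomial Module NumberField IntermediateField Pool.Agent.X184.SZ

namespace Pool.Agent.X184.SP

/-- powers of sums -/
lemma sumpow {S ι : Type*} [CommRing S] {p : ℕ} (hp : p.Prime) (s : Finset ι) (f : ι → S) (k : ℕ) :
    ∃ z : S, (∑ i ∈ s, f i) ^ (p ^ k) = ∑ i ∈ s, (f i) ^ (p ^ k) + p * z := by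
  classical
  induction s using Finset.induction_on with
  | empty =>
    refine ⟨0, ?_⟩
    rw [Finset.sum_empty, Finset.sum_empty, zero_pow (pow_pos hp.pos k).ne']
    ring
  | insert i s hi ih =>
    obtain ⟨z, hz⟩ := ih
    obtain ⟨w, hw⟩ := exists_add_pow_prime_pow_eq hp (f i) (∑ i ∈ s, f i) k
    refine ⟨f i * (∑ i ∈ s, f i) * w + z, ?_⟩
    rw [Finset.sum_insert hi, Finset.sum_insert hi, hw, hz]
    ring

/-- powers of congruent elements -/
lemma powcong {S : Type*} [CommRing S] {p : ℕ} {a b y : S} (h : a = b + p * y) (k : ℕ) :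
    ∃ z : S, a ^ k = b ^ k + p * z := by
  obtain ⟨w, hw⟩ := sub_dvd_pow_sub_pow a b k
  refine ⟨y * w, ?_⟩
  have e : a - b = p * y := by rw [h]; ring
  rw [e] at hw
  linear_combination hw

section
variable {L F : Type} [Field L] [NumberField L] [Field F] [NumberField F] [Algebra L F]

/-- extension of endomorphisms -/
lemma exists_ext (σ : L →ₐ[ℚ] L) {x : F} (hgen : L⟮x⟯ = ⊤) (x' : F)
    (h : eval₂ ((algebraMap L F).comp (σ : L →+* L)) x' (minpoly L x) = 0) :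
    ∃ σ' : F →ₐ[ℚ] F, (∀ a : L, σ' (algebraMap L F a) = algebraMap L F (σ a)) ∧ σ' x = x' := by
  haveI : FiniteDimensional L F := FiniteDimensional.right ℚ L F
  have hint : IsIntegral L x := Algebra.IsIntegral.isIntegral x
  set μ := minpoly L x with hμ
  set f : AdjoinRoot μ →+* F :=
    AdjoinRoot.lift ((algebraMap L F).comp (σ : L →+* L)) x' h with hf
  set e : AdjoinRoot μ ≃ₐ[L] L⟮x⟯ := adjoinRootEquivAdjoin L hint with he
  set ψ : F →ₐ[L] L⟮x⟯ := ((equivOfEq hgen.symm).toAlgHom.comp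
    (topEquiv (F := L) (E := F)).symm.toAlgHom) with hψ
  set s' : F →+* F := f.comp ((e.symm : L⟮x⟯ →+* AdjoinRoot μ).comp (ψ : F →+* L⟮x⟯)) with hs'
  refine ⟨s'.toRatAlgHom, ?_, ?_⟩
  · intro a
    have e1 : ψ (algebraMap L F a) = algebraMap L L⟮x⟯ a := ψ.commutes a
    have e2 : e.symm (algebraMap L L⟮x⟯ a) = algebraMap L (AdjoinRoot μ) a := e.symm.commutes a
    change f (e.symm (ψ (algebraMap L F a))) = _
    rw [e1, e2, AdjoinRoot.algebraMap_eq, hf, AdjoinRoot.lift_of]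
    rfl
  · have e1 : ψ x = AdjoinSimple.gen L x := rfl
    have e2 : e.symm (AdjoinSimple.gen L x) = AdjoinRoot.root μ := by
      rw [AlgEquiv.symm_apply_eq]
      exact (adjoinRootEquivAdjoin_apply_root L hint).symm
    change f (e.symm (ψ x)) = _
    rw [e1, e2, hf, AdjoinRoot.lift_root]

/-- conjugation over the base field -/
lemma exists_conj' {x x' : F} (hgen : L⟮x⟯ = ⊤) (h : aeval x' (minpoly L x) = 0) :
    ∃ τ : F →ₐ[L] F, τ x = x' := by
  haveI : FiniteDimensional L F := FiniteDimensional.right ℚ L F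
  have hint : IsIntegral L x := Algebra.IsIntegral.isIntegral x
  have hroot : x' ∈ (minpoly L x).aroots F := by
    rw [mem_aroots]
    exact ⟨minpoly.ne_zero hint, h⟩
  set φ : L⟮x⟯ →ₐ[L] F := (algHomAdjoinIntegralEquiv L hint).symm ⟨x', hroot⟩ with hφ
  have hφg : φ (AdjoinSimple.gen L x) = x' := by
    rw [hφ, algHomAdjoinIntegralEquiv_symm_apply_gen]
  set ψ : F →ₐ[L] L⟮x⟯ := ((equivOfEq hgen.symm).toAlgHom.comp
    (topEquiv (F := L) (E := F)).symm.toAlgHom) with hψ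
  refine ⟨φ.comp ψ, ?_⟩
  have h1 : ψ x = AdjoinSimple.gen L x := rfl
  rw [AlgHom.comp_apply, h1, hφg]

variable {p : ℕ} [hp : Fact p.Prime]

/-- the congruence for an endomorphism -/
lemma cong_base (σ : L →ₐ[ℚ] L) {r : ℕ}
    (hσ : ∀ x : 𝓞 L, ∃ y : 𝓞 L, σ x = (x : L) ^ (p ^ r) + p * y) (hL : Red L p) {η : F}
    (hη : IsPrimitiveRoot η (p ^ 2)) (hgen : L⟮η⟯ = ⊤) (σ' : F →ₐ[ℚ] F)
    (h1 : ∀ a : L, σ' (algebraMap L F a) = algebraMap L F (σ a)) (h2 : σ' η = η) :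
    ∀ x : 𝓞 F, ∃ y : 𝓞 F, (σ' x) ^ (p ^ 2) = (x : F) ^ (p ^ (r + 2)) + p * y := by
  intro x
  obtain ⟨Q, hQ⟩ := int_rep (j := 1) hL hη hgen (y := (x : F)) x.2
  have hηi : IsIntegral ℤ η := hη.isIntegral (pow_pos hp.out.pos _)
  set w : 𝓞 F := ⟨η, hηi⟩ with hw
  set cc : ℕ → 𝓞 F := fun i => algebraMap (𝓞 L) (𝓞 F) (Q.coeff i) with hcc
  have hccF : ∀ i, ((cc i : 𝓞 F) : F) = algebraMap L F (Q.coeff i : L) := fun i => rfl
  set N := Q.natDegree + 1 with hN
  have hx : (x : F) = ∑ i ∈ range N, (cc i : F) * η ^ i := by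
    rw [hQ, aeval_eq_sum_range]
    refine Finset.sum_congr rfl fun i _ => ?_
    rw [Algebra.smul_def]
    rfl
  have hxS : x = ∑ i ∈ range N, cc i * w ^ i := by
    apply RingOfIntegers.ext
    rw [hx]
    have e : ((∑ i ∈ range N, cc i * w ^ i : 𝓞 F) : F) =
        algebraMap (𝓞 F) F (∑ i ∈ range N, cc i * w ^ i) := rfl
    rw [e, map_sum]
    refine Finset.sum_congr rfl fun i _ => ?_
    rw [map_mul, map_pow]
    rfl
  have hwp : w ^ (p ^ 2) = 1 := by
    apply RingOfIntegers.ext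
    change algebraMap (𝓞 F) F (w ^ (p ^ 2)) = algebraMap (𝓞 F) F 1
    rw [map_pow, map_one]
    exact hη.pow_eq_one
  set sR : 𝓞 F →+* 𝓞 F := RingOfIntegers.mapRingHom σ'.toRingHom with hsR
  have hsw : sR w = w := RingOfIntegers.ext h2
  have hsc : ∀ i, ∃ y : 𝓞 F, sR (cc i) = (cc i) ^ (p ^ r) + p * y := by
    intro i
    obtain ⟨y, hy⟩ := hσ (Q.coeff i)
    refine ⟨algebraMap (𝓞 L) (𝓞 F) y, ?_⟩
    apply RingOfIntegers.ext
    have e1 : ((sR (cc i) : 𝓞 F) : F) = algebraMap L F (σ (Q.coeff i : L)) := h1 _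
    have e2 : (((cc i) ^ (p ^ r) + p * algebraMap (𝓞 L) (𝓞 F) y : 𝓞 F) : F) =
        (algebraMap L F (Q.coeff i : L)) ^ (p ^ r) + p * algebraMap L F (y : L) := by
      change algebraMap (𝓞 F) F ((cc i) ^ (p ^ r) + p * algebraMap (𝓞 L) (𝓞 F) y) = _
      rw [map_add, map_mul, map_pow, map_natCast]
      rfl
    rw [e1, e2, hy, map_add, map_mul, map_pow, map_natCast]
  choose y hy using hsc
  have hkey : ∃ z : 𝓞 F, (sR x) ^ (p ^ 2) = x ^ (p ^ (r + 2)) + p * z := by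
    obtain ⟨z₁, hz₁⟩ := sumpow hp.out (range N) (fun i => sR (cc i) * w ^ i) 2
    obtain ⟨z₂, hz₂⟩ := sumpow hp.out (range N) (fun i => cc i * w ^ i) (r + 2)
    have hc : ∀ i, ∃ z : 𝓞 F, (sR (cc i)) ^ (p ^ 2) = (cc i) ^ (p ^ (r + 2)) + p * z := by
      intro i
      obtain ⟨z, hz⟩ := powcong (hy i) (p ^ 2)
      refine ⟨z, ?_⟩
      rw [hz, ← pow_mul, ← pow_add]
    choose z hz using hc
    refine ⟨z₁ - z₂ + ∑ i ∈ range N, z i, ?_⟩
    have hsx : sR x = ∑ i ∈ range N, sR (cc i) * w ^ i := by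
      conv_lhs => rw [hxS]
      rw [map_sum]
      refine Finset.sum_congr rfl fun i _ => ?_
      rw [map_mul, map_pow, hsw]
    have e1 : ∑ i ∈ range N, (sR (cc i) * w ^ i) ^ (p ^ 2) = ∑ i ∈ range N, (sR (cc i)) ^ (p ^ 2) := by
      refine Finset.sum_congr rfl fun i _ => ?_
      rw [mul_pow, ← pow_mul, mul_comm i, pow_mul, hwp, one_pow, mul_one]
    have e2 : ∑ i ∈ range N, (cc i * w ^ i) ^ (p ^ (r + 2)) =
        ∑ i ∈ range N, (cc i) ^ (p ^ (r + 2)) := by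
      refine Finset.sum_congr rfl fun i _ => ?_
      have e4 : (w ^ i) ^ (p ^ (r + 2)) = 1 := by
        rw [← pow_mul, show i * p ^ (r + 2) = p ^ 2 * (i * p ^ r) by ring, pow_mul, hwp, one_pow]
      rw [mul_pow, e4, mul_one]
    have e3 : ∑ i ∈ range N, (sR (cc i)) ^ (p ^ 2) =
        ∑ i ∈ range N, (cc i) ^ (p ^ (r + 2)) + p * ∑ i ∈ range N, z i := by
      rw [Finset.mul_sum, ← Finset.sum_add_distrib]
      exact Finset.sum_congr rfl fun i _ => hz i
    rw [e1, e3] at hz₁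
    rw [e2, ← hxS] at hz₂
    rw [hsx, hz₁, hz₂]
    ring
  obtain ⟨z, hz⟩ := hkey
  refine ⟨z, ?_⟩
  have h3 := congrArg (algebraMap (𝓞 F) F) hz
  rw [map_add, map_mul, map_pow, map_pow, map_natCast] at h3
  exact h3

end

end Pool.Agent.X184.SP
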