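import Mathlib
import Pool.Agent.X184.SP.M

/-!
# The bound over the tower of cyclotomic extensions of `p`-power conductor
-/

set_option autoImplicit false

open Finset Polynomial Module NumberField IntermediateField Pool.Agent.X184.SZ

namespace Pool.Agent.X184.SP

/-- the constant -/
noncomputable def cst (p r : ℕ) : ℝ := 1 / (32 * ((p : ℝ) ^ 6 + (p : ℝ) ^ (2 * (r + 3))))

/-- representation as polynomials -/
lemma rep_of {K F : Type} [Field K] [Field F] [Algebra K F] [FiniteDimensional K F] {η : F}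
    (hgen : K⟮η⟯ = ⊤) (x : F) : ∃ q : K[X], x = aeval η q := by
  have hint : IsIntegral K η := Algebra.IsIntegral.isIntegral η
  have hx : x ∈ K⟮η⟯ := by rw [hgen]; trivial
  obtain ⟨q, hq⟩ := (adjoin.powerBasis hint).exists_eq_aeval' (⟨x, hx⟩ : K⟮η⟯)
  refine ⟨q, ?_⟩
  have h1 := congrArg (algebraMap K⟮η⟯ F) hq
  rw [← aeval_algebraMap_apply, adjoin.powerBasis_gen, AdjoinSimple.algebraMap_gen] at h1
  exact h1

section
variable {L : Type} [Field L] [NumberField L] {p : ℕ} [hp : Fact p.Prime]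

theorem baseP {F : Type} [Field F] [NumberField F] [Algebra L F] (σ : L →ₐ[ℚ] L) {r : ℕ}
    (hr : 0 < r) (hσ : ∀ x : 𝓞 L, ∃ y : 𝓞 L, σ x = (x : L) ^ (p ^ r) + p * y) (hL : Red L p)
    {η : F} (hη : IsPrimitiveRoot η (p ^ 2)) (hgen : L⟮η⟯ = ⊤) : Bd F (cst p r) := by
  have hp2 := hp.out.two_le
  obtain ⟨σ', h1, h2⟩ := exists_ext (F := F) σ hgen η (by
    rw [minpoly_cyc (j := 1) hL hη hgen, ← eval_map, map_cyclotomic]
    exact hη.isRoot_cyclotomic (pow_pos hp.out.pos _))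
  apply bdP_of hp.out hη
  intro E _ _ _ α hα h0 hroot hgenα hall
  rcases coreP (F := F) p σ' 2 (r + 2) (cong_base σ hσ hL hη hgen σ' h1 h2) hα h0 hgenα
    (fun τ τ' h3 h4 => inj_of hgenα (hall (2 + 1)) τ τ' h3 h4) with h | h
  · exact h
  · exfalso
    obtain ⟨τ₀, hτ₀⟩ := exists_bigF hα h0 hroot
    have hex : ((Finset.univ : Finset (E →ₐ[ℚ] ℂ)).filter fun τ => 1 < ‖τ α‖).Nonempty :=
      ⟨τ₀, by simp [hτ₀]⟩
    obtain ⟨τ, hτm, hmin⟩ := Finset.exists_min_image _ (fun τ : E →ₐ[ℚ] ℂ => ‖τ α‖) hex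
    have hτ1 : 1 < ‖τ α‖ := (Finset.mem_filter.mp hτm).2
    obtain ⟨τ', -, h4⟩ := h τ
    have h5 := congrArg norm h4
    simp only [norm_pow] at h5
    rw [show r + 2 + 1 = r + (2 + 1) by ring, pow_add, pow_mul] at h5
    have hpp : p ^ (2 + 1) ≠ 0 := pow_ne_zero _ hp.out.ne_zero
    have h6 : ‖τ' α‖ ^ (p ^ r) = ‖τ α‖ :=
      (pow_left_inj₀ (by positivity) (norm_nonneg _) hpp).mp h5
    have h8 : 1 < ‖τ' α‖ := by
      by_contra hle
      push Not at hle
      have := pow_le_one₀ (n := p ^ r) (norm_nonneg (τ' α)) hle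
      rw [h6] at this
      linarith
    have h9 := hmin τ' (by simp [h8])
    have h10 : ‖τ' α‖ < ‖τ' α‖ ^ (p ^ r) := by
      have : 1 < p ^ r := Nat.one_lt_pow hr.ne' hp.out.one_lt
      calc ‖τ' α‖ = ‖τ' α‖ ^ 1 := (pow_one _).symm
        _ < _ := pow_lt_pow_right₀ h8 this
    rw [h6] at h10
    linarith

/-- the step -/
theorem stepP {F F' : Type} [Field F] [NumberField F] [Field F'] [NumberField F'] [Algebra L F']
    [Algebra F F'] [Algebra L F] [IsScalarTower L F F'] (hL : Red L p) {c : ℝ}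
    (hc : c ≤ 1 / (64 * (p : ℝ) ^ 4)) (hB : Bd F c) {i : ℕ} {η : F'}
    (hη : IsPrimitiveRoot η (p ^ (i + 3))) (hgen : L⟮η⟯ = ⊤) {ζ : F}
    (hζ : algebraMap F F' ζ = η ^ p) (hgenF : L⟮ζ⟯ = ⊤) : Bd F' c := by
  classical
  have hpp := hp.out
  haveI : FiniteDimensional L F' := FiniteDimensional.right ℚ L F'
  haveI : FiniteDimensional F F' := FiniteDimensional.right ℚ F F'
  haveI : FiniteDimensional L F := FiniteDimensional.right ℚ L F
  have hζp : IsPrimitiveRoot ζ (p ^ (i + 2)) := by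
    apply IsPrimitiveRoot.of_map_of_injective (f := algebraMap F F') _ (algebraMap F F').injective
    rw [hζ]
    exact hη.pow (pow_pos hpp.pos _) (by rw [← pow_succ'])
  -- the conjugation
  have hcop : Nat.Coprime (1 + p ^ (i + 2)) (p ^ (i + 3)) := by
    apply Nat.Coprime.pow_right
    rw [pow_succ']
    simp
  obtain ⟨τL, hτL⟩ := exists_conj' (x := η) (x' := η ^ (1 + p ^ (i + 2))) hgen (by
    rw [minpoly_cyc (j := i + 2) hL hη hgen, aeval_def, ← eval_map, map_cyclotomic]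
    exact (hη.pow_of_coprime _ hcop).isRoot_cyclotomic (pow_pos hpp.pos _))
  have hfixζ : τL (η ^ p) = η ^ p := by
    rw [map_pow, hτL, ← pow_mul, add_mul, one_mul, pow_add, ← pow_succ,
      show i + 2 + 1 = i + 3 by ring, hη.pow_eq_one, mul_one]
  have hcomm : ∀ x : F, τL (algebraMap F F' x) = algebraMap F F' x := by
    intro x
    obtain ⟨q, hq⟩ := rep_of hgenF x
    rw [hq, ← aeval_algebraMap_apply, hζ]
    rw [← aeval_algHom_apply, hfixζ]
  set τ₀ : F' →ₐ[F] F' := { τL.toRingHom with commutes' := hcomm } with hτ₀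
  have hτ₀a : ∀ x, τ₀ x = τL x := fun x => rfl
  set ω₀ : F := ζ ^ (p ^ (i + 1)) with hω₀
  have hω₀p : IsPrimitiveRoot ω₀ p :=
    hζp.pow (pow_pos hpp.pos _) (by rw [← pow_succ])
  set ω : F' := algebraMap F F' ω₀ with hω
  have hωη : ω = η ^ (p ^ (i + 2)) := by
    rw [hω, hω₀, map_pow, hζ, ← pow_mul, ← pow_succ']
  have hτη : τ₀ η = ω * η := by
    rw [hτ₀a, hτL, pow_add, pow_one, hωη, mul_comm]
  have hωp : IsPrimitiveRoot ω p :=
    hω₀p.map_of_injective (f := algebraMap F F') (algebraMap F F').injective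
  have hτω : τ₀ ω = ω := τ₀.commutes ω₀
  have hτk : ∀ k : ℕ, (τ₀ ^ k) η = ω ^ k * η := by
    intro k
    induction k with
    | zero => rw [pow_zero, pow_zero, one_mul]; rfl
    | succ k ih =>
      rw [pow_succ']
      change τ₀ ((τ₀ ^ k) η) = _
      rw [ih, map_mul, map_pow, hτω, hτη, pow_succ]
      ring
  have hgenF' : F⟮η⟯ = ⊤ := by
    rw [eq_top_iff]
    intro y _
    have h2 : y ∈ L⟮η⟯ := by rw [hgen]; trivial
    have h3 : L⟮η⟯ ≤ (F⟮η⟯).restrictScalars L := by
      rw [adjoin_simple_le_iff]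
      exact mem_adjoin_simple_self F η
    exact h3 h2
  have hτp : ∀ x, (τ₀ ^ p) x = x := by
    intro x
    obtain ⟨q, hq⟩ := rep_of hgenF' x
    rw [hq, ← aeval_algHom_apply, hτk, hωp.pow_eq_one, one_mul]
  have hηN : η ^ (p ^ (i + 3)) = 1 := hη.pow_eq_one
  refine descendP hc hB τ₀ hτp ?_ ?_ (ρ₀ := ζ ^ (p ^ i)) ?_ hω₀p η hτη
    (pow_pos hpp.pos (i + 3)) hηN
  · -- fixed elements
    intro x hx
    obtain ⟨q, hq⟩ := rep_of hgenF' x
    have hp0 : (p : F') ≠ 0 := by exact_mod_cast hpp.ne_zero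
    have hxk : ∀ k : ℕ, (τ₀ ^ k) x = x := by
      intro k
      induction k with
      | zero => rw [pow_zero]; rfl
      | succ k ih =>
        rw [pow_succ]
        change (τ₀ ^ k) (τ₀ x) = x
        rw [hx, ih]
    have h1 : (p : F') * x = ∑ k ∈ range p, (τ₀ ^ k) x := by
      rw [Finset.sum_congr rfl (fun k _ => hxk k), Finset.sum_const, card_range, nsmul_eq_mul]
    have h2 : ∀ k : ℕ, (τ₀ ^ k) x =
        ∑ l ∈ range (q.natDegree + 1), algebraMap F F' (q.coeff l) * (η ^ l * (ω ^ l) ^ k) := by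
      intro k
      rw [hq, ← aeval_algHom_apply, hτk, aeval_eq_sum_range]
      refine Finset.sum_congr rfl fun l _ => ?_
      rw [Algebra.smul_def, mul_pow, ← pow_mul, ← pow_mul, mul_comm k l]
      ring
    rw [Finset.sum_congr rfl (fun k _ => h2 k), Finset.sum_comm] at h1
    have h3 : ∀ l, ∑ k ∈ range p, algebraMap F F' (q.coeff l) * (η ^ l * (ω ^ l) ^ k) ∈
        (algebraMap F F').range := by
      intro l
      rw [← Finset.mul_sum, ← Finset.mul_sum]
      by_cases hl : p ∣ l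
      · obtain ⟨t, rfl⟩ := hl
        have e1 : ω ^ (p * t) = 1 := by rw [pow_mul, hωp.pow_eq_one, one_pow]
        simp only [e1, one_pow, Finset.sum_const, card_range, nsmul_eq_mul, mul_one]
        refine ⟨q.coeff (p * t) * (ζ ^ t * p), ?_⟩
        rw [map_mul, map_mul, map_pow, hζ, map_natCast, ← pow_mul]
      · have e1 : ω ^ l ≠ 1 := fun h => hl (hωp.dvd_of_pow_eq_one l h)
        have e2 : ∑ k ∈ range p, (ω ^ l) ^ k = 0 := by
          have h4 := geom_sum_mul (ω ^ l) p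
          rw [← pow_mul, mul_comm l p, pow_mul, hωp.pow_eq_one, one_pow, sub_self] at h4
          exact (mul_eq_zero.mp h4).resolve_right (sub_ne_zero.mpr e1)
        rw [e2, mul_zero, mul_zero]
        exact zero_mem _
    obtain ⟨y, hy⟩ : (p : F') * x ∈ (algebraMap F F').range := by
      rw [h1]
      exact sum_mem fun l _ => h3 l
    refine ⟨y / p, ?_⟩
    rw [map_div₀, map_natCast, hy, mul_div_cancel_left₀ _ hp0]
  · -- the congruence
    intro x
    obtain ⟨Q, hQ⟩ := int_rep (j := i + 2) hL hη hgen (y := (x : F')) x.2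
    have hηi : IsIntegral ℤ η := hη.isIntegral (pow_pos hpp.pos _)
    set w : 𝓞 F' := ⟨η, hηi⟩ with hw
    set v : 𝓞 F' := ⟨ω, hωp.isIntegral hpp.pos⟩ with hv
    set cc : ℕ → 𝓞 F' := fun i => algebraMap (𝓞 L) (𝓞 F') (Q.coeff i) with hcc
    set N := Q.natDegree + 1 with hN
    have hx : (x : F') = ∑ i ∈ range N, (cc i : F') * η ^ i := by
      rw [hQ, aeval_eq_sum_range]
      refine Finset.sum_congr rfl fun i _ => ?_
      rw [Algebra.smul_def]
      rfl
    have hxS : x = ∑ i ∈ range N, cc i * w ^ i := by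
      apply RingOfIntegers.ext
      rw [hx]
      have e : ((∑ i ∈ range N, cc i * w ^ i : 𝓞 F') : F') =
          algebraMap (𝓞 F') F' (∑ i ∈ range N, cc i * w ^ i) := rfl
      rw [e, map_sum]
      refine Finset.sum_congr rfl fun i _ => ?_
      rw [map_mul, map_pow]
      rfl
    have hvp : v ^ p = 1 := by
      apply RingOfIntegers.ext
      change algebraMap (𝓞 F') F' (v ^ p) = algebraMap (𝓞 F') F' 1
      rw [map_pow, map_one]
      exact hωp.pow_eq_one
    set sR : 𝓞 F' →+* 𝓞 F' := RingOfIntegers.mapRingHom (τ₀ : F' →+* F') with hsR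
    have hsw : sR w = v * w := RingOfIntegers.ext hτη
    have hsc : ∀ i, sR (cc i) = cc i := by
      intro i
      apply RingOfIntegers.ext
      change τ₀ (algebraMap L F' (Q.coeff i : L)) = algebraMap L F' (Q.coeff i : L)
      exact τL.commutes _
    have hkey : ∃ z : 𝓞 F', (sR x) ^ p = x ^ p + p * z := by
      obtain ⟨z₁, hz₁⟩ := sumpow hpp (range N) (fun i => cc i * (v * w) ^ i) 1
      obtain ⟨z₂, hz₂⟩ := sumpow hpp (range N) (fun i => cc i * w ^ i) 1
      rw [pow_one] at hz₁ hz₂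
      refine ⟨z₁ - z₂, ?_⟩
      have hsx : sR x = ∑ i ∈ range N, cc i * (v * w) ^ i := by
        conv_lhs => rw [hxS]
        rw [map_sum]
        refine Finset.sum_congr rfl fun i _ => ?_
        rw [map_mul, map_pow, hsw, hsc]
      have e1 : ∑ i ∈ range N, (cc i * (v * w) ^ i) ^ p = ∑ i ∈ range N, (cc i * w ^ i) ^ p := by
        refine Finset.sum_congr rfl fun i _ => ?_
        have e4 : (v ^ i) ^ p = 1 := by rw [← pow_mul, mul_comm, pow_mul, hvp, one_pow]
        rw [mul_pow v w, mul_pow, mul_pow, mul_pow, e4, one_mul]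
      rw [e1] at hz₁
      rw [← hxS] at hz₂
      rw [hsx, hz₁, hz₂]
      ring
    obtain ⟨z, hz⟩ := hkey
    refine ⟨z, ?_⟩
    have h3 := congrArg (algebraMap (𝓞 F') F') hz
    rw [map_add, map_mul, map_pow, map_pow, map_natCast] at h3
    exact h3
  · exact hζp.pow (pow_pos hpp.pos _) (by rw [← pow_add])

lemma cst_le (r : ℕ) : cst p r ≤ 1 / (64 * (p : ℝ) ^ 4) := by
  have hp2 : (2:ℝ) ≤ p := by exact_mod_cast hp.out.two_le
  unfold cst
  apply one_div_le_one_div_of_le (by positivity)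
  have h1 : (0:ℝ) ≤ (p : ℝ) ^ (2 * (r + 3)) := by positivity
  have h2 : (2:ℝ) * (p : ℝ) ^ 4 ≤ (p : ℝ) ^ 6 := by
    have h3 : (2:ℝ) ≤ (p : ℝ) ^ 2 := by nlinarith
    calc (2:ℝ) * (p : ℝ) ^ 4 ≤ (p : ℝ) ^ 2 * (p : ℝ) ^ 4 :=
          mul_le_mul_of_nonneg_right h3 (by positivity)
      _ = _ := by ring
  linarith

theorem towerP (σ : L →ₐ[ℚ] L) {r : ℕ}
    (hr : 0 < r) (hσ : ∀ x : 𝓞 L, ∃ y : 𝓞 L, σ x = (x : L) ^ (p ^ r) + p * y) (hL : Red L p) :
    ∀ (i : ℕ) (F : Type) [Field F] [NumberField F] [Algebra L F] (η : F),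
      IsPrimitiveRoot η (p ^ (i + 2)) → L⟮η⟯ = ⊤ → Bd F (cst p r) := by
  intro i
  induction i with
  | zero =>
    intro F _ _ _ η hη hgen
    exact baseP σ hr hσ hL hη hgen
  | succ i ih =>
    intro F' _ _ _ η hη hgen
    haveI : FiniteDimensional L F' := FiniteDimensional.right ℚ L F'
    set F := L⟮η ^ p⟯ with hF
    haveI : FiniteDimensional L F := inferInstance
    haveI : FiniteDimensional ℚ F := Module.Finite.trans L F
    haveI : NumberField F := { to_charZero := inferInstance, to_finiteDimensional := inferInstance }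
    set ζ : F := AdjoinSimple.gen L (η ^ p) with hζ
    have hζη : algebraMap F F' ζ = η ^ p := AdjoinSimple.algebraMap_gen L (η ^ p)
    have hη' : IsPrimitiveRoot η (p ^ (i + 3)) := hη
    have h1 : IsPrimitiveRoot ζ (p ^ (i + 2)) := by
      apply IsPrimitiveRoot.of_map_of_injective (f := algebraMap F F') _ (algebraMap F F').injective
      rw [hζη]
      exact hη'.pow (pow_pos hp.out.pos _) (by rw [← pow_succ'])
    exact stepP hL (cst_le r) (ih F ζ h1 (gen_top L F' (η ^ p))) hη' hgen hζη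
      (gen_top L F' (η ^ p))

end

end Pool.Agent.X184.SP
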