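import Mathlib
import Pool.Agent.X184.SP.N
import Pool.Agent.X184.SZ.Q

/-!
# Extension of a lift of a power of Frobenius to cyclotomic extensions of conductor prime to `p`
-/

set_option autoImplicit false

open Finset Polynomial Module NumberField IntermediateField Pool.Agent.X184.SZ

namespace Pool.Agent.X184.SP

section copart
variable {K L : Type} [Field K] [NumberField K] [Field L] [NumberField L] [Algebra K L]
  {p : ℕ} [hp : Fact p.Prime]

/-- extension of the lift of Frobenius to the extension generated by a root of unity of order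
prime to `p` -/
theorem copart {r : ℕ} (σ : K →ₐ[ℚ] K)
    (hσ : ∀ x : 𝓞 K, ∃ y : 𝓞 K, σ x = (x : K) ^ (p ^ r) + p * y) {ω : L} {m : ℕ} (hm0 : 0 < m)
    (hm : Nat.Coprime p m) (hω : ω ^ m = 1) (hgen : K⟮ω⟯ = ⊤) :
    ∃ σ' : L →ₐ[ℚ] L, ∀ x : 𝓞 L, ∃ y : 𝓞 L, σ' x = (x : L) ^ (p ^ r) + p * y := by
  haveI : FiniteDimensional K L := FiniteDimensional.right ℚ K L
  have hpp := hp.out
  have hp0 : (p : L) ≠ 0 := by exact_mod_cast hpp.ne_zero
  have hint : IsIntegral K ω := Algebra.IsIntegral.isIntegral ω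
  have hωi : IsIntegral ℤ ω := ⟨X ^ m - 1, monic_X_pow_sub_C 1 hm0.ne', by simp [hω]⟩
  have hωR : IsIntegral (𝓞 K) ω := hωi.tower_top
  set q : ℕ := p ^ r with hq
  have hq0 : 0 < q := pow_pos hpp.pos _
  set sR : 𝓞 K →+* 𝓞 K := RingOfIntegers.mapRingHom σ.toRingHom with hsR
  -- the two evaluations
  set φ : 𝓞 K →+* L := algebraMap (𝓞 K) L with hφ
  have hfr : ∀ P : (𝓞 K)[X], ∃ y : L, IsIntegral ℤ y ∧
      eval₂ (φ.comp sR) (ω ^ q) P = (aeval ω P) ^ q + p * y := by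
    intro P
    set w : 𝓞 L := ⟨ω, hωi⟩ with hw
    set cc : ℕ → 𝓞 L := fun i => algebraMap (𝓞 K) (𝓞 L) (P.coeff i) with hcc
    set N := P.natDegree + 1 with hN
    obtain ⟨z, hz⟩ := sumpow hpp (range N) (fun i => cc i * w ^ i) r
    have h1 := congrArg (algebraMap (𝓞 L) L) hz
    rw [map_pow, map_sum, map_add, map_sum, map_mul, map_natCast] at h1
    have h2 : aeval ω P = ∑ i ∈ range N, algebraMap (𝓞 L) L (cc i * w ^ i) := by
      rw [aeval_eq_sum_range]
      refine Finset.sum_congr rfl fun i _ => ?_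
      rw [Algebra.smul_def, map_mul, map_pow]
      rfl
    choose y hy using fun i => hσ (P.coeff i)
    have h3 : eval₂ (φ.comp sR) (ω ^ q) P = ∑ i ∈ range N, (algebraMap (𝓞 L) L ((cc i * w ^ i) ^ q)
        + p * (algebraMap K L (y i : K) * (ω ^ q) ^ i)) := by
      rw [eval₂_eq_sum_range]
      refine Finset.sum_congr rfl fun i _ => ?_
      have h4 : (φ.comp sR) (P.coeff i) = algebraMap K L (σ (P.coeff i : K)) := rfl
      have h5 : algebraMap (𝓞 L) L (cc i) = algebraMap K L (P.coeff i : K) := rfl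
      have h6 : algebraMap (𝓞 L) L w = ω := rfl
      rw [h4, hy, map_add, map_mul, map_pow, map_natCast, map_pow, map_mul, map_pow, h5, h6,
        mul_pow, ← pow_mul ω i, mul_comm i, pow_mul ω q]
      ring
    refine ⟨∑ i ∈ range N, (algebraMap K L (y i : K) * (ω ^ q) ^ i) - algebraMap (𝓞 L) L z,
      IsIntegral.sub (IsIntegral.sum _ fun i _ => ?_) z.2, ?_⟩
    · exact (int_map.mpr (y i).2).mul ((hωi.pow q).pow i)
    · rw [h3, h2, h1, Finset.sum_add_distrib, ← Finset.mul_sum]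
      ring
  -- the minimal polynomial
  set μ0 := minpoly (𝓞 K) ω with hμ0
  have hμ0e : aeval ω μ0 = 0 := minpoly.aeval _ _
  obtain ⟨ν0, hν0⟩ : μ0 ∣ X ^ m - 1 := minpoly.isIntegrallyClosed_dvd hωR (by simp [hω])
  have hωq : (ω ^ q) ^ m = 1 := by rw [← pow_mul, mul_comm, pow_mul, hω, one_pow]
  have hroot : eval₂ (φ.comp sR) (ω ^ q) μ0 = 0 := by
    by_contra hne
    obtain ⟨y, hy, hy2⟩ := hfr μ0
    rw [hμ0e, zero_pow hq0.ne', zero_add] at hy2
    have h1 := congrArg (eval₂ (φ.comp sR) (ω ^ q)) hν0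
    rw [eval₂_sub, eval₂_mul, eval₂_pow, eval₂_X, eval₂_one, hωq, sub_self] at h1
    have h2 : eval₂ (φ.comp sR) (ω ^ q) ν0 = 0 := (mul_eq_zero.mp h1.symm).resolve_left hne
    have h3 := congrArg (fun Q : (𝓞 K)[X] => eval₂ (φ.comp sR) (ω ^ q) (derivative Q)) hν0
    simp only [derivative_mul, derivative_sub, derivative_X_pow, derivative_one, sub_zero,
      eval₂_add, eval₂_mul, eval₂_pow, eval₂_X, eval₂_natCast, map_natCast, h2, mul_zero, zero_add,
      hy2] at h3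
    have h4 : IsIntegral ℤ (eval₂ (φ.comp sR) (ω ^ q) (derivative ν0)) := by
      rw [← eval₂_map]
      exact eval_int (hωi.pow q) _
    have h5 : (m : L) / p = y * eval₂ (φ.comp sR) (ω ^ q) (derivative ν0) * ω ^ q := by
      have h6 : (ω ^ q) ^ (m - 1) * ω ^ q = 1 := by
        rw [← pow_succ, Nat.sub_add_cancel hm0, hωq]
      have h7 : (m : L) = (m : L) * (ω ^ q) ^ (m - 1) * ω ^ q := by
        rw [mul_assoc, h6, mul_one]
      rw [h7, h3]
      field_simp
    have h6 : p ∣ m := nat_quot (F := L) hpp.ne_zero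
      (by rw [h5]; exact (hy.mul h4).mul (hωi.pow q))
    have h7 := Nat.dvd_gcd (dvd_refl p) h6
    rw [hm.gcd_eq_one] at h7
    exact hpp.one_lt.ne' (Nat.dvd_one.mp h7)
  -- the lift
  have hμμ : minpoly K ω = μ0.map (algebraMap (𝓞 K) K) :=
    minpoly.isIntegrallyClosed_eq_field_fractions' (R := 𝓞 K) K hωR
  have hφσ : ((algebraMap K L).comp (σ : K →+* K)).comp (algebraMap (𝓞 K) K) = φ.comp sR :=
    RingHom.ext fun x => rfl
  obtain ⟨s', hs1, hs2⟩ := exists_ext (F := L) σ hgen (ω ^ q) (by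
    rw [hμμ, eval₂_map, hφσ]
    exact hroot)
  have hs3 : ∀ P : (𝓞 K)[X], s' (aeval ω P) = eval₂ (φ.comp sR) (ω ^ q) P := by
    intro P
    have h1 : s' (aeval ω P) = (s' : L →+* L) (aeval ω P) := rfl
    rw [h1, aeval_def, hom_eval₂]
    have h2 : (s' : L →+* L) ω = ω ^ q := hs2
    rw [h2]
    congr 1
    ext x
    exact hs1 (x : K)
  refine ⟨s', ?_⟩
  intro x
  obtain ⟨P, hP⟩ := exists_mul_mem' hm0 hω hgen (x : L) x.2
  set N := m ^ finrank K L with hN
  obtain ⟨y, hy, hy2⟩ := hfr P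
  rw [← hs3, ← hP, map_mul, map_natCast, mul_pow] at hy2
  obtain ⟨y₀, hy₀, hy3⟩ := hfr (C (N : 𝓞 K))
  rw [eval₂_C, aeval_C, map_natCast, map_natCast] at hy3
  have hcop : IsCoprime (N : ℤ) (p : ℤ) :=
    Nat.isCoprime_iff_coprime.mpr (Nat.Coprime.pow_left _ hm.symm)
  obtain ⟨a, b, hab⟩ := hcop
  have hab' : (a : L) * N + b * p = 1 := by exact_mod_cast hab
  have hint' : ∀ n : ℤ, IsIntegral ℤ (n : L) := fun n => isIntegral_algebraMap (x := n)
  have hsx : IsIntegral ℤ (s' (x : L)) := map_isIntegral_int s' x.2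
  have hxq : IsIntegral ℤ ((x : L) ^ q) := IsIntegral.pow x.2 q
  have hY : IsIntegral ℤ ((a : L) * (y - y₀ * (x : L) ^ q) + b * (s' (x : L) - (x : L) ^ q)) :=
    ((hint' a).mul (hy.sub (hy₀.mul hxq))).add ((hint' b).mul (hsx.sub hxq))
  refine ⟨⟨_, hY⟩, ?_⟩
  change s' (x : L) = (x : L) ^ q +
    p * ((a : L) * (y - y₀ * (x : L) ^ q) + b * (s' (x : L) - (x : L) ^ q))
  linear_combination (a : L) * hy2 - (a : L) * (x : L) ^ q * hy3 +
    ((x : L) ^ q - s' (x : L)) * hab'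

end copart

end Pool.Agent.X184.SP
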