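import Mathlib
import Pool.Agent.X184.SP.O

/-!
# The bound over cyclotomic extensions of algebraic extensions of `ℚ` with a lift of a power of
Frobenius
-/

set_option autoImplicit false

open Finset Polynomial Module NumberField IntermediateField Pool.Agent.X184.SZ

namespace Pool.Agent.X184.SP

/-- cyclotomic extensions of number fields -/
theorem cycloP {K F : Type} [Field K] [NumberField K] [Field F] [NumberField F] [Algebra K F]
    {p : ℕ} [hp : Fact p.Prime] (σ : K →ₐ[ℚ] K) {r : ℕ} (hr : 0 < r)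
    (hσ : ∀ x : 𝓞 K, ∃ y : 𝓞 K, σ x = (x : K) ^ (p ^ r) + p * y) {ζ : F} {n : ℕ} (hn : 0 < n)
    (hpn : p ^ 2 ∣ n) (hζ : IsPrimitiveRoot ζ n) (hgen : K⟮ζ⟯ = ⊤) : Bd F (cst p r) := by
  haveI : FiniteDimensional K F := FiniteDimensional.right ℚ K F
  have hpp := hp.out
  obtain ⟨j, m, hm, hnm⟩ := Nat.exists_eq_pow_mul_and_not_dvd hn.ne' p hpp.ne_one
  have hm0 : 0 < m := by
    rcases Nat.eq_zero_or_pos m with h | h
    · exfalso; apply hm; rw [h]; exact dvd_zero p
    · exact h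
  have hcopm : Nat.Coprime p m := (Nat.Prime.coprime_iff_not_dvd hpp).mpr hm
  have hj2 : 2 ≤ j := by
    rw [hnm] at hpn
    have h1 : p ^ 2 ∣ p ^ j := (Nat.Coprime.pow_left 2 hcopm).dvd_of_dvd_mul_right hpn
    exact (Nat.pow_dvd_pow_iff_le_right hpp.one_lt).mp h1
  obtain ⟨i, rfl⟩ : ∃ i, j = i + 2 := ⟨j - 2, by omega⟩
  set ω : F := ζ ^ (p ^ (i + 2)) with hω
  have hωm : ω ^ m = 1 := by
    rw [hω, ← pow_mul, ← hnm, hζ.pow_eq_one]
  set F₁ := K⟮ω⟯ with hF₁
  haveI : FiniteDimensional K F₁ := inferInstance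
  haveI : FiniteDimensional ℚ F₁ := Module.Finite.trans K F₁
  haveI : NumberField F₁ := { to_charZero := inferInstance, to_finiteDimensional := inferInstance }
  set ω₁ : F₁ := AdjoinSimple.gen K ω with hω₁
  have hω₁ω : algebraMap F₁ F ω₁ = ω := AdjoinSimple.algebraMap_gen K ω
  have hω₁m : ω₁ ^ m = 1 := by
    apply (algebraMap F₁ F).injective
    rw [map_pow, hω₁ω, hωm, map_one]
  obtain ⟨σ₁, hσ₁⟩ := copart σ hσ (ω := ω₁) hm0 hcopm hω₁m (gen_top K F ω)
  have hred : Red F₁ p := red_of hpp σ₁ hr hσ₁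
  -- the generator of order a power of `p`
  have hcop : Nat.Coprime (p ^ (i + 2)) m := Nat.Coprime.pow_left _ hcopm
  have hmem : ∀ η : F, ζ ∈ F₁⟮η⟯ → F₁⟮η⟯ = ⊤ := by
    intro η h
    rw [eq_top_iff]
    intro y _
    have h2 : y ∈ K⟮ζ⟯ := by rw [hgen]; trivial
    have h3 : K⟮ζ⟯ ≤ (F₁⟮η⟯).restrictScalars K := by
      rw [adjoin_simple_le_iff]
      exact h
    exact h3 h2
  have hωmem : ∀ η : F, ω ∈ F₁⟮η⟯ := by
    intro η
    rw [← hω₁ω]
    exact (F₁⟮η⟯).algebraMap_mem ω₁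
  have hζ0 : ζ ≠ 0 := hζ.ne_zero hn.ne'
  set η : F := ζ ^ m with hη
  have hηp : IsPrimitiveRoot η (p ^ (i + 2)) := hζ.pow hn (by rw [hnm, mul_comm])
  refine towerP σ₁ hr hσ₁ hred i F η hηp (hmem _ ?_)
  obtain ⟨a, b, hab⟩ : IsCoprime ((p ^ (i + 2) : ℕ) : ℤ) (m : ℤ) :=
    Nat.isCoprime_iff_coprime.mpr hcop
  have h1 : ζ = ω ^ a * η ^ b := by
    rw [hω, hη, ← zpow_natCast ζ (p ^ (i + 2)), ← zpow_natCast ζ m, ← zpow_mul, ← zpow_mul,
      ← zpow_add₀ hζ0, mul_comm _ a, mul_comm _ b, hab, zpow_one]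
  rw [h1]
  exact mul_mem (zpow_mem (hωmem η) a) (zpow_mem (mem_adjoin_simple_self F₁ η) b)

/-- reduction to number fields -/
theorem reduceP {K : Type} [Field K] [CharZero K] [Algebra.IsAlgebraic ℚ K] {p r : ℕ}
    [hp : Fact p.Prime] (hr : 0 < r) (σ : K →+* K)
    (hσ : ∀ x : K, IsIntegral ℤ x → ∃ y : K, IsIntegral ℤ y ∧ σ x = x ^ (p ^ r) + p * y)
    {F : Type} [Field F] [Algebra K F]
    (hF : IntermediateField.adjoin K {ζ : F | ∃ n : ℕ, 0 < n ∧ ζ ^ n = 1} = ⊤) (g : F[X]) :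
    ∃ (F₀ : Type) (_ : Field F₀) (_ : NumberField F₀), Bd F₀ (cst p r) ∧
      ∀ f : ℤ[X], g ∣ f.map (Int.castRingHom F) → ∃ g₀ : F₀[X], g₀.natDegree = g.natDegree ∧
        g₀ ∣ f.map (Int.castRingHom F₀) := by
  classical
  have hpp := hp.out
  haveI : CharZero F := charZero_of_injective_algebraMap (algebraMap K F).injective
  set Ω := AlgebraicClosure F with hΩ
  haveI : CharZero Ω := charZero_of_injective_algebraMap (algebraMap F Ω).injective
  haveI : IsScalarTower ℚ K Ω := inferInstance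
  haveI : IsScalarTower ℚ F Ω := inferInstance
  set U : Set Ω := Set.range (algebraMap K Ω) ∪ {ζ : Ω | ∃ n : ℕ, 0 < n ∧ ζ ^ n = 1} with hU
  -- all elements are generated
  have hall : ∀ x : F, algebraMap F Ω x ∈ IntermediateField.adjoin ℚ U := by
    intro x
    have hx : x ∈ IntermediateField.adjoin K {ζ : F | ∃ n : ℕ, 0 < n ∧ ζ ^ n = 1} := by
      rw [hF]; trivial
    induction hx using IntermediateField.adjoin_induction with
    | mem x hx =>
      obtain ⟨n, hn, h⟩ := hx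
      apply IntermediateField.subset_adjoin
      right
      exact ⟨n, hn, by rw [← map_pow, h, map_one]⟩
    | algebraMap x =>
      apply IntermediateField.subset_adjoin
      left
      exact ⟨x, (IsScalarTower.algebraMap_apply K F Ω x)⟩
    | add x y _ _ hx hy => rw [map_add]; exact add_mem hx hy
    | inv x _ hx => rw [map_inv₀]; exact inv_mem hx
    | mul x y _ _ hx hy => rw [map_mul]; exact mul_mem hx hy
  choose T hTU hT using fun x : F => IntermediateField.exists_finset_of_mem_adjoin (hall x)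
  set T₀ : Finset Ω := (range (g.natDegree + 1)).biUnion fun i => T (g.coeff i) with hT₀
  have hT₀U : (T₀ : Set Ω) ⊆ U := by
    intro x hx
    rw [hT₀, Finset.mem_coe, Finset.mem_biUnion] at hx
    obtain ⟨i, _, hi⟩ := hx
    exact hTU _ hi
  have h1 : ∀ S : Finset Ω, (S : Set Ω) ⊆ U → ∃ (A : Finset K) (n : ℕ), 0 < n ∧
      ∀ t ∈ S, (∃ a ∈ A, algebraMap K Ω a = t) ∨ t ^ n = 1 := by
    intro S
    induction S using Finset.induction_on with
    | empty => intro _; exact ⟨∅, 1, one_pos, by simp⟩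
    | insert t S _ ih =>
      intro hS
      obtain ⟨A, n, hn, hA⟩ := ih (fun x hx => hS (by
        rw [Finset.coe_insert]; exact Set.mem_insert_of_mem _ hx))
      have ht : t ∈ U := hS (by rw [Finset.coe_insert]; exact Set.mem_insert _ _)
      rcases ht with ⟨a, ha⟩ | ⟨k, hk, h⟩
      · refine ⟨insert a A, n, hn, ?_⟩
        intro s hs
        rcases Finset.mem_insert.mp hs with rfl | hs
        · exact Or.inl ⟨a, Finset.mem_insert_self _ _, ha⟩
        · rcases hA s hs with ⟨b, hb, hb'⟩ | h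
          · exact Or.inl ⟨b, Finset.mem_insert_of_mem hb, hb'⟩
          · exact Or.inr h
      · refine ⟨A, n * k, Nat.mul_pos hn hk, ?_⟩
        intro s hs
        rcases Finset.mem_insert.mp hs with rfl | hs
        · exact Or.inr (by rw [mul_comm, pow_mul, h, one_pow])
        · rcases hA s hs with h | h
          · exact Or.inl h
          · exact Or.inr (by rw [pow_mul, h, one_pow])
  obtain ⟨A, n, hn, hA⟩ := h1 T₀ hT₀U
  -- the number field
  set B : Set K := ⋃ a ∈ A, (minpoly ℚ a).rootSet K with hB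
  haveI hBfin : Finite B := by
    apply Set.Finite.to_subtype
    exact Set.Finite.biUnion A.finite_toSet fun a _ => rootSet_finite _ _
  set K₀ : IntermediateField ℚ K := IntermediateField.adjoin ℚ B with hK₀
  haveI : FiniteDimensional ℚ K₀ := IntermediateField.finiteDimensional_adjoin
    (fun x _ => Algebra.IsIntegral.isIntegral x)
  haveI : NumberField K₀ := { to_charZero := inferInstance, to_finiteDimensional := inferInstance }
  have hσK : ∀ x ∈ K₀, σ x ∈ K₀ := by
    have h2 : K₀ ≤ K₀.comap σ.toRatAlgHom := by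
      rw [hK₀, IntermediateField.adjoin_le_iff]
      intro b hb
      rw [hB, Set.mem_iUnion₂] at hb
      obtain ⟨a, ha, hb⟩ := hb
      change σ b ∈ IntermediateField.adjoin ℚ B
      apply IntermediateField.subset_adjoin
      rw [hB, Set.mem_iUnion₂]
      refine ⟨a, ha, ?_⟩
      rw [mem_rootSet] at hb ⊢
      refine ⟨hb.1, ?_⟩
      have h3 : aeval (σ.toRatAlgHom b) (minpoly ℚ a) = 0 := by
        rw [aeval_algHom_apply, hb.2, map_zero]
      exact h3
    exact h2
  have hAK : ∀ a ∈ A, a ∈ K₀ := by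
    intro a ha
    apply IntermediateField.subset_adjoin
    rw [hB, Set.mem_iUnion₂]
    refine ⟨a, ha, ?_⟩
    rw [mem_rootSet]
    exact ⟨minpoly.ne_zero (Algebra.IsIntegral.isIntegral a), minpoly.aeval ℚ a⟩
  set s₀ : K₀ →+* K₀ := (σ.comp (algebraMap K₀ K)).codRestrict K₀ (fun x => hσK x x.2) with hs₀
  have hs₀a : ∀ x : K₀, ((s₀ x : K₀) : K) = σ (x : K) := fun x => rfl
  have hσ₀ : ∀ x : 𝓞 K₀, ∃ y : 𝓞 K₀, s₀.toRatAlgHom x = (x : K₀) ^ (p ^ r) + p * y := by
    intro x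
    have hxi : IsIntegral ℤ ((x : K₀) : K) := by
      have h2 : IsIntegral ℤ (algebraMap K₀ K (x : K₀)) :=
        (isIntegral_algebraMap_iff (algebraMap K₀ K).injective).mpr x.2
      exact h2
    obtain ⟨y, hy, hxy⟩ := hσ _ hxi
    have hp0 : (p : K) ≠ 0 := by exact_mod_cast hpp.ne_zero
    have hyK : y ∈ K₀ := by
      have h2 : y = (σ ((x : K₀) : K) - ((x : K₀) : K) ^ (p ^ r)) / p := by
        rw [hxy]; field_simp; ring
      rw [h2]
      exact div_mem (sub_mem (hσK _ (x : K₀).2) (pow_mem (x : K₀).2 _)) (_root_.natCast_mem K₀ p)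
    have hyi : IsIntegral ℤ (⟨y, hyK⟩ : K₀) := by
      rw [← isIntegral_algebraMap_iff (algebraMap K₀ K).injective]
      exact hy
    refine ⟨⟨⟨y, hyK⟩, hyi⟩, ?_⟩
    apply Subtype.ext
    change σ ((x : K₀) : K) = (((x : K₀) ^ (p ^ r) + (p : K₀) * (⟨y, hyK⟩ : K₀) : K₀) : K)
    rw [hxy]
    push_cast
    rfl
  -- the root of unity
  set N := p ^ 2 * n with hN
  have hN0 : 0 < N := Nat.mul_pos (pow_pos hpp.pos 2) hn
  obtain ⟨ζ, hζ⟩ : ∃ ζ : Ω, IsPrimitiveRoot ζ N := by
    haveI : NeZero (N : Ω) := ⟨by exact_mod_cast hN0.ne'⟩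
    obtain ⟨ζ, hζ⟩ := IsAlgClosed.exists_root (cyclotomic N Ω) (by
      rw [degree_cyclotomic]
      exact_mod_cast (Nat.totient_pos.mpr hN0).ne')
    exact ⟨ζ, isRoot_cyclotomic_iff.mp hζ⟩
  set F₀ : IntermediateField K₀ Ω := IntermediateField.adjoin K₀ {ζ} with hF₀
  have hζi : IsIntegral K₀ ζ := (hζ.isIntegral hN0).tower_top
  haveI : FiniteDimensional K₀ F₀ := adjoin.finiteDimensional hζi
  haveI : FiniteDimensional ℚ F₀ := Module.Finite.trans K₀ F₀
  haveI : NumberField F₀ := { to_charZero := inferInstance, to_finiteDimensional := inferInstance }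
  set ζ₀ : F₀ := AdjoinSimple.gen K₀ ζ with hζ₀
  have hζ₀p : IsPrimitiveRoot ζ₀ N := by
    apply IsPrimitiveRoot.of_map_of_injective (f := algebraMap F₀ Ω) _ (algebraMap F₀ Ω).injective
    exact hζ
  have hBd : Bd F₀ (cst p r) :=
    cycloP s₀.toRatAlgHom hr hσ₀ hN0 (Dvd.intro _ rfl) hζ₀p (gen_top K₀ Ω ζ)
  have hTF : ∀ t ∈ T₀, t ∈ F₀ := by
    intro t ht
    rcases hA t ht with ⟨a, ha, rfl⟩ | h
    · exact F₀.algebraMap_mem ⟨a, hAK a ha⟩
    · have h2 : t ^ N = 1 := by rw [hN, mul_comm, pow_mul, h, one_pow]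
      haveI : NeZero N := ⟨hN0.ne'⟩
      obtain ⟨i, -, rfl⟩ := hζ.eq_pow_of_pow_eq_one h2
      exact pow_mem (mem_adjoin_simple_self K₀ ζ) i
  have hcoef : ∀ i, algebraMap F Ω (g.coeff i) ∈ F₀ := by
    intro i
    rcases Nat.lt_or_ge g.natDegree i with h | h
    · rw [coeff_eq_zero_of_natDegree_lt h, map_zero]
      exact zero_mem _
    · have h2 : IntermediateField.adjoin ℚ (T (g.coeff i) : Set Ω) ≤ F₀.restrictScalars ℚ := by
        rw [IntermediateField.adjoin_le_iff]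
        intro t ht
        apply hTF
        rw [hT₀, Finset.mem_biUnion]
        exact ⟨i, Finset.mem_range.mpr (by omega), ht⟩
      exact h2 (hT (g.coeff i))
  refine ⟨F₀, inferInstance, inferInstance, hBd, ?_⟩
  have hl : g.map (algebraMap F Ω) ∈ lifts (algebraMap F₀ Ω) := by
    rw [lifts_iff_coeff_lifts]
    intro i
    rw [coeff_map]
    exact ⟨⟨_, hcoef i⟩, rfl⟩
  obtain ⟨g₀, hg₀⟩ := (mem_lifts _).mp hl
  intro f hf
  refine ⟨g₀, ?_, ?_⟩
  · have h2 := congrArg natDegree hg₀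
    rwa [natDegree_map_eq_of_injective (algebraMap F₀ Ω).injective,
      natDegree_map_eq_of_injective (algebraMap F Ω).injective] at h2
  · rw [← map_dvd_map' (algebraMap F₀ Ω), hg₀]
    have h2 := Polynomial.map_dvd (algebraMap F Ω) hf
    rw [Polynomial.map_map] at h2 ⊢
    have h3 : (algebraMap F Ω).comp (Int.castRingHom F) = Int.castRingHom Ω := RingHom.ext_int _ _
    have h4 : (algebraMap F₀ Ω).comp (Int.castRingHom F₀) = Int.castRingHom Ω :=
      RingHom.ext_int _ _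
    rw [h3] at h2
    rw [h4]
    exact h2

end Pool.Agent.X184.SP
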